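import Pool.Agent.Work.MP_d4a230_co.S.Tree

-- merged part: Pool.Agent.Work.MP_d4a230_co.S.Low
section
/-!
The lower bound chain and the limit (h96_d4a230_sandwich.md, part 3).
-/

namespace Pool.Agent.Work.MP_d4a230_co.U

open Finset Filter Topology Pool.Agent.Work.MP_07f1b5_pr
open scoped BigOperators

variable {W : Type} [Fintype W] [DecidableEq W] {H : SimpleGraph W} [DecidableRel H.Adj]
  {W2 : Type} [Fintype W2] [DecidableEq W2] {K : SimpleGraph W2} [DecidableRel K.Adj]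
  {W3 : Type} [Fintype W3] [DecidableEq W3] {F : SimpleGraph W3} [DecidableRel F.Adj]
  {W4 : Type} [Fintype W4] [DecidableEq W4] {K2 : SimpleGraph W4} [DecidableRel K2.Adj]
  {n N : ℕ → ℕ} {τ : ℕ → ℝ} {L lam θ : ℝ}

variable (H) in
/-- The uniform model lies below every real model. -/
def Low : Prop :=
  ∀ (n N : ℕ → ℕ) (τ : ℕ → ℝ) (L lam θ ε : ℝ), Reg H ep1 n N τ → 0 ≤ L →
    Tendsto (fun j => rate H (n j) (N j) (τ j)) atTop (𝓝 L) → 0 ≤ lam → 0 ≤ θ → θ < 1 → 0 < ε →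
    ∀ᶠ μ : ℕ in atTop, ∀ᶠ j in atTop, (N j : ℝ) / μ * FU H.edgeFinset.card L lam θ μ - ε * N j ≤
      FE H (Fin (n j)) θ (τ j) ep1 (fug lam : Finset (Fin (N j) × Unit) → ℝ)

theorem lower2J (R : Reg H ep1 n N τ) (hT : Tangent K) (κ0 : 0 < K.edgeFinset.card) (d1 : Lo H K)
    (d2 : Lp K H.edgeFinset.card) (hL : 0 ≤ L)
    (hr : Tendsto (fun j => rate H (n j) (N j) (τ j)) atTop (𝓝 L)) (hl : 0 ≤ lam) (h0 : 0 ≤ θ)
    (h1 : θ < 1) (hτ : Tendsto τ atTop (𝓝 0)) {ε : ℝ} (hε : 0 < ε) :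
    ∀ᶠ μ : ℕ in atTop, ∀ᶠ j in atTop, (N j : ℝ) / μ * FU H.edgeFinset.card L lam θ μ - ε * N j ≤
      FE H (Fin (n j)) θ (τ j) ep1 (fug lam : Finset (Fin (N j) × Unit) → ℝ) := by
  have hk := Chain_k R.bal
  have hθ : 0 < 1 - θ := by linarith
  have hδ : 0 < ε / 6 * (1 - θ) := by positivity
  obtain ⟨e, e0, e1, e2⟩ := Deg_small hδ (L * 2 ^ H.edgeFinset.card)
  filter_upwards [eventually_ge_atTop H.edgeFinset.card, Chain_q hk hL one_pos,
    Chain_q hk hL (div_pos hδ (show 0 < L + 1 by linarith)),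
    Chain_big (N := id) tendsto_id (L * H.edgeFinset.card) hδ] with μ m1 m2 m3 m4
  have hμ : (0 : ℝ) < μ := by exact_mod_cast (by omega : 0 < μ)
  have hk' : (1 : ℝ) ≤ H.edgeFinset.card := by exact_mod_cast (by omega : 1 ≤ H.edgeFinset.card)
  have : Nonempty (Fin μ) := ⟨⟨0, by omega⟩⟩
  have hs : ∑ C : Finset (Fin μ), L / ((μ - 1).choose (H.edgeFinset.card - 1) : ℝ) *
      ind (C.card = H.edgeFinset.card) ≤ L * Fintype.card (Fin μ) := by
    have a1 := sum_unif H.edgeFinset.card (L / ((μ - 1).choose (H.edgeFinset.card - 1) : ℝ))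
      (univ : Finset (Fin μ))
    simp only [subset_univ, ind_pos trivial, mul_one, card_univ, Fintype.card_fin] at a1
    have a2 := choose_le (k := H.edgeFinset.card) (by omega) m1 le_rfl
    rw [div_self hμ.ne', one_pow, mul_one] at a2
    have a3 : (μ : ℝ) / H.edgeFinset.card ≤ μ := div_le_self hμ.le hk'
    rw [a1, Fintype.card_fin, div_mul_eq_mul_div, mul_div_assoc]
    exact mul_le_mul_of_nonneg_left (a2.trans a3) hL
  have h := lowerJ R hL hr hl h0 h1 (epP (Fin μ)) (fun _ => Bool.false_ne_true) (Or.inr hτ)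
    (half_pos hε) (by positivity) _ (fun C => mul_nonneg m2.1 (ind_nonneg _))
    (fun C => mul_le_one₀ m2.2 (ind_nonneg _) (ind_le_one _))
    (by rw [ind_neg (by rw [card_empty]; omega), mul_zero])
    (fun C => mul_le_of_le_one_right m2.1 (ind_le_one _)) hs κ0 (by positivity)
    (star2J hT κ0 (by omega) d1 d2 hL e0 e1 m1)
  have c1 : L * H.edgeFinset.card / μ ≤ ε / 6 * (1 - θ) := by
    rw [div_le_iff₀ hμ]; exact m4
  have c2 : L / ((μ - 1).choose (H.edgeFinset.card - 1) : ℝ) * L ≤ ε / 6 * (1 - θ) := by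
    have := m3.2
    rw [le_div_iff₀ (by linarith)] at this
    linarith [m2.1]
  have c3 : (L * H.edgeFinset.card / μ + L * (2 ^ H.edgeFinset.card * e) +
      L / ((μ - 1).choose (H.edgeFinset.card - 1) : ℝ) * L) / (1 - θ) ≤ ε / 2 := by
    rw [div_le_iff₀ hθ]; linarith
  filter_upwards [h] with j hj
  rw [Fintype.card_fin] at hj
  have c4 := mul_le_mul_of_nonneg_right c3 (Nat.cast_nonneg (α := ℝ) (N j))
  unfold FU
  linarith

theorem lower1J {k0 : ℕ} (B : KBal F k0) (hT : Tangent K) (hT2 : Tangent K2)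
    (hF : F.edgeFinset.card = H.edgeFinset.card) (κ0 : 0 < K.edgeFinset.card)
    (hκ : K.edgeFinset.card ≤ H.edgeFinset.card) (κ2 : 0 < K2.edgeFinset.card) (d1 : Lo H K)
    (d2 : Lo K F) (d3 : Lo F K2) (d4 : Lp K2 F.edgeFinset.card) : Low H := by
  intro n N τ L lam θ ε R hL hr hl h0 h1 hε
  have hk := Chain_k B
  have hθ : 0 < 1 - θ := by linarith
  have hl0 : 0 ≤ Real.log (1 + lam) := Real.log_nonneg (by linarith)
  obtain ⟨q, q0, q1, q2⟩ : ∃ q : ℝ, 0 < q ∧ q ≤ 1 / 4 ∧ Real.log (1 + lam) * (2 * q) ≤ ε / 8 := by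
    obtain ⟨e, e0, e1, e2⟩ := Deg_small hε (4 * Real.log (1 + lam))
    exact ⟨e / 4, by positivity, by linarith, by linarith⟩
  have hb : ∀ s : ℕ, q * (s : ℝ) ^ 2 ≤ 2 * (⌈q * (s : ℝ) ^ 2 / 2⌉₊ : ℝ) := fun s => by
    have := Nat.le_ceil (q * (s : ℝ) ^ 2 / 2)
    linarith
  obtain ⟨τ2, R2, t2, r2⟩ := reg_thin (n := id) B (N := fun s => ⌈q * (s : ℝ) ^ 2 / 2⌉₊) hL q0
    tendsto_id (Eventually.of_forall hb)
  have hε4 : 0 < ε / 4 := by linarith
  have hδ : 0 < ε / 8 * (1 - θ) := by positivity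
  have hB0 : 0 ≤ L / q ^ F.edgeFinset.card := by positivity
  rw [← hF]
  filter_upwards [lower2J R2 hT2 κ2 d3 d4 hL (tendsto_const_nhds.congr' (r2.mono fun _ h => h.symm))
    hl h0 h1 t2 hε4] with μ hμ
  obtain ⟨s, s1, s2, s3, s4, s5, s6, s7, s8⟩ := (hμ.and ((star1J B hT hF κ0 hκ d1 d2 hL q0 hδ).and
    (r2.and (R2.t01.and ((t2.eventually_le_const (div_pos hδ (show 0 < L / q ^ F.edgeFinset.card + 1
      by linarith))).and ((eventually_ge_atTop 2).and ((Chain_big (N := id) tendsto_id 2 q0).and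
      (Chain_big (N := id) tendsto_id (Real.log (1 + lam)) (show 0 < ε / 8 by linarith))))))))).exists
  simp only [id] at s1 s3 s7 s8
  have hc := Nat.ceil_lt_add_one (show 0 ≤ q * (s : ℝ) ^ 2 / 2 by positivity)
  have hbs := hb s
  generalize ⌈q * (s : ℝ) ^ 2 / 2⌉₊ = b at s1 s3 hc hbs
  have hs2 : (2 : ℝ) ≤ s := by exact_mod_cast s6
  have hs0 : (0 : ℝ) < s := by linarith
  have u1 : 2 * (b : ℝ) ≤ 2 * q * (s : ℝ) ^ 2 := by nlinarith
  have u2 : 2 * b ≤ s * (s - 1) := by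
    have : (2 * b : ℝ) ≤ s * ((s - 1 : ℕ) : ℝ) := by
      rw [Nat.cast_sub (by omega)]
      push_cast
      nlinarith
    exact_mod_cast this
  have hb0 : (0 : ℝ) < b := by
    have : 0 < q * (s : ℝ) ^ 2 := by positivity
    linarith
  have : Nonempty (Fin b) := ⟨⟨0, by exact_mod_cast hb0⟩⟩
  obtain ⟨ep, e1, e2, e3⟩ := simple (H := F) hl h0 h1 s4.1 s4.2 (by omega : 0 < s) u2
  obtain ⟨g1, g2⟩ := s2 b (τ2 s) ep hbs s4.1 s3 e1 e2
  rw [lz_fv] at e3
  have h := lowerJ R hL hr hl h0 h1 ep e1 (Or.inl e2) hε4 hδ.le _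
    (fun C => mul_nonneg s4.1 (ind_nonneg _))
    (fun C => mul_le_one₀ s4.2 (ind_nonneg _) (ind_le_one _))
    (by rw [ind_neg (fun h => by have := h.2.1; rw [card_empty] at this; omega), mul_zero])
    (fun C => mul_le_of_le_one_right s4.1 (ind_le_one _))
    (by rw [Fintype.card_fin]; exact g2) κ0 zero_le_one g1
  have c1 : (ε / 8 * (1 - θ) + τ2 s * (L / q ^ F.edgeFinset.card)) / (1 - θ) ≤ ε / 4 := by
    rw [le_div_iff₀ (by linarith)] at s5
    rw [div_le_iff₀ hθ]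
    linarith [s4.1]
  have c2 : Real.log (1 + lam) * (1 / s + 2 * b / (s : ℝ) ^ 2) ≤ ε / 4 := by
    have a1 : Real.log (1 + lam) * (1 / s) ≤ ε / 8 := by
      rw [mul_one_div, div_le_iff₀ hs0]; exact s8
    have a2 : 2 * b / (s : ℝ) ^ 2 ≤ 2 * q := by
      rw [div_le_iff₀ (by positivity)]; exact u1
    have a3 := mul_le_mul_of_nonneg_left a2 hl0
    rw [mul_add]; linarith
  filter_upwards [h] with j hj
  rw [Fintype.card_fin] at hj
  have hN : (0 : ℝ) ≤ N j := Nat.cast_nonneg _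
  have c3 := mul_le_mul_of_nonneg_right c1 hN
  have c4 := mul_le_mul_of_nonneg_right c2 hb0.le
  have c5 : (b : ℝ) * (FU F.edgeFinset.card L lam θ μ / μ - ε / 2) ≤
      FV θ (fun C : Finset (Fin b) => τ2 s * ind (Acd F (fun j => s((ep j).1, (ep j).2)) id C)) id
        (fug lam) := by
    have : (b : ℝ) * (FU F.edgeFinset.card L lam θ μ / μ) =
      b / μ * FU F.edgeFinset.card L lam θ μ := by ring
    linarith
  have c6 := mul_le_mul_of_nonneg_left c5 (div_nonneg hN hb0.le)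
  rw [← mul_assoc, div_mul_cancel₀ _ hb0.ne'] at c6
  have c7 : (N j : ℝ) * (FU F.edgeFinset.card L lam θ μ / μ) =
      N j / μ * FU F.edgeFinset.card L lam θ μ := by ring
  linarith

theorem dr_geS (R : Reg H ep1 n N τ) (hT : Sid H) (hL : 0 ≤ L)
    (hr : Tendsto (fun j => rate H (n j) (N j) (τ j)) atTop (𝓝 L)) (hl : 0 ≤ lam) (h0 : 0 ≤ θ)
    (h1 : θ < 1) (R0 : ℕ) {ε : ℝ} (hε : 0 < ε) : ∀ᶠ j in atTop, ∀ t, 0 < t → t < 1 → ∀ r < R0,
      -(ε * N j) ≤ DR H (Fin (n j)) lam θ (τ j) ep1 (piU H.edgeFinset.card L (N j)) id t (r + 1) := by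
  have h : ∀ r ∈ range R0, ∀ᶠ j in atTop, ∀ t, 0 < t → t < 1 → -(ε * N j) ≤
      DR H (Fin (n j)) lam θ (τ j) ep1 (piU H.edgeFinset.card L (N j)) id t (r + 1) := fun r _ => by
    obtain ⟨m, hm⟩ := (dr_low R hL hr hl h0 h1 r.succ_pos hε).exists
    filter_upwards [hm, R.t01, Upper_q R L one_pos] with j hj ht hq t t0 t1
    refine le_trans ?_ (hj t t0.le t1)
    rw [neg_le_sub_iff_le_add, le_add_iff_nonneg_left]
    refine mul_nonneg (by positivity) (Ex_nonneg (Upper_adm hL hq t0.le t1) fun A => ?_)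
    have hU := good_UV hl h0 h1 (id : Finset (Fin (N j) × Unit) → _) A
    exact (expect_nonneg fun _ _ => le_rfl).trans ((EG_pos h0 h1 hU fun _ => 0).ge.trans
      (EG_mono h0 h1 (mul_nonneg t0.le ht.1) (mul_le_one₀ t1.le ht.1 ht.2) hU fun y _ σ _ =>
        sub_nonneg.2 (hT _ _ fun e => (ck_unit _ _ e).1)))
  filter_upwards [(eventually_all_finset _).2 h] with j hj t t0 t1 r hr
  exact hj r (mem_range.2 hr) t t0 t1

theorem upperS (R : Reg H ep1 n N τ) (hT : Sid H) (hL : 0 ≤ L)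
    (hr : Tendsto (fun j => rate H (n j) (N j) (τ j)) atTop (𝓝 L)) (hl : 0 ≤ lam) (h0 : 0 ≤ θ)
    (h1 : θ < 1) {ε : ℝ} (hε : 0 < ε) : ∀ᶠ j in atTop,
    FE H (Fin (n j)) θ (τ j) ep1 (fug lam : Finset (Fin (N j) × Unit) → ℝ) ≤
      FU H.edgeFinset.card L lam θ (N j) + ε * N j := by
  obtain ⟨R0, -, h⟩ := ih_unif R hL hl h0 h1 (half_pos hε)
  have η0 : 0 < ε / 2 * (1 - θ) := mul_pos (half_pos hε) (sub_pos.2 h1)
  filter_upwards [h, dr_geS R hT hL hr hl h0 h1 R0 η0, R.pos] with j ⟨A, pm, i1, i2⟩ hd hp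
  have : Nonempty (Fin (n j)) := ⟨⟨0, hp.1⟩⟩
  have e := fi_le i1 R0 (by positivity) hd le_rfl zero_le_one le_rfl
  rw [fi_one, fi_zero, mul_right_comm, mul_div_cancel_right₀ _ (sub_pos.2 h1).ne'] at e
  rw [← fu_eq]
  exact e.trans (add_le_add le_rfl (by linarith))

theorem fu_convS {k0 : ℕ} (B : KBal H k0) (hT : Sid H) (hG : Low H) (hL : 0 ≤ L) (hl : 0 ≤ lam) (h0 : 0 ≤ θ)
    (h1 : θ < 1) : ∃ x, Tendsto (fun N : ℕ => FU H.edgeFinset.card L lam θ N / N) atTop (𝓝 x) := by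
  have hn : Tendsto Nat.sqrt atTop atTop :=
    tendsto_atTop_atTop.2 fun b => ⟨b * b, fun j hj => Nat.le_sqrt.2 hj⟩
  obtain ⟨τ, R, t, r⟩ := reg_thin (n := Nat.sqrt) B (N := fun j => j) hL one_pos hn
    (Eventually.of_forall fun j => by
      have : ((Nat.sqrt j : ℝ)) ^ 2 ≤ j := by exact_mod_cast Nat.sqrt_le' j
      have : (0 : ℝ) ≤ j := Nat.cast_nonneg _
      linarith)
  have hr : Tendsto (fun j => rate H (Nat.sqrt j) j (τ j)) atTop (𝓝 L) :=
    tendsto_const_nhds.congr' (r.mono fun _ h => h.symm)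
  refine conv_of _ _ (Chain_fu (Chain_k B) hL hl h0 h1) fun ε hε => ?_
  filter_upwards [hG _ _ _ _ _ _ _ R hL hr hl h0 h1 (half_pos hε)] with μ hμ
  filter_upwards [hμ, upperS R hT hL hr hl h0 h1 (half_pos hε), eventually_gt_atTop 0] with j a1 a2 a3
  have hj : (0 : ℝ) < j := by exact_mod_cast a3
  rw [le_div_iff₀ hj]
  have : FU H.edgeFinset.card L lam θ μ / μ * j = j / μ * FU H.edgeFinset.card L lam θ μ := by ring
  linarith

theorem real_geS (R : Reg H ep1 n N τ) (hT : Sid H) (hG : Low H) (hL : 0 ≤ L)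
    (hr : Tendsto (fun j => rate H (n j) (N j) (τ j)) atTop (𝓝 L)) (hl : 0 ≤ lam) (h0 : 0 ≤ θ)
    (h1 : θ < 1) {ε : ℝ} (hε : 0 < ε) : ∀ᶠ j in atTop,
    FU H.edgeFinset.card L lam θ (N j) - ε * N j ≤
      FE H (Fin (n j)) θ (τ j) ep1 (fug lam : Finset (Fin (N j) × Unit) → ℝ) := by
  obtain ⟨x, hx⟩ := fu_convS R.bal hT hG hL hl h0 h1
  have h3 : 0 < ε / 3 := by linarith
  obtain ⟨μ, m1, m2⟩ := ((hG _ _ _ _ _ _ _ R hL hr hl h0 h1 h3).and
    (hx.eventually_const_le (show x - ε / 3 < x by linarith))).exists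
  filter_upwards [m1, R.top.eventually (hx.eventually_le_const (show x < x + ε / 3 by linarith)),
    R.top.eventually_gt_atTop 0] with j a1 a2 a3
  have hj : (0 : ℝ) < N j := by exact_mod_cast a3
  rw [div_le_iff₀ hj] at a2
  have a4 := mul_le_mul_of_nonneg_right m2 hj.le
  have : FU H.edgeFinset.card L lam θ μ / μ * N j =
    N j / μ * FU H.edgeFinset.card L lam θ μ := by ring
  linarith

theorem alpha_convS {k0 : ℕ} (B : KBal H k0) (hT : Sid H) (hG : Low H) (hL : 0 ≤ L) :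
    ∃ a : ℝ, 0 ≤ a ∧ a ≤ 1 ∧ Tendsto (fun N : ℕ => meanIndep H.edgeFinset.card N
      (L / ((N - 1).choose (H.edgeFinset.card - 1) : ℝ)) / N) atTop (𝓝 a) := by
  have hk := Chain_k B
  have hb : ∀ᶠ N : ℕ in atTop, 0 ≤ meanIndep H.edgeFinset.card N
      (L / ((N - 1).choose (H.edgeFinset.card - 1) : ℝ)) / N ∧ meanIndep H.edgeFinset.card N
      (L / ((N - 1).choose (H.edgeFinset.card - 1) : ℝ)) / N ≤ 1 := by
    filter_upwards [Chain_q hk hL one_pos] with N hq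
    have := mean_bd H.edgeFinset.card N (by omega) hq.1 hq.2
    exact ⟨div_nonneg this.1 (Nat.cast_nonneg _), div_le_one_of_le₀ this.2 (Nat.cast_nonneg _)⟩
  obtain ⟨a, ha⟩ := conv_of (fun N : ℕ => meanIndep H.edgeFinset.card N
      (L / ((N - 1).choose (H.edgeFinset.card - 1) : ℝ)) / N) 1
    (hb.mono fun N h => by rw [abs_of_nonneg h.1]; exact h.2) fun ε hε => by
    have ht : 0 < 2 / ε := by positivity
    have hl : 1 ≤ Real.exp (2 / ε) := Real.one_le_exp ht.le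
    have hp := Real.exp_pos (2 / ε)
    have h0 : 0 ≤ 1 - 1 / Real.exp (2 / ε) := sub_nonneg.2 (div_le_one_of_le₀ hl hp.le)
    have h1 : 1 - 1 / Real.exp (2 / ε) < 1 := sub_lt_self _ (by positivity)
    have hlt : Real.exp (2 / ε) * (1 - (1 - 1 / Real.exp (2 / ε))) ≤ 1 := by
      rw [sub_sub_cancel, mul_one_div_cancel hp.ne']
    obtain ⟨x, hx⟩ := fu_convS B hT hG hL hp.le h0 h1
    have l2 : Real.log 2 ≤ 1 := by linarith [Real.log_two_lt_d9]
    filter_upwards [Chain_q hk hL one_pos, hx.eventually_le_const (show x < x + 1 / 2 by linarith),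
      eventually_gt_atTop 0] with μ m1 m2 m3
    filter_upwards [Chain_q hk hL one_pos, hx.eventually_const_le (show x - 1 / 2 < x by linarith),
      eventually_gt_atTop 0] with N n1 n2 n3
    have a1 := (fu_sandwich (by omega) hl h0 h1 hlt m1.1 m1.2).1
    have a2 := (fu_sandwich (by omega) hl h0 h1 hlt n1.1 n1.2).2
    rw [Real.log_exp] at a1 a2
    have hμ : (0 : ℝ) < μ := by exact_mod_cast m3
    have hN : (0 : ℝ) < N := by exact_mod_cast n3
    have b1 := div_le_div_of_nonneg_right a1 hμ.le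
    have b2 := div_le_div_of_nonneg_right a2 hN.le
    rw [add_div, mul_div_cancel_left₀ _ hN.ne', mul_div_right_comm] at b2
    rw [mul_div_right_comm] at b1
    refine le_of_mul_le_mul_right ?_ ht
    rw [sub_mul, mul_div_cancel₀ _ hε.ne']
    linarith
  exact ⟨a, ge_of_tendsto ha (hb.mono fun _ h => h.1), le_of_tendsto ha (hb.mono fun _ h => h.2), ha⟩

end Pool.Agent.Work.MP_d4a230_co.U
end

-- merged part: Pool.Agent.Work.MP_d4a230_co.S.Force
section
/-!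
Near equality in the Sidorenko inequality forces regular degrees (h96_d4a230_sandwich.md, part 4).
-/

namespace Pool.Agent.Work.MP_d4a230_co.U

open Finset Filter Topology Pool.Agent.Work.MP_07f1b5_pr
open scoped BigOperators

variable {W : Type} [Fintype W] [DecidableEq W] {H : SimpleGraph W} [DecidableRel H.Adj]

lemma S_inj {X Y : Type} [Fintype X] [Fintype Y] [DecidableEq Y] {f : X → Y}
    (hf : Function.Injective f) (g : Y → ℝ) : 𝔼 y, ind (y ∈ univ.image f) * g y =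
      (Fintype.card X : ℝ) / Fintype.card Y * 𝔼 x, g (f x) := by
  rw [div_mul_eq_mul_div, Fintype.card_mul_expect, Fintype.expect_eq_sum_div_card, ← Lay_sum,
    sum_image hf.injOn]

lemma Sid.sub (h : Sid H) {V : Type} [Fintype V] [DecidableEq V] {w : Sym2 V → ℝ}
    (hw : ∀ e, 0 ≤ w e) {S : Finset V} (hS : S.Nonempty) :
    (𝔼 a, ind (a ∈ S) * 𝔼 b, ind (b ∈ S) * w s(a, b)) ^ H.edgeFinset.card *
      (𝔼 a, ind (a ∈ S) * 1) ^ Fintype.card W ≤
      (𝔼 a, ind (a ∈ S) * 1) ^ (2 * H.edgeFinset.card) * tH H w := by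
  obtain ⟨s, f, hf, rfl⟩ : ∃ (s : ℕ) (f : Fin s → V), Function.Injective f ∧ S = univ.image f :=
    ⟨_, fun i => S.equivFin.symm i, Subtype.val_injective.comp S.equivFin.symm.injective, by
      ext a
      simp only [mem_image, mem_univ, true_and]
      exact ⟨fun ha => ⟨S.equivFin ⟨a, ha⟩, by simp⟩, fun ⟨i, e⟩ => e ▸ (S.equivFin.symm i).2⟩⟩
  have : Nonempty (Fin s) := univ_nonempty_iff.1 hS.of_image
  have h1 := h s (fun p => w (p.map f)) fun _ => hw _
  have h2 := (S_inj (hf.comp_left (α := W)) fun x => ∏ e ∈ H.edgeFinset, w (e.map x)).ge.trans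
    (ex_mono fun x => mul_le_of_le_one_left (prod_nonneg fun _ _ => hw _) (ind_le_one _))
  simp only [S_inj hf, ← mul_expect]
  rw [Fintype.expect_const, mul_one]
  simp only [Fintype.card_fun, Nat.cast_pow, ← div_pow, ← Sym2.map_map] at h2
  rw [ex_prod] at h1
  have h3 : 0 ≤ (Fintype.card (Fin s) : ℝ) / Fintype.card V := by positivity
  refine le_trans ?_ ((mul_le_mul_of_nonneg_left ((mul_le_mul_of_nonneg_left h1
    (pow_nonneg h3 _)).trans h2) (pow_nonneg h3 _)))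
  rw [← mul_assoc _ _ (𝔼 _, _), mul_pow, ← sq, ← pow_mul, mul_assoc, mul_comm (_ ^ Fintype.card W)]
  rfl

section tensor

variable {V : Type} [Fintype V] (w : Sym2 V → ℝ) (m : ℕ)

/-- Tensor power of a kernel. -/
def tens (p : Sym2 (Fin m → V)) : ℝ := ∏ i, w (p.map fun x => x i)

lemma tens_tH : tH H (tens w m) = tH H w ^ m := by
  have e := ex_prod_coord fun (_ : Fin m) (x : W → V) => ∏ f ∈ H.edgeFinset, w (f.map x)
  rw [prod_const, card_univ, Fintype.card_fin] at e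
  rw [tH, tH, ← e]
  refine Fintype.expect_equiv (Equiv.piComm _) _ _ fun x => ?_
  simp only [tens, Sym2.map_map]
  exact Finset.prod_comm

lemma tens_deg (x : Fin m → V) : 𝔼 y, tens w m s(x, y) = ∏ i, 𝔼 b, w s(x i, b) :=
  ex_prod_coord fun i b => w s(x i, b)

end tensor

theorem forceS {k0 : ℕ} (B : KBal H k0) (hT : Sid H) {δ : ℝ} (hδ : 0 < δ) : ∃ C : ℝ, 0 ≤ C ∧
    ∀ (n : ℕ) (w : Sym2 (Fin n) → ℝ), Unit01 w →
      irr (ord w) ≤ δ + C * (tH H w - (𝔼 e, ord w e) ^ H.edgeFinset.card) := by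
  have k3 := Chain_k B
  have x0 := Real.exp_pos (-(δ ^ 2 / 8))
  obtain ⟨m, hm⟩ := (((tendsto_pow_atTop_nhds_zero_of_lt_one x0.le (Real.exp_lt_one_iff.2
    (neg_neg_of_pos (by positivity)))).const_mul (2 ^ H.edgeFinset.card)).eventually_le_const
    (show (2 : ℝ) ^ H.edgeFinset.card * 0 < 1 / 4 by norm_num)).exists
  have r0 : 0 < ((δ / 2) ^ m) ^ H.edgeFinset.card := by positivity
  refine ⟨2 * m / ((δ / 2) ^ m) ^ H.edgeFinset.card, by positivity, fun n w hw => ?_⟩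
  have gap := hT n w fun e => (hw e).1
  obtain ⟨ρ, hρ⟩ : ∃ ρ : ℝ, 𝔼 e, ord w e = ρ := ⟨_, rfl⟩
  have ρ0 : 0 ≤ ρ := hρ ▸ expect_nonneg fun e _ => (hw _).1
  have ρ1 : ρ ≤ 1 := hρ ▸ ex_le zero_le_one fun e => (hw _).2
  obtain ⟨d, hd⟩ : ∃ d : Fin n → ℝ, d = fun a => 𝔼 b, w s(a, b) := ⟨_, rfl⟩
  have d0 : ∀ a, 0 ≤ d a := fun a => hd ▸ expect_nonneg fun e _ => (hw _).1
  have d1 : ∀ a, d a ≤ 1 := fun a => hd ▸ ex_le zero_le_one fun e => (hw _).2
  have dm : 𝔼 a, d a = ρ := by rw [← hρ, ex_prod, hd]; rfl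
  have ei : irr (ord w) = 𝔼 a, |d a - ρ| := by rw [← hρ, hd]; rfl
  have e1 : 𝔼 a, |d a - ρ| ≤ 𝔼 a, (d a + ρ) :=
    ex_mono fun a => abs_le.2 ⟨by linarith [d0 a], by linarith [d0 a]⟩
  have e2 : 𝔼 _a : Fin n, ρ ≤ ρ := ex_le ρ0 fun _ => le_rfl
  rw [expect_add_distrib, dm] at e1
  rw [hρ] at gap
  rw [hρ, ei]
  by_cases hc : 𝔼 a, |d a - ρ| ≤ δ
  · exact hc.trans (le_add_of_nonneg_right (mul_nonneg (by positivity) (sub_nonneg.2 gap)))
  rw [not_le] at hc
  have ρ2 : δ / 2 ≤ ρ := by linarith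
  have ρ3 : 0 < ρ ^ m := pow_pos (by linarith) m
  have ne : Nonempty (Fin n) := by
    by_contra h
    rw [not_nonempty_iff] at h
    rw [univ_eq_empty, expect_empty] at dm
    linarith
  have a1 : 𝔼 a, √ρ * √(d a) ≤ Real.exp (-(δ ^ 2 / 8)) * ρ := by
    refine (ex_mono (g := fun a => (ρ / 2 + δ ^ 2 / 8) + (1 / 2 * d a - δ / 4 * |d a - ρ|))
      fun a => ?_).trans ?_
    · have s1 := Real.mul_self_sqrt ρ0
      have s2 := Real.mul_self_sqrt (d0 a)
      have s3 : |d a - ρ| ≤ 2 * |√(d a) - √ρ| := by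
        rw [show d a - ρ = (√(d a) + √ρ) * (√(d a) - √ρ) by linarith, abs_mul,
          abs_of_nonneg (by positivity)]
        exact mul_le_mul_of_nonneg_right (by
          linarith [Real.sqrt_le_one.2 (d1 a), Real.sqrt_le_one.2 ρ1]) (abs_nonneg _)
      linarith [mul_le_mul_of_nonneg_left s3 hδ.le, sq_nonneg (|√(d a) - √ρ| - δ / 2),
        sq_abs (√(d a) - √ρ)]
    · rw [expect_add_distrib, expect_sub_distrib, Fintype.expect_const, ← mul_expect, ← mul_expect,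
        dm]
      linarith [mul_le_mul_of_nonneg_left hc.le hδ.le, mul_le_mul_of_nonneg_right
        (Real.add_one_le_exp (-(δ ^ 2 / 8))) ρ0, mul_le_mul_of_nonneg_left ρ1 (sq_nonneg δ)]
  obtain ⟨M, hM⟩ : ∃ M : ℝ, M = 2 ^ H.edgeFinset.card := ⟨_, rfl⟩
  have M2 : 2 ≤ M := hM ▸ le_self_pow₀ one_le_two (by omega)
  obtain ⟨S, hS⟩ : ∃ S : Finset (Fin m → Fin n), ∀ x, x ∈ S ↔ M ^ 2 * ρ ^ m ≤ ∏ i, d (x i) :=
    ⟨univ.filter _, fun x => mem_filter_univ x⟩
  have D0 : ∀ x : Fin m → Fin n, 0 ≤ ∏ i, d (x i) := fun x => prod_nonneg fun _ _ => d0 _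
  have D1 : 𝔼 x : Fin m → Fin n, ∏ i, d (x i) = ρ ^ m := by
    rw [ex_prod_coord fun _ a => d a, dm, prod_const, card_univ, Fintype.card_fin]
  have a2 : 𝔼 x, ind (x ∈ S) * 1 ≤ 1 / M ^ 2 := by
    have := ex_markov D0 (a := M ^ 2 * ρ ^ m) (by positivity)
    simp only [hS, mul_one]
    rw [D1] at this
    exact this.trans_eq (by field_simp)
  have a3 : 𝔼 x, (1 - ind (x ∈ S)) * ∏ i, d (x i) ≤ ρ ^ m / 4 := by
    refine (ex_mono (g := fun x => M * ∏ i, √ρ * √(d (x i))) fun x => ?_).trans ?_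
    · by_cases c : x ∈ S
      · rw [ind_pos c, sub_self, zero_mul]
        positivity
      · rw [ind_neg c, sub_zero, one_mul]
        refine abs_le_of_sq_le_sq' ?_ (by positivity) |>.2
        simp only [mul_pow, ← prod_pow, Real.sq_sqrt ρ0, Real.sq_sqrt (d0 _)]
        rw [prod_pow, prod_mul_distrib, prod_const, card_univ, Fintype.card_fin, sq, ← mul_assoc]
        exact mul_le_mul_of_nonneg_right (not_le.1 (mt (hS x).2 c)).le (D0 x)
    · rw [← mul_expect, ex_prod_coord fun _ a => √ρ * √(d a), prod_const, card_univ,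
        Fintype.card_fin]
      refine (mul_le_mul_of_nonneg_left (pow_le_pow_left₀ (expect_nonneg fun _ _ => by positivity)
        a1 m) (by positivity)).trans ?_
      rw [mul_pow, ← mul_assoc, hM]
      linarith [mul_le_mul_of_nonneg_right hm ρ3.le]
  have t0 : ∀ p, 0 ≤ tens w m p := fun p => prod_nonneg fun _ _ => (hw _).1
  have t1 : ∀ x, 𝔼 y, tens w m s(x, y) = ∏ i, d (x i) := fun x => by rw [tens_deg, hd]
  have a4 : ρ ^ m / 2 ≤ 𝔼 x, ind (x ∈ S) * 𝔼 y, ind (y ∈ S) * tens w m s(x, y) := by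
    have b1 : 𝔼 x, 𝔼 y, (1 - ind (y ∈ S)) * tens w m s(x, y) =
        𝔼 x, (1 - ind (x ∈ S)) * ∏ i, d (x i) := by
      rw [expect_comm]
      refine expect_congr rfl fun y _ => ?_
      rw [← t1, mul_expect]
      exact expect_congr rfl fun x _ => by rw [Sym2.eq_swap]
    refine le_trans ?_ (ex_mono (f := fun x => ∏ i, d (x i) - (1 - ind (x ∈ S)) * ∏ i, d (x i) -
      𝔼 y, (1 - ind (y ∈ S)) * tens w m s(x, y)) fun x => ?_)
    · rw [expect_sub_distrib, expect_sub_distrib, b1, D1]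
      linarith
    · rw [← t1, mul_expect, mul_expect, ← expect_sub_distrib, ← expect_sub_distrib]
      refine ex_mono fun y => ?_
      linarith [mul_nonneg (mul_nonneg (sub_nonneg.2 (ind_le_one (x ∈ S)))
        (sub_nonneg.2 (ind_le_one (y ∈ S)))) (t0 s(x, y))]
  have a5 : S.Nonempty := by
    by_contra h
    rw [not_nonempty_iff_eq_empty.1 h] at a4
    simp only [notMem_empty, ind_neg not_false, zero_mul, expect_const_zero] at a4
    linarith
  have a6 := hT.sub t0 a5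
  obtain ⟨σ, hσ⟩ : ∃ σ, σ = 𝔼 x, ind (x ∈ S) * 1 := ⟨_, rfl⟩
  have σ0 : 0 < σ := hσ ▸ expect_pos' (fun _ _ => mul_nonneg (ind_nonneg _) zero_le_one)
    ⟨_, mem_univ _, by rw [ind_pos a5.choose_spec, mul_one]; exact one_pos⟩
  have T := tH_unit H hw
  rw [← hσ] at a2 a6
  rw [tens_tH] at a6
  have σ1 : σ ≤ 1 := a2.trans (div_le_one_of_le₀ (by nlinarith) (by positivity))
  have a7 := (mul_le_mul_of_nonneg_right (pow_le_pow_left₀ (by positivity) a4 _)
    (pow_nonneg σ0.le _)).trans (a6.trans (mul_le_mul_of_nonneg_right (pow_le_pow_of_le_one σ0.le σ1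
      (show Fintype.card W + 1 ≤ _ by have := B.hk; omega)) (pow_nonneg T.1 _)))
  rw [pow_succ, mul_assoc, mul_comm, mul_le_mul_iff_right₀ (pow_pos σ0 _), div_pow, ← hM,
    pow_right_comm] at a7
  have a8 := a7.trans (mul_le_mul_of_nonneg_right a2 (pow_nonneg T.1 _))
  rw [div_le_iff₀ (by linarith), show 1 / M ^ 2 * tH H w ^ m * M = tH H w ^ m / M by field_simp,
    le_div_iff₀ (by linarith)] at a8
  have a9 := (le_abs_self _).trans ((abs_pow_sub_pow_le (tH H w) (ρ ^ H.edgeFinset.card) m).trans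
    (mul_le_of_le_one_right (by positivity) (pow_le_one₀ (by positivity) (max_le
      ((abs_of_nonneg T.1).trans_le T.2) ((abs_of_nonneg (pow_nonneg ρ0 _)).trans_le
        (pow_le_one₀ ρ0 ρ1))))))
  rw [abs_of_nonneg (sub_nonneg.2 gap)] at a9
  have a10 := pow_le_pow_left₀ (by positivity) (pow_le_pow_left₀ (by positivity) ρ2 m)
    H.edgeFinset.card
  rw [pow_right_comm ρ] at a10
  have a11 := mul_le_mul_of_nonneg_left M2 (pow_nonneg (pow_nonneg ρ0 H.edgeFinset.card) m)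
  have a12 : 2 ≤ 2 * m / ((δ / 2) ^ m) ^ H.edgeFinset.card * (tH H w - ρ ^ H.edgeFinset.card) := by
    rw [div_mul_eq_mul_div, le_div_iff₀ r0]
    linarith
  linarith

end Pool.Agent.Work.MP_d4a230_co.U
end

-- merged part: Pool.Agent.Work.MP_d4a230_co.S.Deg
section
/-!
Transfer to the random graph, as in the convex case (h96_d4a230_sandwich.md, part 4).
-/

namespace Pool.Agent.Work.MP_d4a230_co.U

open Finset Filter Topology Pool.Agent.Work.MP_07f1b5_pr
open scoped BigOperators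

variable {W : Type} [Fintype W] [DecidableEq W] {H : SimpleGraph W} [DecidableRel H.Adj]
  {n N : ℕ → ℕ} {L a : ℝ}

theorem fK_upS (R : Reg H ep1 n N fun _ => 1) (hT : Sid H) (hL : 0 ≤ L)
    (hr : Tendsto (fun j => rate H (n j) (N j) 1) atTop (𝓝 L))
    (ha : Tendsto (fun N : ℕ => meanIndep H.edgeFinset.card N
      (L / ((N - 1).choose (H.edgeFinset.card - 1) : ℝ)) / N) atTop (𝓝 a)) {ε : ℝ} (hε : 0 < ε) :
    ∀ᶠ j in atTop, 𝔼 y : Fin (N j) → Bool → Fin (n j), fK H 0 y ≤ a + ε := by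
  have hk : 2 ≤ H.edgeFinset.card := by have := R.bal.h3; have := R.bal.hk; omega
  have T0 : 0 < 4 / ε := by positivity
  have h0 : 0 ≤ 1 - Real.exp (-(4 / ε)) := sub_nonneg.2 (Real.exp_le_one_iff.2 (by linarith))
  have h1 : 1 - Real.exp (-(4 / ε)) < 1 := by linarith [Real.exp_pos (-(4 / ε))]
  filter_upwards [upperS R hT hL hr (Real.exp_pos (4 / ε)).le h0 h1 one_pos, R.pos,
    ((q_zero hk L).comp R.top).eventually_le_const one_pos,
    (ha.comp R.top).eventually_le_const (lt_add_of_pos_right a (half_pos hε))] with j u p q1 ha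
  have : Nonempty (Fin (n j)) := ⟨⟨0, p.1⟩⟩
  have hN := p.1.trans_le p.2
  have h4 : (0 : ℝ) < N j := by exact_mod_cast hN
  have h2 := Deg_up (V := Fin (n j)) (T := 4 / ε) R.bal h0 h1 hN
  have h3 := (fu_sandwich (by omega) (Real.one_le_exp T0.le) h0 h1
    (by rw [sub_sub_cancel, ← Real.exp_add]; simp) (by positivity) q1).2
  rw [Function.comp_apply, div_le_iff₀ h4] at ha
  rw [Real.log_exp] at h3
  refine le_of_mul_le_mul_left ?_ (mul_pos h4 T0)
  have h5 : 4 / ε * ε = 4 := div_mul_cancel₀ _ hε.ne'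
  nlinarith [mul_le_mul_of_nonneg_right ha T0.le, Real.log_two_lt_d9]

theorem fK_lowS (R : Reg H ep1 n N fun _ => 1) (hT : Sid H) (hG : Low H) (hL : 0 < L)
    (hr : Tendsto (fun j => rate H (n j) (N j) 1) atTop (𝓝 L))
    (ha : Tendsto (fun N : ℕ => meanIndep H.edgeFinset.card N
      (L / ((N - 1).choose (H.edgeFinset.card - 1) : ℝ)) / N) atTop (𝓝 a)) {K ε : ℝ} (hK : 0 ≤ K)
    (hε : 0 < ε) : ∀ᶠ j in atTop, a - ε ≤ 𝔼 y : Fin (N j) → Bool → Fin (n j), fK H K y := by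
  have hk : 2 ≤ H.edgeFinset.card := by have := R.bal.h3; have := R.bal.hk; omega
  have k0 : (0 : ℝ) < H.edgeFinset.card := by exact_mod_cast (by omega)
  have ε5 : 0 < ε / 5 := by positivity
  obtain ⟨T, T0, h5⟩ : ∃ T : ℝ, 0 < T ∧ T * ε = 5 :=
    ⟨5 / ε, by positivity, div_mul_cancel₀ _ hε.ne'⟩
  obtain ⟨θ, hθ⟩ : ∃ θ : ℝ, 1 - θ = Real.exp (-((1 + 2 * K) * T)) := ⟨_, sub_sub_cancel _ _⟩
  have h1 : θ < 1 := by linarith [Real.exp_pos (-((1 + 2 * K) * T))]
  have θ0 : 0 < θ := by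
    linarith [Real.exp_lt_one_iff.2 (neg_neg_of_pos (by positivity : 0 < (1 + 2 * K) * T))]
  have hl := (Real.exp_pos T).le
  obtain ⟨δ, δ0, -, δ1⟩ := Deg_small ε5 K
  obtain ⟨C, C0, hC⟩ := forceS R.bal hT δ0
  obtain ⟨C2, C20, hC2⟩ := acd_total R
  obtain ⟨η, η0, η1, η2⟩ := Deg_small ε5 ((1 + 2 * K) * C2)
  obtain ⟨u, hu⟩ : ∃ u, u = (1 - θ)⁻¹ := ⟨_, rfl⟩
  obtain ⟨c3, hc3⟩ : ∃ c, c = H.edgeFinset.card / L * (1 + (3 + 2 * u) / (η * θ)) := ⟨_, rfl⟩
  obtain ⟨e, e0, -, e1⟩ := Deg_small ε5 ((2 + u) / T + 4 * K + K * C * c3)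
  obtain ⟨R0, hR0, hI⟩ := ih_unif R hL.le hl θ0.le h1 e0
  obtain ⟨m, m1, m2⟩ := ((dr_low R hL.le hr hl θ0.le h1 one_pos e0).and (model1 R e0)).exists
  filter_upwards [hI, m1, m2, hC2, dr_geS R hT hL.le hr hl θ0.le h1 R0 e0,
    real_geS R hT hG hL.le hr hl θ0.le h1 e0, R.pos,
    ((q_zero hk L).comp R.top).eventually_le_const one_pos,
    (ha.comp R.top).eventually_const_le (sub_lt_self a ε5)] with j ⟨A, pm, hI, hie⟩ m1
    ⟨err, r0, r1, r2⟩ hC2 hD hre p q1 ha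
  have : Nonempty (Fin (n j)) := ⟨⟨0, p.1⟩⟩
  have hN := p.1.trans_le p.2
  have h4 : (0 : ℝ) < N j := by exact_mod_cast hN
  have h3 := (fu_sandwich (by omega) (Real.one_le_exp T0.le) θ0.le h1 (by
    rw [hθ, ← Real.exp_add]
    exact Real.exp_le_one_iff.2 (by nlinarith)) (by positivity) q1).1
  rw [Function.comp_apply, le_div_iff₀ h4] at ha
  rw [Real.log_exp] at h3
  have eN : 0 ≤ e * N j := by positivity
  obtain ⟨t, t1, t0, t2, h6⟩ := fi_mvt hI hR0 eN eN η0 η1 hD (by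
    rw [fi_zero, fi_one]
    exact (sub_le_sub_right (fu_eq _ _ _ _ _).le _).trans hre)
  have h7 := fi_le hI R0 eN hD t0.le t2.le le_rfl
  have h8 := m1 t t0.le t2
  rw [fi_one] at h7
  have hA : Adm fun C => (1 - t) * piU H.edgeFinset.card L (N j) C := fun c =>
    ⟨mul_nonneg (by linarith) (hI.p0 c), mul_le_one₀ (by linarith) (hI.p0 c) (hI.p1 c)⟩
  have h9 : FI H (Fin (n j)) (Real.exp T) θ 1 ep1 (piU H.edgeFinset.card L (N j)) id t ≤
      Ex (fun C => (1 - t) * piU H.edgeFinset.card L (N j) C) fun A =>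
        (N j * T * (𝔼 y : Fin (N j) → Bool → Fin (n j), fK H K y) + N j * T * K * (δ + 4 * e) +
          T * (1 + 2 * K) * (η * (C2 * N j)) + N j * Real.log 2) + N j * T * K * C *
        EG H θ (t * 1) ep1 (UV (Real.exp T) θ id A) 1
          fun (y : Fin (N j) → Bool → Fin (n j)) _ σ => tH H (bk m (den (sp ep1 y) (cap σ))) -
            (𝔼 e, ord (bk m (den (sp ep1 y) (cap σ))) e) ^ H.edgeFinset.card := by
    refine Ex_mono hA fun A => ?_
    have hU := good_UV (I := Fin (N j) × Unit) hl θ0.le h1 id A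
    have s0 : 0 ≤ t * 1 := by linarith
    have s1 : t * 1 ≤ 1 := by linarith
    have g1 := Deg_fe (V := Fin (n j)) R.bal hK T0.le θ0.le hθ s0 s1 hN hU fun σ =>
      mul_le_of_le_one_right (pow_nonneg hl _) (cw_bd θ0.le h1 _ _ _).2
    have g2 := EG_mono (H := H) (ep := ep1) (r := 1) θ0.le h1 s0 s1 hU
      (F := fun (y : Fin (N j) → Bool → Fin (n j)) _ σ => irr (den (sp ep1 y) (cap σ)))
      (F2 := fun y _ σ => (δ + 4 * err y) + C * (tH H (bk m (den (sp ep1 y) (cap σ))) -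
        (𝔼 e, ord (bk m (den (sp ep1 y) (cap σ))) e) ^ H.edgeFinset.card)) fun y _ σ _ => by
      linarith [irr_le (den (sp ep1 y) (cap σ)) (ord (bk m (den (sp ep1 y) (cap σ)))),
        r2 y (cap σ), hC _ (bk m (den (sp ep1 y) (cap σ))) (ck_unit _ _)]
    rw [EG_add, EG_mul, EG_pos θ0.le h1 hU, expect_add_distrib, Fintype.expect_const,
      ← mul_expect] at g2
    have g3 := mul_le_mul (by linarith : 1 - t * 1 ≤ η) hC2
      (expect_nonneg fun y _ => sum_nonneg fun C _ => mul_nonneg zero_le_one (ind_nonneg _)) η0.le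
    have g4 : 0 ≤ (N j : ℝ) * T * K := by positivity
    nlinarith [mul_le_mul_of_nonneg_left g2 g4, mul_le_mul_of_nonneg_left r1 g4,
      mul_le_mul_of_nonneg_left g3 (by positivity : 0 ≤ T * (1 + 2 * K))]
  rw [Ex_add, Ex_const, Ex_const_mul] at h9
  generalize Ex (fun C => (1 - t) * piU H.edgeFinset.card L (N j) C) _ = X at h8 h9
  have x1 : X ≤ e * c3 := by
    have x2 := (mul_le_mul_of_nonneg_left h8 θ0.le).trans h6
    rw [le_div_iff₀ η0, div_eq_mul_inv _ (1 - θ), ← hu] at x2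
    have x3 : θ * (L / H.edgeFinset.card * X - e) * η ≤ e * (3 + 2 * u) := by
      refine le_of_mul_le_mul_left ?_ h4
      have : L * N j / H.edgeFinset.card = L / H.edgeFinset.card * N j := by ring
      rw [this] at x2
      nlinarith
    have x4 : L / H.edgeFinset.card * X - e ≤ e * ((3 + 2 * u) / (η * θ)) := by
      rw [← mul_div_assoc, le_div_iff₀ (by positivity)]
      linarith
    have x5 : X = H.edgeFinset.card / L * (L / H.edgeFinset.card * X) := by field_simp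
    rw [x5, hc3, mul_left_comm e]
    exact mul_le_mul_of_nonneg_left (by linarith) (div_pos k0 hL).le
  rw [div_eq_mul_inv _ (1 - θ), ← hu] at h7
  refine le_of_mul_le_mul_left ?_ (mul_pos h4 T0)
  have y1 : e * (2 + u) = T * (e * ((2 + u) / T)) := by field_simp
  have y2 := mul_le_mul_of_nonneg_left x1 (by positivity : 0 ≤ (N j : ℝ) * T * K * C)
  have y3 := mul_le_mul_of_nonneg_left (add_le_add (add_le_add δ1 η2) e1) (mul_pos h4 T0).le
  have y4 := mul_le_mul_of_nonneg_right ha T0.le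
  have y5 := mul_le_mul_of_nonneg_left (by linarith [Real.log_two_lt_d9] : Real.log 2 ≤ T * ε / 5)
    h4.le
  have y6 := congrArg (· * (N j : ℝ)) y1
  linarith

theorem universalityS (hH : StrictlyTwoBalanced H)
    (hm : 1 < twoDensity H) (hT : Sid H) (hG : Low H) (c : ℝ) (hc : 0 < c) (p : ℕ → unitInterval)
    (hp : Tendsto (fun n : ℕ => (p n : ℝ) * (n : ℝ) ^ (1 / twoDensity H)) atTop (𝓝 c)) :
    Tendsto (fun N : ℕ => meanIndep H.edgeSet.ncard N
      (copyRate H c / ((N - 1).choose (H.edgeSet.ncard - 1) : ℝ)) / N) atTop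
      (𝓝 (chromThreshold H p)) := by
  have B := hH.hbal hm
  rw [hH.twoDensity_eq] at hp
  have R0 := B.reg hc hp
  obtain ⟨N, hN, hS⟩ := size R0.p0 R0.p1 R0.inf
  obtain ⟨R, hr, p0, hL⟩ := reg_real B hc R0 hN
  obtain ⟨a, a0, a1, ha⟩ := alpha_convS (kb_of B) hT hG hL.le
  rw [ncard_edge, hchrom_eq]
  refine ha.trans (le_of_eq (congrArg _ (le_antisymm
    (le_csInf ⟨2, two_pos, 0, turan_mem R0 one_lt_two⟩ ?_)
    (le_of_forall_gt_imp_ge_of_dense fun d hd => csInf_le ⟨0, fun _ h => h.1.le⟩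
      ⟨a0.trans_lt hd, 0, fin_up R0 B p0 hN hS
        (fun _ hε => fK_upS R hT hL.le hr ha hε) hd⟩))))
  rintro d ⟨d0, C, hd⟩
  by_contra h
  obtain ⟨n, e1, e2⟩ := ((fin_low R0 B p0 hN ((hS 1 one_pos).mono R0.p0 R0.p1
    (Eventually.of_forall fun _ _ h => h.1)) a1
    (fun _ _ hK hε => fK_lowS R hT hG hL hr ha hK hε) d0 (not_le.1 h) C).and
    (hd.eventually (lt_mem_nhds (show (1 : ℝ) / 2 < 1 by norm_num)))).exists
  exact absurd e1 (not_le.2 e2)

end Pool.Agent.Work.MP_d4a230_co.U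
end
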