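import Pool.Agent.Work.MP_d4a230_co.S.Tree
import Pool.Agent.Work.MP_d4a230_co.S.Deg
import Pool.Agent.Work.MP_d4a230_co.U.Iso

-- merged part: Pool.Agent.Work.MP_d4a230_co.S.Graph
section
/-!
Norm inequalities for graphs and the auxiliary graph (h96_d4a230_sandwich.md, parts 1 and 2).
-/

namespace Pool.Agent.Work.MP_d4a230_co.U

open Finset Filter Topology Pool.Agent.Work.MP_07f1b5_pr
open scoped BigOperators

section bip

variable {V W : Type} [Fintype V] [DecidableEq V] [Nonempty V] [Fintype W] [DecidableEq W]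
  {G : SimpleGraph W} [DecidableRel G.Adj] {A : Finset W} {w : Sym2 V → ℝ} {s t : ℕ}

/-- `A` is one side of a bipartition. -/
def Bip (G : SimpleGraph W) (A : Finset W) : Prop := ∀ u v, G.Adj u v → (u ∈ A ↔ v ∉ A)

lemma Bip.prod {M : Type} [CommMonoid M] (h : Bip G A) (φ : Sym2 W → M) :
    ∏ f ∈ G.edgeFinset, φ f = ∏ b ∈ Aᶜ, ∏ a ∈ G.neighborFinset b, φ s(a, b) := by
  rw [prod_sigma']
  refine (prod_bij (fun p _ => s(p.2, p.1)) (fun p hp => ?_) ?_ (fun f hf => ?_) fun _ _ => rfl).symm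
  · simpa using (by simpa using (mem_sigma.1 hp).2 : G.Adj p.1 p.2).symm
  · rintro ⟨b, a⟩ hp ⟨b2, a2⟩ hq e
    simp only [mem_sigma, mem_compl, SimpleGraph.mem_neighborFinset] at hp hq
    rcases Sym2.eq_iff.1 e with ⟨rfl, rfl⟩ | ⟨rfl, rfl⟩
    · rfl
    · exact absurd ((h _ _ hp.2).2 hq.1) hp.1
  · induction f using Sym2.ind with
    | h u v =>
      have e : G.Adj u v := by simpa using hf
      by_cases c : u ∈ A
      · exact ⟨⟨v, u⟩, by simpa using ⟨(h u v e).1 c, e.symm⟩, rfl⟩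
      · exact ⟨⟨u, v⟩, by simpa using ⟨c, e⟩, Sym2.eq_swap⟩

lemma Bip.card (h : Bip G A) : G.edgeFinset.card = ∑ b ∈ Aᶜ, (G.neighborFinset b).card := by
  have e := h.prod fun _ => (2 : ℕ)
  simp only [prod_const, prod_pow_eq_pow_sum] at e
  exact Nat.pow_right_injective le_rfl e

lemma Bip.nb (h : Bip G A) {b : W} (hb : b ∈ Aᶜ) : G.neighborFinset b ⊆ A := fun a ha => by
  by_contra c
  exact mem_compl.1 hb ((h b a (by simpa using ha)).2 c)

omit [Nonempty V] [DecidableEq V] in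
lemma Bip.tH (h : Bip G A) (w : Sym2 V → ℝ) :
    tH G w = 𝔼 x : W → V, ∏ b ∈ Aᶜ, cod w x (G.neighborFinset b) := by
  have e := ex_int (V := V) Aᶜ (fun b x y => ∏ a ∈ G.neighborFinset b, w s(x a, y))
    (fun b hb v hv x y => funext fun _ => prod_congr rfl fun a ha => by
      rw [Function.update_of_ne (ne_of_mem_of_not_mem (h.nb hb ha) (mem_compl.1 hv))])
    (fun _ => 1) fun _ _ _ _ => rfl
  simp only [one_mul] at e
  exact (expect_congr rfl fun x _ => h.prod fun f => w (f.map x)).trans e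

omit [DecidableEq V] in
theorem Bip.le_nr (h : Bip G A) (hw : ∀ e, 0 ≤ w e) (hs : 0 < s) (ht : 0 < t)
    (h1 : ∀ b ∉ A, G.degree b ≤ s) (h2 : ∀ a ∈ A, G.degree a ≤ t) :
    U.tH G w ≤ nr w s t ^ G.edgeFinset.card := by
  rw [h.tH, h.card]
  refine bt_le hw hs ht _ _ (fun b hb => h1 b (mem_compl.1 hb)) fun a => ?_
  by_cases c : a ∈ A
  · refine (card_le_card fun b hb => ?_).trans (h2 a c)
    simpa using (by simpa using (mem_filter.1 hb).2 : G.Adj b a).symm
  · rw [filter_false_of_mem fun b hb e => c (h.nb hb e), card_empty]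
    exact ht.le

omit [DecidableEq V] in
theorem Bip.nr_le (h : Bip G A) (hw : ∀ e, 0 ≤ w e) (hs : 0 < s) (ht : 0 < t) {C : Finset W}
    (hC : C ⊆ Aᶜ) (hc : C.card = t) (h1 : ∀ b ∈ C, ∀ a ∈ A, G.Adj b a)
    (h2 : s * Aᶜ.card ≤ G.edgeFinset.card) : nr w s t ^ G.edgeFinset.card ≤ U.tH G w := by
  rw [h.card] at h2
  rw [h.tH, h.card]
  exact bt_ge hw hs ht _ hC hc (fun b hb => (h.nb (hC hb)).antisymm fun a ha => by
    simpa using h1 b hb a ha) (fun b hb => h.nb hb) h2

theorem tH_le_lp (hw : ∀ e, 0 ≤ w e) {r : ℕ} (hr : 0 < r) (h : ∀ v, G.degree v ≤ r) :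
    tH G w ≤ ((𝔼 e, ord w e ^ r) ^ (r : ℝ)⁻¹) ^ G.edgeFinset.card := by
  refine (finner G.edgeFinset hr univ (fun f x => w (f.map x)) Sym2.toFinset (fun _ _ => hw _)
    (fun _ _ => subset_univ _) (fun f _ x y e => congrArg w (Sym2.map_congr fun u hu =>
      e u (Sym2.mem_toFinset.2 hu))) fun v => ?_).trans_eq ?_
  · simp only [Sym2.mem_toFinset]
    rw [← SimpleGraph.incidenceFinset_eq_filter, SimpleGraph.card_incidenceFinset_eq_degree]
    exact h v
  · rw [← prod_const]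
    exact prod_congr rfl fun f hf => congrArg (· ^ _) (Tang_edge hf fun p => w p ^ r)

end bip

/-- The complete bipartite graph minus `x` edges at one vertex. -/
def Fm (a b x : ℕ) : SimpleGraph (Fin a ⊕ Fin b) where
  Adj u v := ∃ p : Fin a × Fin b, ¬ (p.2.1 = 0 ∧ p.1.1 < x) ∧ s(u, v) = s(.inl p.1, .inr p.2)
  symm := ⟨fun _ _ ⟨p, h, e⟩ => ⟨p, h, Sym2.eq_swap.trans e⟩⟩
  loopless := ⟨fun _ ⟨p, _, e⟩ => by
    rcases Sym2.eq_iff.1 e with ⟨rfl, h⟩ | ⟨rfl, h⟩ <;> cases h⟩

noncomputable instance Fm_dec (a b x : ℕ) : DecidableRel (Fm a b x).Adj := Classical.decRel _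

variable {a b x : ℕ}

lemma Fm_zero : Fm a b 0 = completeBipartiteGraph (Fin a) (Fin b) := by
  ext u v
  rcases u with u | u <;> rcases v with v | v <;> simp [Fm]

lemma Fm_tan : Tangent (Fm a b 0) := tangent_of (Fm_zero ▸ convexDensity_Kst' a b)

lemma Fm_card (ha : x ≤ a) (hb : 0 < b) : (Fm a b x).edgeFinset.card + x = a * b := by
  have h1 := card_filter_add_card_filter_not (s := (univ : Finset (Fin a × Fin b)))
    fun p => p.2.1 = 0 ∧ p.1.1 < x
  have h2 : (univ.filter fun p : Fin a × Fin b => ¬ (p.2.1 = 0 ∧ p.1.1 < x)).card =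
      (Fm a b x).edgeFinset.card := by
    refine card_bij (fun p _ => s(Sum.inl p.1, Sum.inr p.2)) (fun p hp =>
      SimpleGraph.mem_edgeFinset.2 ⟨p, (mem_filter.1 hp).2, rfl⟩) ?_ fun f hf => ?_
    · rintro ⟨i, j⟩ _ ⟨i2, j2⟩ _ h
      simpa using h
    · induction f using Sym2.ind with
      | h u v =>
        obtain ⟨p, h3, e⟩ := SimpleGraph.mem_edgeFinset.1 hf
        exact ⟨p, mem_filter.2 ⟨mem_univ _, h3⟩, e.symm⟩
  have h3 : (univ.filter fun p : Fin a × Fin b => p.2.1 = 0 ∧ p.1.1 < x).card = x := by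
    refine (card_bij (fun p _ => p.1.1) (fun p hp => mem_range.2 (mem_filter.1 hp).2.2)
      (fun p hp q hq e => Prod.ext (Fin.ext e) (Fin.ext ?_)) fun l hl => ?_).trans (card_range x)
    · rw [(mem_filter.1 hp).2.1, (mem_filter.1 hq).2.1]
    · have := mem_range.1 hl
      exact ⟨(⟨l, by omega⟩, ⟨0, hb⟩), mem_filter.2 ⟨mem_univ _, rfl, this⟩, rfl⟩
  rw [h2, h3, card_univ, Fintype.card_prod, Fintype.card_fin, Fintype.card_fin] at h1
  omega

lemma Fm_bal (hx : x < a) (ha : 2 ≤ a) (hb : 2 ≤ b) (h : a + b ≤ (Fm a b x).edgeFinset.card) :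
    ∃ K, KBal (Fm a b x) K := by
  have ec : Fintype.card (Fin a ⊕ Fin b) = a + b := by simp
  refine ⟨(Fm a b x).edgeFinset.card * (a + b) + 1, by omega, ec ▸ h,
    (Nat.le_mul_of_pos_right _ (by omega)).trans (Nat.le_succ _), eq_univ_of_forall ?_,
    fun U u1 u2 => ?_⟩
  · rintro (i | j)
    · exact mem_vs.2 ⟨s(_, .inr ⟨1, hb⟩), SimpleGraph.mem_edgeFinset.2 ⟨(i, ⟨1, hb⟩), by simp, rfl⟩,
        Sym2.mem_mk_left _ _⟩
    · exact mem_vs.2 ⟨s(.inl ⟨a - 1, by omega⟩, _), SimpleGraph.mem_edgeFinset.2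
        ⟨(⟨a - 1, by omega⟩, j), fun e => by have := e.2; dsimp only at this; omega, rfl⟩,
        Sym2.mem_mk_right _ _⟩
  · have e1 : ein (Fm a b x).edgeFinset U ≤ _ := card_filter_le _ _
    rw [ec]
    zify at e1 u1 h ha hb ⊢
    nlinarith [mul_le_mul_of_nonneg_right e1 (show (0 : ℤ) ≤ a + b by positivity),
      mul_le_mul_of_nonneg_left u1 (show (0 : ℤ) ≤ (Fm a b x).edgeFinset.card * (a + b) by
        positivity)]

/-- The left side. -/
def lft (a b : ℕ) : Finset (Fin a ⊕ Fin b) := univ.map Function.Embedding.inl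

lemma lft_card : (lft a b).card = a ∧ (lft a b)ᶜ.card = b := by simp [lft, card_compl]

lemma Fm_bip : Bip (Fm a b x) (lft a b) := by
  rintro u v ⟨p, -, e⟩
  rcases Sym2.eq_iff.1 e with ⟨rfl, rfl⟩ | ⟨rfl, rfl⟩ <;> simp [lft]

lemma Fm_deg : (∀ v ∉ lft a b, (Fm a b x).degree v ≤ a) ∧ ∀ v ∈ lft a b, (Fm a b x).degree v ≤ b :=
  ⟨fun _ hv => (card_le_card (Fm_bip.nb (mem_compl.2 hv))).trans lft_card.1.le, fun v hv =>
    (card_le_card fun u hu => mem_compl.2 ((Fm_bip v u (by simpa using hu)).1 hv)).trans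
      lft_card.2.le⟩

section

variable {V : Type} [Fintype V] [Nonempty V] {w : Sym2 V → ℝ} {s t : ℕ}

lemma Fm_ge (hw : ∀ e, 0 ≤ w e) (hs : 0 < s) (ht : 0 < t) (h1 : t + min x 1 ≤ b)
    (h2 : s * b ≤ (Fm a b x).edgeFinset.card) :
    nr w s t ^ (Fm a b x).edgeFinset.card ≤ tH (Fm a b x) w := by
  have c1 : (univ.filter fun j : Fin b => j.1 < min x 1).card ≤ min x 1 :=
    (card_le_card_of_injOn Fin.val (fun j hj => mem_coe.2 (mem_range.2
      (mem_filter.1 (mem_coe.1 hj)).2)) Fin.val_injective.injOn).trans (card_range _).le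
  have c2 := card_filter_add_card_filter_not (s := (univ : Finset (Fin b))) fun j => j.1 < min x 1
  rw [card_univ, Fintype.card_fin] at c2
  obtain ⟨C, hC, hc⟩ := exists_subset_card_eq (s := univ.filter fun j : Fin b => ¬ j.1 < min x 1)
    (n := t) (by omega)
  refine Fm_bip.nr_le hw hs ht (C := C.map Function.Embedding.inr) (fun v hv => ?_)
    (by rw [card_map, hc]) (fun v hv u hu => ?_) (by rwa [lft_card.2])
  · obtain ⟨j, -, rfl⟩ := mem_map.1 hv
    simp [lft]
  · obtain ⟨j, hj, rfl⟩ := mem_map.1 hv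
    obtain ⟨i, -, rfl⟩ := mem_map.1 hu
    exact ⟨(i, j), fun h => (mem_filter.1 (hC hj)).2 (h.1.trans_lt
      (lt_min (i.1.zero_le.trans_lt h.2) one_pos)), Sym2.eq_swap⟩

lemma Fm_card0 (hb : 0 < b) : (Fm a b 0).edgeFinset.card = a * b := Fm_card a.zero_le hb

lemma Fm_nr (hw : ∀ e, 0 ≤ w e) (ha : 0 < a) (hb : 0 < b) :
    nr w a b ^ (Fm a b 0).edgeFinset.card = tH (Fm a b 0) w :=
  (Fm_ge (x := 0) hw ha hb (by simp) (Fm_card0 hb).ge).antisymm
    (Fm_bip.le_nr hw ha hb Fm_deg.1 Fm_deg.2)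

end

variable {W : Type} [Fintype W] [DecidableEq W] {H : SimpleGraph W} [DecidableRel H.Adj]
  {A : Finset W} {s t k : ℕ}

lemma Bip.lo (h : Bip H A) (hs : 0 < s) (ht : 0 < t) (h1 : ∀ b ∉ A, H.degree b ≤ s)
    (h2 : ∀ a ∈ A, H.degree a ≤ t) : Lo H (Fm s t 0) := fun n w ν hn hw hν e => by
  have : Nonempty (Fin n) := ⟨⟨0, hn⟩⟩
  rw [← Fm_nr hw hs ht, pow_le_pow_iff_left₀ (nr_nonneg hw s t) hν
    (Fm_card0 ht ▸ (Nat.mul_pos hs ht).ne')] at e
  exact (h.le_nr hw hs ht h1 h2).trans (pow_le_pow_left₀ (nr_nonneg hw s t) e _)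

lemma lp_of (hk : 0 < k) (h : ∀ v, H.degree v ≤ k) : Lp H k := fun n w ν hn hw hν e => by
  have : Nonempty (Fin n) := ⟨⟨0, hn⟩⟩
  have e0 : 0 ≤ 𝔼 e, ord w e ^ k := expect_nonneg fun _ _ => pow_nonneg (hw _) _
  refine (tH_le_lp hw hk h).trans (pow_le_pow_left₀ (Real.rpow_nonneg e0 _) ?_ _)
  rw [← Real.pow_rpow_inv_natCast hν hk.ne']
  exact Real.rpow_le_rpow e0 e (by positivity)

theorem low_convex (B : HBal H) (hT : Tangent H) : Low H := by
  have k0 : 0 < H.edgeFinset.card := by have := Chain_k (kb_of B); omega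
  have l : Lo H H := fun _ _ _ _ _ _ e => e
  exact lower1J (kb_of B) hT hT rfl k0 le_rfl k0 l l l (lp_of k0 fun v => H.degree_le_card_edgeFinset v)

theorem low_bip (B : HBal H) (h : Bip H A) (h1 : ∀ b ∉ A, H.degree b ≤ s)
    (h2 : ∀ a ∈ A, H.degree a ≤ t)
    (hk : H.edgeFinset.card ≤ H.edgeFinset.card / s * (H.edgeFinset.card / t)) : Low H := by
  have h' : Bip H Aᶜ := fun u v e => by
    have := h u v e
    rw [mem_compl, mem_compl]
    tauto
  have c1 := h.card.trans_le (sum_le_card_nsmul _ _ _ fun b hb => h1 b (mem_compl.1 hb))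
  have c2 := h'.card.trans_le (sum_le_card_nsmul _ _ _ fun b hb => h2 b (by simpa using hb))
  have c3 := card_add_card_compl A
  have c4 := B.h3
  have c5 := B.hk
  rw [compl_compl] at c2
  rw [smul_eq_mul] at c1 c2
  have s2 : 2 ≤ s := by
    by_contra c
    have := Nat.mul_le_mul_left Aᶜ.card (show s ≤ 1 by omega)
    rw [show A.card = 0 by omega] at c2
    omega
  have t2 : 2 ≤ t := by
    by_contra c
    have := Nat.mul_le_mul_left A.card (show t ≤ 1 by omega)
    rw [show Aᶜ.card = 0 by omega] at c1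
    omega
  have d1 := Nat.mul_div_le H.edgeFinset.card s
  have d2 := Nat.mul_div_le H.edgeFinset.card t
  generalize H.edgeFinset.card / s = b0 at hk d1
  generalize H.edgeFinset.card / t = a at hk d2
  have a0 : 0 < a := Nat.pos_of_mul_pos_left (a := b0) (by omega)
  obtain ⟨b, x, e1, e2⟩ : ∃ b x, H.edgeFinset.card + x = a * b ∧ x < a := by
    have h := Nat.div_add_mod (H.edgeFinset.card + a - 1) a
    have h' := Nat.mod_lt (H.edgeFinset.card + a - 1) a0
    exact ⟨(H.edgeFinset.card + a - 1) / a, a - 1 - (H.edgeFinset.card + a - 1) % a, by omega,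
      by omega⟩
  have b1 : b < b0 + 1 := lt_of_mul_lt_mul_left (a := a) (by rw [mul_add, mul_comm a b0]; omega)
    a.zero_le
  have b2 : s * b ≤ H.edgeFinset.card := (Nat.mul_le_mul_left s (by omega)).trans d1
  have b3 : t ≤ b := Nat.le_of_mul_le_mul_left (by rw [mul_comm]; omega) a0
  have b4 : t + min x 1 ≤ b := by
    rcases x.eq_zero_or_pos with rfl | x0
    · simpa using b3
    · have : t < b := lt_of_mul_lt_mul_left (a := a) (by rw [mul_comm]; omega) a.zero_le
      omega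
  have a2 : s ≤ a := Nat.le_of_mul_le_mul_right (by omega) (show 0 < b by omega)
  have ef : (Fm a b x).edgeFinset.card = H.edgeFinset.card := by
    have := Fm_card e2.le (show 0 < b by omega)
    omega
  have ab : a + b ≤ H.edgeFinset.card := by
    rcases x.eq_zero_or_pos with rfl | x0
    · nlinarith
    · obtain ⟨b, rfl⟩ : ∃ c, b = c + 3 := ⟨b - 3, by omega⟩
      nlinarith
  obtain ⟨K, hK⟩ := Fm_bal e2 (by omega) (by omega) (ef ▸ ab)
  have s0 : 0 < s := by omega
  have t0 : 0 < t := by omega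
  refine lower1J hK (Fm_tan (a := s) (b := t)) (Fm_tan (a := a) (b := b)) ef
    (Fm_card0 t0 ▸ Nat.mul_pos s0 t0) (Fm_card0 t0 ▸ (Nat.mul_le_mul_left s b3).trans b2)
    (Fm_card0 (show 0 < b by omega) ▸ Nat.mul_pos a0 (by omega)) (h.lo s0 t0 h1 h2)
    (fun n w ν hn hw hν e => ?_) (Fm_bip.lo a0 (by omega) Fm_deg.1 Fm_deg.2)
    (lp_of (by omega) fun v => ?_)
  · have : Nonempty (Fin n) := ⟨⟨0, hn⟩⟩
    have := (Fm_ge hw s0 t0 b4 (ef ▸ b2)).trans e
    rw [pow_le_pow_iff_left₀ (nr_nonneg hw s t) hν (by omega)] at this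
    rw [← Fm_nr hw s0 t0]
    exact pow_le_pow_left₀ (nr_nonneg hw s t) this _
  · by_cases c : v ∈ lft a b
    · exact (Fm_deg.2 v c).trans (by omega)
    · exact (Fm_deg.1 v c).trans (by omega)

end Pool.Agent.Work.MP_d4a230_co.U
end

-- merged part: Pool.Agent.Work.MP_d4a230_co.S.Prism
section
/-!
The Sidorenko inequality with vertex weights passes to the product with an edge (Kim, Lee, Lee).
-/

namespace Pool.Agent.Work.MP_d4a230_co.U

open Finset Filter Topology Pool.Agent.Work.MP_07f1b5_pr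
open scoped BigOperators

variable {W : Type} [Fintype W] [DecidableEq W] {H : SimpleGraph W} [DecidableRel H.Adj]

theorem PSid.iso {W' : Type} [Fintype W'] [DecidableEq W'] {H' : SimpleGraph W'}
    [DecidableRel H'.Adj] (h : PSid H) (φ : H ≃g H') : PSid H' := fun V _ _ μ w hμ hw h1 => by
  rw [← φ.card_edgeFinset_eq]
  refine (h V μ w hμ hw h1).trans_eq
    (Fintype.expect_equiv (φ.toEquiv.symm.arrowCongr (Equiv.refl V)) _ _ fun x => ?_).symm
  rw [← φ.toEquiv.prod_comp, ← prod_bij (s := H.edgeFinset) (fun e _ => e.map φ) (fun e he => ?_)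
    (fun _ _ _ _ e => Sym2.map.injective φ.injective e) (fun e he => ?_) fun _ _ => rfl]
  · simp only [Sym2.map_map]
    rfl
  · induction e using Sym2.ind with
    | h u v => simpa [φ.map_adj_iff] using he
  · induction e using Sym2.ind with
    | h u v => exact ⟨s(φ.symm u, φ.symm v), by simpa [φ.symm.map_adj_iff] using he, by simp⟩

omit [DecidableEq W] in
lemma prism_prod {M : Type} [CommMonoid M] [DecidableRel (H □ (⊤ : SimpleGraph Bool)).Adj]
    (F : Sym2 (W × Bool) → M) : ∏ e ∈ (H □ (⊤ : SimpleGraph Bool)).edgeFinset, F e =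
      (∏ u, F s((u, true), (u, false))) *
        ∏ e ∈ H.edgeFinset, F (e.map (·, true)) * F (e.map (·, false)) := by
  rw [← prod_bij (s := (univ : Finset W).disjSum (H.edgeFinset ×ˢ (univ : Finset Bool)))
    (fun p _ => p.elim (fun u => s((u, true), (u, false))) fun q => q.1.map (·, q.2)) ?_ ?_ ?_
    fun _ _ => rfl, prod_disjSum, prod_product]
  · simp only [Sum.elim_inl, Sum.elim_inr, Fintype.prod_bool]
  · rintro (u | ⟨e, b⟩) hp
    · simp
    · induction e using Sym2.ind with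
      | h u v => simpa using hp
  · rintro (u | ⟨e, b⟩) hp (v | ⟨f, c⟩) hq h
    · simpa using h
    · induction f using Sym2.ind with
      | h x y => cases c <;> simp at h
    · induction e using Sym2.ind with
      | h x y => cases b <;> simp at h
    · induction e using Sym2.ind with
      | h x y =>
        replace h : s(x, y).map (·, b) = f.map (·, c) := h
        obtain ⟨z, -, hz⟩ := Sym2.mem_map.1 (h ▸ Sym2.mem_mk_left _ _ : (x, b) ∈ f.map (·, c))
        obtain rfl : c = b := congrArg Prod.snd hz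
        rw [Sym2.map.injective (Prod.mk_left_injective c) h]
  · intro e he
    induction e using Sym2.ind with
    | h p q =>
      obtain ⟨u, b⟩ := p
      obtain ⟨v, c⟩ := q
      rcases SimpleGraph.boxProd_adj.1 (SimpleGraph.mem_edgeFinset.1 he) with ⟨a, e⟩ | ⟨a, e⟩
      · obtain rfl : b = c := e
        exact ⟨.inr (s(u, v), b), by simpa using a, rfl⟩
      · obtain rfl : u = v := e
        exact ⟨.inl u, by simp, by cases b <;> cases c <;> simp at a ⊢⟩

lemma S_cs {X : Type} [Fintype X] {ν : X → ℝ} (h0 : ∀ x, 0 ≤ ν x) (h1 : 𝔼 x, ν x = 1) (f : X → ℝ) :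
    (𝔼 x, ν x * f x) ^ 2 ≤ 𝔼 x, ν x * f x ^ 2 := by
  obtain ⟨m, hm⟩ : ∃ m, m = 𝔼 x, ν x * f x := ⟨_, rfl⟩
  refine le_trans (le_of_eq ?_) (ex_mono (f := fun x => 2 * m * (ν x * f x) - m ^ 2 * ν x) fun x => by
    linarith [mul_nonneg (h0 x) (sq_nonneg (f x - m))])
  rw [expect_sub_distrib, ← mul_expect, ← mul_expect, h1, ← hm]
  ring

theorem PSid.prism [DecidableRel (H □ (⊤ : SimpleGraph Bool)).Adj] (h : PSid H) :
    PSid (H □ (⊤ : SimpleGraph Bool)) := fun V _ _ μ w hμ hw h1 => by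
  have r0 := rho_pos hμ hw
  obtain ⟨ρ, hρ⟩ : ∃ ρ, ρ = 𝔼 a, μ a * dg μ w a := ⟨_, rfl⟩
  have e := prism_prod (H := H) fun _ => (2 : ℕ)
  simp only [prod_const, ← pow_add, mul_pow, card_univ] at e
  rw [Nat.pow_right_injective le_rfl e, ← hρ]
  rw [← hρ] at r0
  have k := h (V × V) (fun p => ρ⁻¹ * (μ p.1 * (μ p.2 * w s(p.1, p.2))))
    (fun p => w (p.map Prod.fst) * w (p.map Prod.snd))
    (fun p => mul_pos (inv_pos.2 r0) (mul_pos (hμ _) (mul_pos (hμ _) (hw _))))
    (fun p => mul_pos (hw _) (hw _)) (by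
      rw [← mul_expect, ex_prod]
      simp only [← mul_expect]
      exact hρ ▸ inv_mul_cancel₀ (hρ ▸ r0.ne'))
  have m1 : 𝔼 p : V × V, μ p.1 * μ p.2 = 1 := by
    simp only [ex_prod fun p : V × V => μ p.1 * μ p.2, ← mul_expect, h1, mul_one]
  have c1 := S_cs (fun a => (hμ a).le) h1 (dg μ w)
  have c2 := S_cs (fun p : V × V => (mul_pos (hμ p.1) (hμ p.2)).le) m1
    fun p => 𝔼 t, μ t * (w s(p.1, t) * w s(t, p.2))
  have c3 : 𝔼 p : V × V, μ p.1 * μ p.2 * 𝔼 t, μ t * (w s(p.1, t) * w s(t, p.2)) =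
      𝔼 a, μ a * dg μ w a ^ 2 := by
    simp only [mul_expect]
    rw [expect_comm]
    refine expect_congr rfl fun t _ => ?_
    rw [sq, dg, expect_mul_expect, mul_expect, ex_prod]
    refine expect_congr rfl fun a _ => ?_
    rw [mul_expect]
    refine expect_congr rfl fun b _ => ?_
    rw [Sym2.eq_swap (a := t) (b := a)]
    ring
  have c4 : 𝔼 p : V × V, ρ⁻¹ * (μ p.1 * (μ p.2 * w s(p.1, p.2))) *
      dg (fun p : V × V => ρ⁻¹ * (μ p.1 * (μ p.2 * w s(p.1, p.2))))
        (fun p => w (p.map Prod.fst) * w (p.map Prod.snd)) p = ρ⁻¹ ^ 2 *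
      𝔼 p : V × V, μ p.1 * μ p.2 * (𝔼 t, μ t * (w s(p.1, t) * w s(t, p.2))) ^ 2 := by
    simp only [dg, sq, mul_expect, expect_mul, ex_prod, Sym2.map_mk]
    refine expect_congr rfl fun a _ => ?_
    rw [expect_congr rfl fun _ _ => expect_comm _ _ _, expect_comm]
    refine expect_congr rfl fun b _ => expect_congr rfl fun c _ => expect_congr rfl fun d _ => ?_
    rw [Sym2.eq_swap (a := d) (b := b)]
    ring
  rw [c3] at c2
  rw [← hρ] at c1
  have c5 : ρ * ρ ≤ _ := le_of_eq_of_le (by field_simp) (mul_le_mul_of_nonneg_left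
    ((pow_le_pow_left₀ (sq_nonneg ρ) c1 2).trans c2) (sq_nonneg ρ⁻¹))
  rw [c4] at k
  have c6 := mul_le_mul_of_nonneg_left ((pow_le_pow_left₀ (mul_pos r0 r0).le c5 _).trans k)
    (pow_pos r0 (Fintype.card W)).le
  rw [mul_pow, ← pow_add, ← pow_add, mul_expect] at c6
  refine c6.trans_eq (Fintype.expect_equiv ⟨fun z p => cond p.2 (z p.1).1 (z p.1).2,
    fun x u => (x (u, true), x (u, false)), fun _ => rfl, fun x => funext fun ⟨u, b⟩ => by
      cases b <;> rfl⟩ _ _ fun z => ?_)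
  rw [prism_prod, Fintype.prod_prod_type, ← card_univ, ← prod_const, ← mul_assoc, ← mul_assoc,
    ← prod_mul_distrib, ← prod_mul_distrib]
  simp only [Fintype.prod_bool, Sym2.map_map, mul_inv_cancel_left₀ r0.ne', mul_assoc]
  rfl

theorem psid_class {W : Type} {H : SimpleGraph W} (h : PrismClass H) :
    ∀ [Fintype W] [DecidableEq W] [DecidableRel H.Adj], PSid H := by
  induction h with
  | base h => intro _ _ _; exact psid_tree h
  | @prism W H _ ih =>
    intro i j _
    classical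
    have : Finite W := Finite.of_injective _ (Prod.mk_left_injective true)
    have := Fintype.ofFinite W
    obtain rfl : i = instFintypeProd W Bool := Subsingleton.elim _ _
    obtain rfl : j = instDecidableEqProd := Subsingleton.elim _ _
    exact ih.prism
  | @iso W W' H H' _ e ih =>
    intro _ _ _
    classical
    obtain ⟨e⟩ := e
    have := Fintype.ofEquiv _ e.toEquiv.symm
    exact ih.iso e

end Pool.Agent.Work.MP_d4a230_co.U
end

-- merged part: Pool.Agent.Work.MP_d4a230_co.S.Main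
section
/-!
Assembly (h96_d4a230_sandwich.md).
-/

namespace Pool.Agent.Work.MP_d4a230_co.U

open Finset Filter Topology Pool.Agent.Work.MP_07f1b5_pr
open scoped BigOperators

variable {W : Type} [Fintype W] [DecidableEq W] {H : SimpleGraph W} [DecidableRel H.Adj]

theorem PSid.sid (h : PSid H) (hk : 0 < H.edgeFinset.card) : Sid H := fun n w hw => by
  rcases n.eq_zero_or_pos with rfl | hn
  · rw [univ_eq_empty, expect_empty, zero_pow hk.ne']
    exact expect_nonneg fun _ _ => prod_nonneg fun _ _ => hw _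
  have : Nonempty (Fin n) := ⟨⟨0, hn⟩⟩
  have hc : Continuous fun ε : ℝ => tH H fun e => w e + ε := by
    simp only [tH, Fintype.expect_eq_sum_div_card]
    fun_prop
  have l := (hc.tendsto 0).mono_left (nhdsWithin_le_nhds (s := Set.Ioi 0))
  simp only [add_zero] at l
  refine ge_of_tendsto l (eventually_nhdsWithin_of_forall fun ε (hε : 0 < ε) => ?_)
  have e := h _ (fun _ => 1) (fun e => w e + ε) (fun _ => one_pos)
    (fun e => add_pos_of_nonneg_of_pos (hw e) hε) (Fintype.expect_const _)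
  simp only [dg, one_mul, prod_const_one] at e
  refine (pow_le_pow_left₀ (expect_nonneg fun _ _ => hw _) ?_ _).trans e
  rw [ex_prod]
  exact ex_mono fun a => ex_mono fun b => le_add_of_nonneg_right hε.le

theorem sid_of (h : Sidorenko H) : Sid H := fun n w hw => by
  have e := h n w hw
  rw [Tang_eq, ncard_edge] at e
  rwa [Fintype.expect_eq_sum_div_card, Fintype.sum_prod_type, Fintype.card_prod, Fintype.card_fin,
    Nat.cast_mul, ← sq]

theorem sandwich {W : Type} [Fintype W] (H : SimpleGraph W) (hH : StrictlyTwoBalanced H)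
    (hm : 1 < twoDensity H) (hC : ConvexDensity H ∨ (Sidorenko H ∨ PrismClass H) ∧
      ∃ (A : Set W) (s t : ℕ), (∀ u v, H.Adj u v → (u ∈ A ↔ v ∉ A)) ∧
        (∀ v ∉ A, (H.neighborSet v).ncard ≤ s) ∧ (∀ v ∈ A, (H.neighborSet v).ncard ≤ t) ∧
        H.edgeSet.ncard ≤ H.edgeSet.ncard / s * (H.edgeSet.ncard / t))
    (c : ℝ) (hc : 0 < c) (p : ℕ → unitInterval)
    (hp : Tendsto (fun n : ℕ => (p n : ℝ) * (n : ℝ) ^ (1 / twoDensity H)) atTop (𝓝 c)) :
    Tendsto (fun N : ℕ => meanIndep H.edgeSet.ncard N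
      (copyRate H c / ((N - 1).choose (H.edgeSet.ncard - 1) : ℝ)) / N) atTop
      (𝓝 (chromThreshold H p)) := by
  classical
  have B := hH.hbal hm
  have k0 : 0 < H.edgeFinset.card := by have := Chain_k (kb_of B); omega
  rcases hC with h | ⟨h, A, s, t, h1, h2, h3, h4⟩
  · exact universalityS hH hm (fun _ _ hw => sidorenko (tangent_of h) k0 hw)
      (low_convex B (tangent_of h)) c hc p hp
  have d : ∀ v, (H.neighborSet v).ncard = H.degree v := fun v => by
    rw [Set.ncard_eq_toFinset_card']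
    rfl
  rw [ncard_edge] at h4
  simp only [d] at h2 h3
  exact universalityS hH hm (h.elim sid_of fun h => (psid_class h).sid k0)
    (low_bip B (A := A.toFinset) (fun u v e => by simpa using h1 u v e)
      (fun v hv => h2 v (by simpa using hv)) (fun v hv => h3 v (by simpa using hv)) h4) c hc p hp

end Pool.Agent.Work.MP_d4a230_co.U
end
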