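import Pool.Agent.Work.MP_d4a230_co.U.SDefs

namespace Pool.Agent.Work.MP_d4a230_co

/-- Sidorenko's property: `t(H, w) ≥ t(K₂, w) ^ e(H)` for all nonnegative symmetric weight
functions on finite sets. -/
def Sidorenko {W : Type} [Fintype W] (H : SimpleGraph W) : Prop :=
  ∀ (m : ℕ) (w : Sym2 (Fin m) → ℝ), (∀ e, 0 ≤ w e) →
    ((∑ a, ∑ b, w s(a, b)) / (m : ℝ) ^ 2) ^ H.edgeSet.ncard ≤ homDensity H m w

/-- Strong tree decompositions (Conlon, Kim, Lee, Lee): bags `X 0, …, X m` that induce trees with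
at least two vertices and cover the vertices, every edge lies in exactly one bag, and every later
bag `X i` meets the earlier ones inside one earlier bag `X j`, with isomorphic subtrees of the two
bags that contain `X i ∩ X j`, the isomorphism fixing these vertices. -/
def TreeGlued {W : Type} (H : SimpleGraph W) : Prop :=
  ∃ (m : ℕ) (X : ℕ → Set W), (∀ i ≤ m, (X i).Nontrivial ∧ (H.induce (X i)).IsTree) ∧
    (∀ v, ∃ i ≤ m, v ∈ X i) ∧ (∀ u v, H.Adj u v → ∃! i, i ≤ m ∧ u ∈ X i ∧ v ∈ X i) ∧
    ∀ i ≤ m, 0 < i → ∃ j < i, (∀ l < i, X l ∩ X i ⊆ X j) ∧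
      ∃ (Y Z : Set W) (φ : H.induce Y ≃g H.induce Z), Y ⊆ X i ∧ Z ⊆ X j ∧
        (H.induce Y).Connected ∧ ∀ v ∈ X i ∩ X j, ∃ h : v ∈ Y, (φ ⟨v, h⟩ : W) = v

/-- The smallest class of graphs that contains the graphs with a strong tree decomposition and is
closed under isomorphism and under the Cartesian product with an edge. -/
inductive PrismClass : ∀ {W : Type}, SimpleGraph W → Prop
  | base {W : Type} {H : SimpleGraph W} : TreeGlued H → PrismClass H
  | prism {W : Type} {H : SimpleGraph W} : PrismClass H → PrismClass (H □ (⊤ : SimpleGraph Bool))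
  | iso {W W' : Type} {H : SimpleGraph W} {H' : SimpleGraph W'} :
      PrismClass H → Nonempty (H ≃g H') → PrismClass H'

end Pool.Agent.Work.MP_d4a230_co
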