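import Pool.Agent.Work.MP_d4a230_co.V.LF1
import Pool.Agent.Work.MP_d4a230_co.S.SDefs

-- merged part: Pool.Agent.Work.MP_d4a230_co.V.Force
section
-- merged part: Pool.Agent.Work.MP_d4a230_co.U.Tang
section
/-!
Consequences of convexity.
PLAN. tangent_of: s maps to tH (w + s (u - w)) is convex on [0,1] with derivative at 0 equal to the
sum over edges of the average with one edge replaced by u - w (HasDerivAt.finset_prod, ord_psi,
ex_dart); ConvexOn.le_slope_of_hasDerivAt or a direct limit; homDensity (classical instances) equals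
tH by Finset.expect_eq_sum_div_card and convert. If k = 0 or n = 0 both sides are trivial.
sidorenko: tangent inequality at the constant kernel ρ (psi of a constant ρ is ρ^(k-1)).
tH_le_pow: pointwise AM-GM prod a_f <= (sum a_f^k) / k (inner_le_nnorm_mul_nnorm style lemmas
Real.inner_le..., or Real.geom_mean_le_arith_mean_weighted), then ex_ord for each edge.
psi_pow: tangent inequality with u = psi ^ (1/(k-1)) and tH_le_pow; u * psi = u ^ k.
young: weighted AM-GM.
-/

namespace Pool.Agent.Work.MP_d4a230_co.U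

open Finset Filter Topology Pool.Agent.Work.MP_07f1b5_pr
open scoped BigOperators


variable {W : Type} [Fintype W] [DecidableEq W] {H : SimpleGraph W} [DecidableRel H.Adj]

theorem Tang_eq (m : ℕ) (w : Sym2 (Fin m) → ℝ) : homDensity H m w = tH H w := by
  rw [tH, Finset.expect_eq_sum_div_card, homDensity, card_univ, Fintype.card_fun, Fintype.card_fin,
    Nat.cast_pow]
  exact congrArg (· / _) (sum_congr (Finset.ext fun _ => by simp) fun x _ =>
    prod_congr (Finset.ext fun _ => by simp) fun _ _ => rfl)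

theorem Tang_dart (g : Sym2 W → ℝ) :
    (H.edgeFinset.card : ℝ) * 𝔼 d : H.Dart, g d.edge = ∑ f ∈ H.edgeFinset, g f := by
  rw [ex_dart]
  rcases H.edgeFinset.eq_empty_or_nonempty with h | h
  · simp [h]
  · exact mul_div_cancel₀ _ (Nat.cast_ne_zero.2 h.card_pos.ne')

theorem Tang_edge {V : Type} [Fintype V] [DecidableEq V] {f : Sym2 W} (hf : f ∈ H.edgeFinset)
    (φ : Sym2 V → ℝ) : 𝔼 x : W → V, φ (f.map x) = 𝔼 e, ord φ e := by
  induction f using Sym2.ind with
  | h a b => exact ex_ord (H.ne_of_adj (by simpa using hf)) φ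

theorem tangent_of (h : ConvexDensity H) : Tangent H := by
  intro n w u hw hu
  have hc := (h n).comp_affineMap (AffineMap.lineMap w u)
  have e : homDensity H n ∘ AffineMap.lineMap (k := ℝ) w u = fun s : ℝ =>
      (∑ x : W → Fin n, ∏ f ∈ H.edgeFinset, (s * (u (f.map x) - w (f.map x)) + w (f.map x))) /
        (univ : Finset (W → Fin n)).card := by
    funext s
    rw [Function.comp, Tang_eq, tH, Finset.expect_eq_sum_div_card]
    rfl
  have d : HasDerivAt (homDensity H n ∘ AffineMap.lineMap (k := ℝ) w u)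
      ((∑ x : W → Fin n, ∑ f ∈ H.edgeFinset, (∏ g ∈ H.edgeFinset.erase f,
        (0 * (u (g.map x) - w (g.map x)) + w (g.map x))) • (1 * (u (f.map x) - w (f.map x)))) /
          (univ : Finset (W → Fin n)).card) 0 := by
    rw [e]
    exact (HasDerivAt.fun_sum fun x _ => HasDerivAt.fun_finsetProd fun f _ =>
      ((hasDerivAt_id' (0 : ℝ)).mul_const _).add_const _).div_const _
  have k := hc.le_slope_of_hasDerivAt (x := 0) (y := 1) (by simpa using hw) (by simpa using hu)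
    one_pos d
  rw [← Finset.expect_eq_sum_div_card, expect_sum_comm] at k
  simp only [slope_def_field, Function.comp, AffineMap.lineMap_apply_one,
    AffineMap.lineMap_apply_zero, Tang_eq, sub_zero, div_one, zero_mul, zero_add, one_mul,
    smul_eq_mul, mul_sub, expect_sub_distrib, sum_sub_distrib] at k
  have e1 : ∑ f ∈ H.edgeFinset, 𝔼 x : W → Fin n,
      (∏ g ∈ H.edgeFinset.erase f, w (g.map x)) * w (f.map x) = H.edgeFinset.card * tH H w := by
    rw [← nsmul_eq_mul, ← sum_const]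
    exact sum_congr rfl fun f hf => expect_congr rfl fun x _ =>
      prod_erase_mul _ (fun g : Sym2 W => w (g.map x)) hf
  rw [ord_psi, Tang_dart fun f => 𝔼 x : W → Fin n,
    u (f.map x) * ∏ g ∈ H.edgeFinset.erase f, w (g.map x)]
  simp only [mul_comm (u _)]
  linarith only [k, e1]

theorem sidorenko (hT : Tangent H) (hk : 0 < H.edgeFinset.card) {n : ℕ} {w : Sym2 (Fin n) → ℝ}
    (hw : ∀ e, 0 ≤ w e) : (𝔼 e, ord w e) ^ H.edgeFinset.card ≤ tH H w := by
  obtain ⟨ρ, hρ⟩ : ∃ ρ, ρ = 𝔼 e, ord w e := ⟨_, rfl⟩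
  have h0 : 0 ≤ ρ := hρ ▸ expect_nonneg fun e _ => hw _
  have h1 := hT n (fun _ => ρ) w (fun _ => h0) hw
  have h2 : tH H (fun _ : Sym2 (Fin n) => ρ) ≤ ρ ^ H.edgeFinset.card :=
    ex_le (pow_nonneg h0 _) fun x => (prod_const ρ).le
  have h3 : ∑ f ∈ H.edgeFinset, 𝔼 x : W → Fin n, w (f.map x) * ∏ _g ∈ H.edgeFinset.erase f, ρ =
      H.edgeFinset.card * ρ ^ H.edgeFinset.card := by
    rw [← nsmul_eq_mul, ← sum_const]
    refine sum_congr rfl fun f hf => ?_
    rw [← expect_mul, Tang_edge hf, ← hρ, prod_const, card_erase_of_mem hf, ← pow_succ',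
      Nat.sub_add_cancel hk]
  have h4 : (1 : ℝ) ≤ H.edgeFinset.card := Nat.one_le_cast.2 hk
  rw [ord_psi, Tang_dart fun f => 𝔼 x : W → Fin n, w (f.map x) * ∏ _g ∈ H.edgeFinset.erase f, ρ,
    h3] at h1
  rw [← hρ]
  nlinarith only [h1, h2, h4, mul_le_mul_of_nonneg_left h2 (sub_nonneg.2 h4)]

theorem young {k : ℕ} (hk : 2 ≤ k) {x y : ℝ} (hx : 0 ≤ x) (hy : 0 ≤ y) :
    k * (x * y) - x ^ k ≤ ((k : ℝ) - 1) * y ^ ((k : ℝ) / ((k : ℝ) - 1)) := by
  have k2 : (2 : ℝ) ≤ k := by exact_mod_cast hk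
  have k1 : (k : ℝ) - 1 ≠ 0 := by linarith
  have k0 : (0 : ℝ) < k := by linarith
  have h := mul_le_mul_of_nonneg_left (Real.young_inequality_of_nonneg hx hy
    (Real.HolderConjugate.conjExponent (p := k) (by linarith))) k0.le
  rw [Real.rpow_natCast, Real.conjExponent] at h
  refine sub_le_iff_le_add'.2 (h.trans_eq ?_)
  field_simp

end Pool.Agent.Work.MP_d4a230_co.U
end

-- merged part: Pool.Agent.Work.MP_d4a230_co.U.Unif
section
/-!
The uniform model.
PLAN. choose_le, choose_ge: C(N-1,k-1) = k C(N,k) / N (Nat.succ_mul_choose_eq) and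
C(a,k) / C(N,k) = prod (a-i)/(N-i) (descFactorial), between ((a-k)/N)^k truncated at 0 and (a/N)^k;
Bernoulli or x^k - y^k <= k (x - y) on [0,1]. fu_sandwich: meanIndep is Ex with p C = q ind (card = k)
of indepNum (weights of ω not inside powersetCard vanish); pointwise, a largest independent σ gives
Z >= lam^α; every σ has card <= α + (number of active C ⊆ σ) (delete one point per such C; all C are
nonempty as k >= 1), so its weight is at most lam^α and Z <= 2^N lam^α.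
-/

namespace Pool.Agent.Work.MP_d4a230_co.U

open Finset Filter Topology Pool.Agent.Work.MP_07f1b5_pr
open scoped BigOperators


theorem Unif_ratio {k N : ℕ} (a : ℕ) (hk : 1 ≤ k) (hN : k ≤ N) :
    (a.choose k : ℝ) / ((N - 1).choose (k - 1) : ℝ) =
      (N : ℝ) / k * ((a.descFactorial k : ℝ) / N.descFactorial k) := by
  obtain ⟨k, rfl⟩ : ∃ j, k = j + 1 := ⟨k - 1, by omega⟩
  obtain ⟨N, rfl⟩ : ∃ j, N = j + 1 := ⟨N - 1, by omega⟩
  have h1 : ((N + 1 : ℕ) : ℝ) * (N.choose k : ℝ) = ((N + 1).choose (k + 1) : ℝ) * ((k + 1 : ℕ) : ℝ) := by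
    exact_mod_cast Nat.add_one_mul_choose_eq N k
  have h2 : (0 : ℝ) < N.choose k := by exact_mod_cast Nat.choose_pos (by omega)
  have h3 : (0 : ℝ) < (N + 1).choose (k + 1) := by exact_mod_cast Nat.choose_pos hN
  have h4 : (0 : ℝ) < ((k + 1).factorial : ℝ) := by exact_mod_cast Nat.factorial_pos _
  have h5 : (0 : ℝ) < ((k + 1 : ℕ) : ℝ) := by positivity
  rw [Nat.add_sub_cancel, Nat.add_sub_cancel, Nat.descFactorial_eq_factorial_mul_choose,
    Nat.descFactorial_eq_factorial_mul_choose, Nat.cast_mul, Nat.cast_mul,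
    mul_div_mul_left _ _ h4.ne', div_mul_div_comm, div_eq_div_iff h2.ne' (by positivity)]
  linear_combination (-(a.choose (k + 1) : ℝ)) * h1

theorem Unif_desc_le {N a : ℕ} (ha : a ≤ N) (k : ℕ) :
    a.descFactorial k * N ^ k ≤ a ^ k * N.descFactorial k := by
  induction k with
  | zero => simp
  | succ k ih =>
    have h : (a - k) * N ≤ a * (N - k) := by
      rw [Nat.sub_mul, Nat.mul_sub]
      exact Nat.sub_le_sub_left (by rw [mul_comm]; exact Nat.mul_le_mul_left _ ha) _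
    rw [Nat.descFactorial_succ, Nat.descFactorial_succ, pow_succ, pow_succ]
    calc (a - k) * a.descFactorial k * (N ^ k * N) = (a.descFactorial k * N ^ k) * ((a - k) * N) := by
          ring
      _ ≤ (a ^ k * N.descFactorial k) * (a * (N - k)) := Nat.mul_le_mul ih h
      _ = _ := by ring

theorem Unif_desc_ge {N a : ℕ} (hN : 0 < N) (ha : a ≤ N) (k : ℕ) :
    ((a : ℝ) / N) ^ k - (k : ℝ) ^ 2 / N ≤ (a.descFactorial k : ℝ) / (N : ℝ) ^ k := by
  have hN' : (0 : ℝ) < N := by exact_mod_cast hN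
  induction k with
  | zero => simp
  | succ k ih =>
    have x0 : 0 ≤ (a.descFactorial k : ℝ) / (N : ℝ) ^ k := by positivity
    have x1 : (a.descFactorial k : ℝ) / (N : ℝ) ^ k ≤ 1 := by
      rw [div_le_one (by positivity)]
      exact_mod_cast (Nat.descFactorial_le_pow a k).trans (Nat.pow_le_pow_left ha k)
    have y0 : 0 ≤ (a : ℝ) / N := by positivity
    have y1 : (a : ℝ) / N ≤ 1 := by rw [div_le_one hN']; exact_mod_cast ha
    have z : (a : ℝ) / N - k / N ≤ ((a - k : ℕ) : ℝ) / N := by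
      rw [← sub_div]
      refine div_le_div_of_nonneg_right ?_ hN'.le
      rw [sub_le_iff_le_add]
      exact_mod_cast (by omega : a ≤ a - k + k)
    have e : (a.descFactorial (k + 1) : ℝ) / (N : ℝ) ^ (k + 1) =
        (a.descFactorial k : ℝ) / (N : ℝ) ^ k * (((a - k : ℕ) : ℝ) / N) := by
      rw [Nat.descFactorial_succ, Nat.cast_mul, pow_succ, div_mul_div_comm, mul_comm]
    have e2 : ((k + 1 : ℕ) : ℝ) ^ 2 / N = (k : ℝ) ^ 2 / N + 2 * (k / N) + 1 / N := by
      push_cast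
      ring
    have k0 : 0 ≤ (k : ℝ) / N := by positivity
    have k1 : 0 ≤ (k : ℝ) ^ 2 / N := by positivity
    have k2 : 0 ≤ (1 : ℝ) / N := by positivity
    rw [e, e2, pow_succ]
    nlinarith only [k0, k2, z, x0, ih, y0, x1, y1, k1, mul_le_mul_of_nonneg_left z x0, mul_le_mul_of_nonneg_right ih y0,
      mul_le_mul_of_nonneg_right x1 k0, mul_le_mul_of_nonneg_left y1 k1]

theorem choose_le {k N a : ℕ} (hk : 1 ≤ k) (hN : k ≤ N) (ha : a ≤ N) :
    (a.choose k : ℝ) / ((N - 1).choose (k - 1) : ℝ) ≤ (N : ℝ) / k * ((a : ℝ) / N) ^ k := by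
  have hN' : (0 : ℝ) < N := by exact_mod_cast (by omega : 0 < N)
  have h1 : (0 : ℝ) < N.descFactorial k := by exact_mod_cast Nat.descFactorial_pos.2 hN
  rw [Unif_ratio a hk hN, div_pow]
  refine mul_le_mul_of_nonneg_left ?_ (by positivity)
  rw [div_le_div_iff₀ h1 (by positivity)]
  exact_mod_cast Unif_desc_le ha k

theorem choose_ge {k N a : ℕ} (hk : 1 ≤ k) (hN : k ≤ N) (ha : a ≤ N) :
    (N : ℝ) / k * (((a : ℝ) / N) ^ k - (k : ℝ) ^ 2 / N) ≤
      (a.choose k : ℝ) / ((N - 1).choose (k - 1) : ℝ) := by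
  have h1 : (0 : ℝ) < N.descFactorial k := by exact_mod_cast Nat.descFactorial_pos.2 hN
  rw [Unif_ratio a hk hN]
  refine mul_le_mul_of_nonneg_left ((Unif_desc_ge (by omega) ha k).trans ?_) (by positivity)
  refine div_le_div_of_nonneg_left (by positivity) h1 ?_
  exact_mod_cast Nat.descFactorial_le_pow N k

theorem sum_unif {I : Type} [Fintype I] [DecidableEq I] (k : ℕ) (q : ℝ) (T : Finset I) :
    ∑ C : Finset I, q * ind (C.card = k) * ind (C ⊆ T) = q * (T.card.choose k : ℝ) := by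
  simp only [mul_assoc, ← ind_and]
  rw [← Finset.mul_sum, sum_ind, ← card_powersetCard]
  refine congrArg (fun s : Finset (Finset I) => q * (s.card : ℝ)) ?_
  ext C
  simp only [mem_filter, mem_univ, true_and, mem_powersetCard, and_comm]

theorem Unif_choose_ge (j n : ℕ) : n - j ≤ n.choose (j + 1) := by
  induction j generalizing n with
  | zero => simp
  | succ j ih =>
    rcases n with _ | n
    · simp
    · have := ih n
      rw [Nat.choose_succ_succ']
      omega

theorem q_zero {k : ℕ} (hk : 2 ≤ k) (L : ℝ) :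
    Tendsto (fun N : ℕ => L / ((N - 1).choose (k - 1) : ℝ)) atTop (𝓝 0) := by
  obtain ⟨j, rfl⟩ : ∃ j, k = j + 2 := ⟨k - 2, by omega⟩
  refine Tendsto.const_div_atTop (tendsto_natCast_atTop_atTop.comp ?_) L
  refine tendsto_atTop_mono (fun N => ?_) (tendsto_sub_atTop_nat (j + 1))
  have := Unif_choose_ge j (N - 1)
  show N - (j + 1) ≤ (N - 1).choose (j + 1)
  omega

theorem Unif_mean (k N : ℕ) (q : ℝ) : meanIndep k N q =
    Ex (fun C : Finset (Fin N) => q * ind (C.card = k)) fun ω => (indepNum ω : ℝ) := by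
  unfold meanIndep Ex
  rw [← Finset.sum_subset (subset_univ (powersetCard k (univ : Finset (Fin N))).powerset)]
  · refine sum_congr rfl fun ω hω => congrArg (· * (indepNum ω : ℝ)) ?_
    rw [mem_powerset] at hω
    have h1 : ∀ C ∈ ω, q * ind (C.card = k) = q := fun C hC => by
      rw [ind_pos (mem_powersetCard.1 (hω hC)).2, mul_one]
    have h2 : ∏ C ∈ univ.filter (fun C => C ∉ ω), (1 - q * ind (C.card = k)) =
        ∏ _C ∈ powersetCard k (univ : Finset (Fin N)) \ ω, (1 - q) := by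
      rw [← prod_subset (s₁ := powersetCard k (univ : Finset (Fin N)) \ ω)]
      · exact prod_congr rfl fun C hC => by
          rw [ind_pos (mem_powersetCard.1 (mem_sdiff.1 hC).1).2, mul_one]
      · exact fun C hC => mem_filter.2 ⟨mem_univ _, (mem_sdiff.1 hC).2⟩
      · intro C hC hC2
        rw [ind_neg fun h => hC2 (mem_sdiff.2 ⟨mem_powersetCard.2 ⟨subset_univ _, h⟩,
          (mem_filter.1 hC).2⟩), mul_zero, sub_zero]
    unfold wt
    rw [prod_ite, h2, filter_mem_eq_inter, univ_inter, prod_congr rfl h1, prod_const, prod_const,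
      card_sdiff_of_subset hω, card_powersetCard, card_univ, Fintype.card_fin]
  · intro ω _ hω
    refine mul_eq_zero_of_left ?_ _
    by_contra h
    refine hω (mem_powerset.2 fun C hC => mem_powersetCard.2 ⟨subset_univ _, ?_⟩)
    by_contra h2
    exact ne_zero_of_wt_ne h hC (by rw [ind_neg h2, mul_zero])

theorem Unif_adm {N : ℕ} (k : ℕ) {q : ℝ} (q0 : 0 ≤ q) (q1 : q ≤ 1) :
    Adm fun C : Finset (Fin N) => q * ind (C.card = k) := fun _ =>
  ⟨mul_nonneg q0 (ind_nonneg _), mul_le_one₀ q1 (ind_nonneg _) (ind_le_one _)⟩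

theorem Unif_ub {N : ℕ} (ω : Finset (Finset (Fin N))) :
    N ∈ upperBounds {a : ℕ | ∃ σ : Finset (Fin N), σ.card = a ∧ ∀ C ∈ ω, ¬ C ⊆ σ} := by
  rintro _ ⟨σ, rfl, -⟩
  simpa using card_le_univ σ

theorem mean_bd (k N : ℕ) {q : ℝ} (hk : 1 ≤ k) (q0 : 0 ≤ q) (q1 : q ≤ 1) :
    0 ≤ meanIndep k N q ∧ meanIndep k N q ≤ N := by
  rw [Unif_mean]
  refine ⟨Ex_nonneg (Unif_adm k q0 q1) fun ω => Nat.cast_nonneg _, ?_⟩
  rw [← Ex_const (fun C : Finset (Fin N) => q * ind (C.card = k)) (N : ℝ)]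
  exact Ex_mono_ae (Unif_adm k q0 q1) fun ω _ => Nat.cast_le.2 (csSup_le' (Unif_ub ω))

theorem Unif_del {I : Type} [Fintype I] [DecidableEq I] {lam θ : ℝ} (hl : 1 ≤ lam) (h0 : 0 ≤ θ)
    (h1 : θ < 1) (hlt : lam * (1 - θ) ≤ 1) (σ : Finset I) (ω : Finset (Finset I))
    (hω : ∀ C ∈ ω, C.Nonempty) :
    ∃ τ ⊆ σ, (∀ C ∈ ω, ¬ C ⊆ τ) ∧ fug lam σ * cw θ id ω σ ≤ lam ^ τ.card := by
  induction ω using Finset.induction_on with
  | empty => exact ⟨σ, subset_rfl, by simp, by simp [fug, cw]⟩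
  | insert C ω hC ih =>
    obtain ⟨τ, h2, h3, h4⟩ := ih fun D hD => hω D (mem_insert_of_mem hD)
    have e : cw θ id (insert C ω) σ = (1 - θ * ind (C ⊆ σ)) * cw θ id ω σ := prod_insert hC
    have p0 : 0 ≤ fug lam σ * cw θ id ω σ :=
      mul_nonneg (pow_nonneg (by linarith) _) (cw_bd h0 h1 id ω σ).1.le
    by_cases hc : C ⊆ τ
    · obtain ⟨x, hx⟩ := hω C (mem_insert_self _ _)
      refine ⟨τ.erase x, (erase_subset _ _).trans h2, fun D hD hD2 => ?_, ?_⟩
      · rcases mem_insert.1 hD with rfl | hD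
        · exact notMem_erase x τ (hD2 hx)
        · exact h3 D hD (hD2.trans (erase_subset _ _))
      · have p1 : 0 ≤ lam ^ (τ.erase x).card := pow_nonneg (by linarith) _
        rw [← card_erase_add_one (hc hx), pow_succ] at h4
        rw [e, ind_pos (hc.trans h2)]
        nlinarith only [h4, h1, hlt, p1, mul_le_mul_of_nonneg_left h4 (sub_pos.2 h1).le, mul_le_mul_of_nonneg_left hlt p1]
    · refine ⟨τ, h2, fun D hD => ?_, ?_⟩
      · rcases mem_insert.1 hD with rfl | hD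
        · exact hc
        · exact h3 D hD
      · rw [e]
        nlinarith only [h4, p0, h0, mul_nonneg p0 (mul_nonneg h0 (ind_nonneg (C ⊆ σ)))]

theorem Unif_point {N : ℕ} {lam θ : ℝ} (hl : 1 ≤ lam) (h0 : 0 ≤ θ) (h1 : θ < 1)
    (hlt : lam * (1 - θ) ≤ 1) (ω : Finset (Finset (Fin N))) (hω : ∀ C ∈ ω, C.Nonempty) :
    (indepNum ω : ℝ) * Real.log lam ≤ Real.log (∑ σ, fug lam σ * cw θ id ω σ) ∧
      Real.log (∑ σ, fug lam σ * cw θ id ω σ) ≤ (indepNum ω : ℝ) * Real.log lam + N * Real.log 2 := by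
  have hb : BddAbove {a : ℕ | ∃ σ : Finset (Fin N), σ.card = a ∧ ∀ C ∈ ω, ¬ C ⊆ σ} := ⟨N, Unif_ub ω⟩
  have hl0 : 0 < lam := by linarith
  have lo : lam ^ indepNum ω ≤ ∑ σ, fug lam σ * cw θ id ω σ := by
    obtain ⟨σ, h2, h3⟩ := Nat.sSup_mem (s := {a : ℕ | ∃ σ : Finset (Fin N), σ.card = a ∧ ∀ C ∈ ω, ¬ C ⊆ σ})
      ⟨0, ∅, rfl, fun C hC h => (hω C hC).ne_empty (subset_empty.1 h)⟩ hb
    have e : cw θ id ω σ = 1 := prod_eq_one fun C hC => by
      rw [id, ind_neg (h3 C hC), mul_zero, sub_zero]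
    refine le_trans ?_ (single_le_sum (f := fun σ => fug lam σ * cw θ id ω σ) (fun σ _ =>
      mul_nonneg (pow_nonneg hl0.le _) (cw_bd h0 h1 id ω σ).1.le) (mem_univ σ))
    rw [e, mul_one, fug, h2]
    exact le_rfl
  have hi : ∑ σ, fug lam σ * cw θ id ω σ ≤ lam ^ indepNum ω * 2 ^ N := by
    have := sum_le_card_nsmul univ (fun σ => fug lam σ * cw θ id ω σ) (lam ^ indepNum ω) fun σ _ => by
      obtain ⟨τ, -, h3, h4⟩ := Unif_del hl h0 h1 hlt σ ω hω
      exact h4.trans (pow_le_pow_right₀ hl (le_csSup hb ⟨τ, rfl, h3⟩))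
    rw [card_univ, Fintype.card_finset, Fintype.card_fin, nsmul_eq_mul, Nat.cast_pow, mul_comm] at this
    exact this
  have hp : 0 < lam ^ indepNum ω := pow_pos hl0 _
  rw [← Real.log_pow, ← Real.log_pow, ← Real.log_mul hp.ne' (by positivity)]
  exact ⟨Real.log_le_log hp lo, Real.log_le_log (hp.trans_le lo) hi⟩

theorem fu_sandwich {k N : ℕ} {L lam θ : ℝ} (hk : 1 ≤ k) (hl : 1 ≤ lam) (h0 : 0 ≤ θ) (h1 : θ < 1)
    (hlt : lam * (1 - θ) ≤ 1) (q0 : 0 ≤ L / ((N - 1).choose (k - 1) : ℝ))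
    (q1 : L / ((N - 1).choose (k - 1) : ℝ) ≤ 1) :
    meanIndep k N (L / ((N - 1).choose (k - 1) : ℝ)) * Real.log lam ≤ FU k L lam θ N ∧
      FU k L lam θ N ≤ meanIndep k N (L / ((N - 1).choose (k - 1) : ℝ)) * Real.log lam +
        N * Real.log 2 := by
  have ha := Unif_adm (N := N) k q0 q1
  have hne : ∀ ω : Finset (Finset (Fin N)),
      wt (fun C : Finset (Fin N) => L / ((N - 1).choose (k - 1) : ℝ) * ind (C.card = k)) ω ≠ 0 →
      ∀ C ∈ ω, C.Nonempty := fun ω h C hC => by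
    by_contra h2
    refine ne_zero_of_wt_ne h hC ?_
    rw [not_nonempty_iff_eq_empty.1 h2, ind_neg (by rw [card_empty]; omega), mul_zero]
  rw [Unif_mean, ← Ex_mul_const]
  refine ⟨Ex_mono_ae ha fun ω h => (Unif_point hl h0 h1 hlt ω (hne ω h)).1, ?_⟩
  rw [← Ex_const (fun C : Finset (Fin N) => L / ((N - 1).choose (k - 1) : ℝ) * ind (C.card = k))
    (N * Real.log 2), ← Ex_add]
  exact Ex_mono_ae ha fun ω h => (Unif_point hl h0 h1 hlt ω (hne ω h)).2

end Pool.Agent.Work.MP_d4a230_co.U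
end

-- merged part: Pool.Agent.Work.MP_d4a230_co.U.Star
section
/-!
The gadget inequality for simple patterns and for parallel variables.
PLAN. star2: all slots have the same position p = s(z false, z true); with x = |R|/μ, ψ = psi w p the
expression is at most (L μ / k) (k x ψ - x^k) + L k (sum_unif, choose_ge) <= (L μ (k-1)/k)
ψ^(k/(k-1)) + L k (young); ex_ord and psi_pow.
star1: q = 2b/s^2, u = ind (. ∈ image of R) / q, Wz = w ∘ map z. Since the pattern is simple, the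
number of C ⊆ R with Acd is the number of copies inside the image of R, which is at least
(s^v q^k tH u - v^2 s^(v-1)) / aut (HBal.sum_copies, prod_img, sum_emb_ge); τ s^v q^k / aut = L b / k.
Tangent at Wz: tH u >= k (sum_{j ∈ R} psi Wz (s (ep j))) / b - (k-1) tH Wz (the mean of ord u * ord ψ
is that sum over b: sum_hit_mul or den_ord with I = Fin b). The mean over z of tH Wz is at most
tH w + v^2/s (ex_comp_inj for injective x, ex_not_inj). For a ≠ b the mean over z of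
|psi w s(z a, z b) - psi Wz s(a,b)| is at most C / sqrt s: for fixed values at a, b (ex_update twice)
the function z mapsto psi Wz s(a,b) has differences <= v/s (maxineq with Ω = Unit, δ = 1/sqrt s) and
its mean is within 3 v^2/s of psi w (maps x injective and avoiding a, b off the ends of the dart).
The error C/sqrt s + v^2/(s q^k) is at most ε for large s when q >= q0.
-/

namespace Pool.Agent.Work.MP_d4a230_co.U

open Finset Filter Topology Pool.Agent.Work.MP_07f1b5_pr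
open scoped BigOperators


variable {W : Type} [Fintype W] [DecidableEq W] {H : SimpleGraph W} [DecidableRel H.Adj]

section
variable {ι κ : Type} [Fintype ι] [DecidableEq ι] [Nonempty ι] [Fintype κ] [DecidableEq κ]
  [Nonempty κ] {g : (W → κ) → ℝ} {δ : ℝ}

lemma Star_diff (hg : Unit01 g) (z : ι → κ) (a : ι) (α : κ) :
    |(𝔼 x : W → ι, g fun u => Function.update z a α (x u)) - 𝔼 x : W → ι, g fun u => z (x u)| ≤
      (Fintype.card W : ℝ) / Fintype.card ι := by
  rw [← expect_sub_distrib]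
  refine (ex_abs _).trans ((ex_mono (g := fun x => ∑ u, ind (x u = a)) fun x =>
    le_trans ?_ (ind_exists_le univ _)).trans ?_)
  · by_cases h : ∃ u ∈ univ, x u = a
    · rw [ind_pos h]
      exact abs_sub_le_of_nonneg_of_le (hg _).1 (hg _).2 (hg _).1 (hg _).2
    · rw [ind_neg h, funext fun u => Function.update_of_ne (fun e => h ⟨u, mem_univ _, e⟩) α z,
        sub_self, abs_zero]
  · rw [expect_sum_comm]
    refine (sum_le_card_nsmul _ _ (1 / (Fintype.card ι : ℝ)) fun u _ => ?_).trans_eq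
      (by simp [div_eq_mul_inv])
    simpa using ex_mem_le (κ := ι) {u} {a}

lemma Star_mean (hg : Unit01 g) :
    |(𝔼 z : ι → κ, 𝔼 x : W → ι, g fun u => z (x u)) - 𝔼 y, g y| ≤
      (Fintype.card W : ℝ) ^ 2 / Fintype.card ι := by
  rw [expect_comm, ← Fintype.expect_const (ι := W → ι) (𝔼 y, g y), ← expect_sub_distrib]
  refine (ex_abs _).trans ((ex_mono fun x => ?_).trans (ex_not_inj (κ := ι) univ))
  by_cases h : Set.InjOn x (univ : Finset W)
  · rw [ex_comp_inj x (fun _ _ e => h (mem_univ _) (mem_univ _) e) g, sub_self, abs_zero]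
    exact ind_nonneg _
  · rw [ind_pos h]
    exact abs_sub_le_of_nonneg_of_le (expect_nonneg fun _ _ => (hg _).1)
      (ex_le zero_le_one fun _ => (hg _).2) (expect_nonneg fun _ _ => (hg _).1)
      (ex_le zero_le_one fun _ => (hg _).2)

lemma Star_samp (hg : Unit01 g) (hδ : 0 < δ) (hv : 0 < Fintype.card W)
    (h : Real.log 2 ≤ δ ^ 2 * Fintype.card ι) :
    𝔼 z : ι → κ, |(𝔼 y, g y) - 𝔼 x : W → ι, g fun u => z (x u)| ≤
      2 * δ * Fintype.card W + (Fintype.card W : ℝ) ^ 2 / Fintype.card ι := by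
  obtain ⟨err, -, h2, h3⟩ := maxineq (Ω := Unit)
    (fun _ (z : ι → κ) => 𝔼 x : W → ι, g fun u => z (x u))
    (c := (Fintype.card W : ℝ) / Fintype.card ι) (by positivity) hδ
    (fun _ z a α => Star_diff hg z a α) (by simpa using h)
  rw [mul_assoc, div_mul_cancel₀ _ (by positivity)] at h2
  refine (ex_mono (g := fun z => err z + (Fintype.card W : ℝ) ^ 2 / Fintype.card ι)
    fun z => ?_).trans ?_
  · have h4 := abs_le.1 (h3 z ())
    have h5 := abs_le.1 (Star_mean (ι := ι) hg)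
    exact abs_le.2 ⟨by linarith only [h4, h5, h4.2, h5.2], by linarith only [h4, h5, h4.1, h5.1]⟩
  · rw [expect_add_distrib, Fintype.expect_const]
    exact add_le_add_left h2 _

lemma Star_root {G : κ → κ → (W → κ) → ℝ} (hG : ∀ α β, Unit01 (G α β)) (hδ : 0 < δ)
    (hv : 0 < Fintype.card W) (h : Real.log 2 ≤ δ ^ 2 * Fintype.card ι) {a b : ι} (hab : a ≠ b) :
    𝔼 z : ι → κ, |(𝔼 y, G (z a) (z b) y) - 𝔼 x : W → ι, G (z a) (z b) fun u => z (x u)| ≤
      2 * δ * Fintype.card W + (Fintype.card W : ℝ) ^ 2 / Fintype.card ι +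
        2 * ((Fintype.card W : ℝ) / Fintype.card ι) := by
  rw [Cut_upd a b]
  refine ex_le (by positivity) fun e => ?_
  simp only [Function.update_self, Function.update_of_ne hab]
  refine (ex_mono (g := fun z => |(𝔼 y, G e.1 e.2 y) - 𝔼 x : W → ι, G e.1 e.2 fun u => z (x u)| +
    2 * ((Fintype.card W : ℝ) / Fintype.card ι)) fun z => ?_).trans ?_
  · have h1 := abs_le.1 (Star_diff (hG e.1 e.2) z a e.1)
    have h2 := abs_le.1 (Star_diff (hG e.1 e.2) (Function.update z a e.1) b e.2)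
    have h3 := abs_le.1 (le_refl |(𝔼 y, G e.1 e.2 y) - 𝔼 x : W → ι, G e.1 e.2 fun u => z (x u)|)
    exact abs_le.2 ⟨by linarith only [h1, h2, h3, h1.2, h2.2, h3.1], by linarith only [h1, h2, h3, h1.1, h2.1, h3.2]⟩
  · rw [expect_add_distrib, Fintype.expect_const]
    exact add_le_add_left (Star_samp (hG _ _) hδ hv h) _

lemma Star_psi {w : Sym2 κ → ℝ} (hw : Unit01 w) (hδ : 0 < δ) (hv : 0 < Fintype.card W)
    (h : Real.log 2 ≤ δ ^ 2 * Fintype.card ι) {a b : ι} (hab : a ≠ b) :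
    𝔼 z : ι → κ, |psi H w s(z a, z b) - psi H (fun p => w (p.map z)) s(a, b)| ≤
      2 * δ * Fintype.card W + (Fintype.card W : ℝ) ^ 2 / Fintype.card ι +
        2 * ((Fintype.card W : ℝ) / Fintype.card ι) := by
  simp only [psi_mk, ← expect_sub_distrib]
  refine (ex_mono fun z => ex_abs _).trans ?_
  rw [expect_comm]
  refine ex_le (by positivity) fun d => le_of_eq_of_le ?_ (Star_root (G := fun α β y =>
    ∏ f ∈ H.edgeFinset.erase d.edge, w (f.map (Function.update (Function.update y d.fst α) d.snd β)))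
    (fun _ _ _ => ⟨prod_nonneg fun _ _ => (hw _).1,
      prod_le_one (fun _ _ => (hw _).1) fun _ _ => (hw _).2⟩) hδ hv h hab)
  simp only [rt, Sym2.map_map, Function.comp_update]
  rfl

lemma Star_tH {w : Sym2 κ → ℝ} (hw : Unit01 w) : 𝔼 z : ι → κ, tH H (fun p => w (p.map z)) ≤
    tH H w + (Fintype.card W : ℝ) ^ 2 / Fintype.card ι := by
  have h := (abs_le.1 (Star_mean (ι := ι) (g := fun y : W → κ => ∏ f ∈ H.edgeFinset, w (f.map y))
    fun _ => ⟨prod_nonneg fun _ _ => (hw _).1,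
      prod_le_one (fun _ _ => (hw _).1) fun _ _ => (hw _).2⟩)).2
  simp only [tH, Sym2.map_map]
  exact sub_le_iff_le_add'.1 h

end

section
variable {I V : Type} [Fintype I] [DecidableEq I] [Fintype V] [DecidableEq V]

lemma Star_cnt {q : I → Sym2 V} (hq : Function.Injective q) (R : Finset I) :
    ∑ C, ind (Acd H q id C) * ind (C ⊆ R) = ∑ T ∈ copies H V, ind (T ⊆ R.image q) := by
  rw [← sum_subset (subset_univ (univ.filter fun C => C.image q ∈ copies H V)) fun C _ h => by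
    rw [ind_neg fun e => h (mem_filter.2 ⟨mem_univ _, e.1⟩), zero_mul]]
  refine sum_of_injOn (image q) (image_injective hq).injOn (fun C h => (mem_filter.1 h).2)
    (fun T hT h => ind_neg fun e => h ?_) fun C h => ?_
  · obtain ⟨C, -, rfl⟩ := subset_image_iff.1 e
    exact ⟨C, mem_filter.2 ⟨mem_univ _, hT⟩, rfl⟩
  · obtain ⟨f, -, e⟩ := mem_image.1 (mem_filter.1 h).2
    rw [ind_pos ⟨(mem_filter.1 h).2, by rw [← card_image_of_injective C hq, ← e, card_img],
      Function.injective_id.injOn⟩, one_mul, image_subset_image_iff hq]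

lemma Star_cop {K : ℕ} (B : KBal H K) (S : Finset (Sym2 V)) :
    (Fintype.card V : ℝ) ^ Fintype.card W * tH H (fun p => ind (p ∈ S)) -
      (Fintype.card W : ℝ) ^ 2 * (Fintype.card V : ℝ) ^ (Fintype.card W - 1) ≤
        aut H * ∑ T ∈ copies H V, ind (T ⊆ S) ∧
    aut H * ∑ T ∈ copies H V, ind (T ⊆ S) ≤ (Fintype.card V : ℝ) ^ Fintype.card W := by
  have e : ∀ T : Finset (Sym2 V), ind (T ⊆ S) = ∏ g ∈ T, ind (g ∈ S) := fun T => by
    by_cases h : T ⊆ S
    · rw [ind_pos h, prod_eq_one fun g hg => ind_pos (h hg)]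
    · obtain ⟨g, h1, h2⟩ := not_subset.1 h
      rw [ind_neg h, prod_eq_zero h1 (ind_neg h2)]
  rw [B.sum_copies]
  refine ⟨?_, (sum_le_sum fun f _ => ind_le_one _).trans
    ((sum_emb_le (fun _ => 1) fun _ => zero_le_one).trans_eq (by simp))⟩
  simp only [e, prod_img]
  rw [sub_le_iff_le_add, ← Nat.cast_pow, ← Fintype.card_fun, tH, Fintype.card_mul_expect]
  exact sum_emb_ge (fun x => ∏ g ∈ H.edgeFinset, ind (g.map x ∈ S)) fun _ =>
    prod_le_one (fun _ _ => ind_nonneg _) fun _ _ => ind_le_one _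

lemma Star_den {q : I → Sym2 V} (hq : Function.Injective q) (hd : ∀ i, ¬ (q i).IsDiag)
    (R : Finset I) (e : V × V) : den q R e =
      ind (s(e.1, e.2) ∈ R.image q) / (2 * Fintype.card I / (Fintype.card V : ℝ) ^ 2) := by
  rw [den, div_div_eq_mul_div, mul_comm, mul_div_assoc]
  refine congrArg (· * _) ?_
  by_cases h : s(e.1, e.2) ∈ R.image q
  · obtain ⟨i, hi, h1⟩ := mem_image.1 h
    rw [ind_pos h, sum_eq_single_of_mem i hi fun j _ hj => by
      rw [hit, ind_neg fun h2 => hj (hq (h2.trans h1.symm)), zero_mul],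
      hit_of_ne _ fun h2 => hd i (h1 ▸ Sym2.mk_isDiag_iff.2 h2), ind_pos h1]
  · rw [ind_neg h, sum_eq_zero fun j hj => by
      rw [hit, ind_neg fun h2 => h (mem_image.2 ⟨j, hj, h2⟩), zero_mul]]

end

lemma Star_tan (hT : Tangent H) {I : Type} [Fintype I] [DecidableEq I] {s : ℕ} [Nonempty (Fin s)]
    {q : I → Sym2 (Fin s)} (hq : Function.Injective q) (hd : ∀ i, ¬ (q i).IsDiag) (R : Finset I)
    {w : Sym2 (Fin s) → ℝ} (hw : ∀ e, 0 ≤ w e) :
    H.edgeFinset.card * ((∑ i ∈ R, psi H w (q i)) / Fintype.card I) -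
      ((H.edgeFinset.card : ℝ) - 1) * tH H w ≤ tH H (fun p => ind (p ∈ R.image q)) /
        (2 * Fintype.card I / (s : ℝ) ^ 2) ^ H.edgeFinset.card := by
  have h := hT s w (fun p => ind (p ∈ R.image q) / (2 * Fintype.card I / (s : ℝ) ^ 2)) hw
    fun _ => div_nonneg (ind_nonneg _) (by positivity)
  rw [← den_ord]
  simp only [Star_den hq hd, Fintype.card_fin]
  refine h.trans_eq ?_
  simp only [tH, expect_div, prod_div_distrib, prod_const, div_pow]

end Pool.Agent.Work.MP_d4a230_co.U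
end
end

-- merged part: Pool.Agent.Work.MP_d4a230_co.V.Chain
section
-- merged part: Pool.Agent.Work.MP_d4a230_co.U.StatL
section
/-!
Local form of the statistics lemma.
PLAN. i0 = (g, b0). Apply tpm with activity t τ to F = F1 - ρ F2, G = the sum of
τ/(1 - tτ) ind (Acd ∧ Tch g C ∧ C ∉ act) plus 2c (its mean is mean XT + 2c: Ex_erase or Ex_mem,
xt_pow with m = 1). For σ : Fin (r+j) → sets, j <= d, put S0 = image of castAdd, η = coef θ t J,
T = cav g σ. If i0 ∉ cap of the first r replicas both terms vanish. Otherwise marks_not turns the F1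
term into the sum in lf1 with s0 = S0 (for Acd C with i0 ∈ C: C ⊆ cap iff C.erase i0 ⊆ T S0), and
marks turns the F2 term into the mean over labels l of 2 ind (l g = false) times the mean over z of
ρ psi (w S0) (sl z b0) * product, where w S = wl m ep y l (T S): if l g = false then
wl m ep (update y g z) l (S.inf σ) = wl m ep y l (T S) (den_congr; the layer true avoids g). The mean
of 2 ind (l g = false) is 1 (ex_update). If all w S are γ-close, lf1 (h0 = (1-θ)^(r+d), coef_sum)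
and lf (Ω = CI, D c z = psi (ck m c) (sl ep z b0), card_CI; one err for each b0, sum them or use
Ω = β × CI) bound the difference; otherwise bound it by XT (update y g z) + c and use outer:
the contribution is mean over z of (XT + c) times P_l(not close) <= h * (XT + c)^2 + P_l / h
(xt_pow with m = 2). Finitely many j <= d: eventually_all_finset.
-/

namespace Pool.Agent.Work.MP_d4a230_co.U

open Finset Filter Topology Pool.Agent.Work.MP_07f1b5_pr
open scoped BigOperators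

variable {α β : Type} [Fintype α] [DecidableEq α] [Fintype β] [DecidableEq β]
  {W : Type} [Fintype W] [DecidableEq W] {H : SimpleGraph W} [DecidableRel H.Adj]
  {ep : β → α × α} {n M : ℕ → ℕ} {τ : ℕ → ℝ}

lemma StatL_key {Z L : Type} [Fintype Z] [Fintype L] [Nonempty L] (k : L → ℝ) (Φ X : Z → ℝ)
    (Q : L → Z → ℝ) (bad : L → Prop) {e p h : ℝ} (he : 0 ≤ e) (hh : 0 < h)
    (hk : ∀ l, |k l| ≤ 2) (hk1 : 𝔼 l, k l = 1) (ha : ∀ l, ¬ bad l → |𝔼 z, (Φ z - Q l z)| ≤ e)
    (hb : ∀ l z, |Φ z - Q l z| ≤ X z) (hc : 𝔼 l, ind (bad l) ≤ p) :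
    |𝔼 z, (Φ z - 𝔼 l, k l * Q l z)| ≤ 2 * (e + h * (𝔼 z, X z ^ 2) + p / h) := by
  have h1 : 𝔼 z, (Φ z - 𝔼 l, k l * Q l z) = 𝔼 l, k l * 𝔼 z, (Φ z - Q l z) := by
    simp only [mul_expect]
    rw [expect_comm]
    refine expect_congr rfl fun z _ => ?_
    simp only [mul_sub, expect_sub_distrib, ← expect_mul, hk1, one_mul]
  have h2 : 0 ≤ h * 𝔼 z, X z ^ 2 := mul_nonneg hh.le (expect_nonneg fun z _ => sq_nonneg _)
  have h3 : ∀ l, |𝔼 z, (Φ z - Q l z)| ≤ e + h * (𝔼 z, X z ^ 2) + ind (bad l) / h := fun l => by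
    by_cases hl : bad l
    · have h4 : 𝔼 z, |Φ z - Q l z| ≤ 𝔼 z, (h * X z ^ 2 + 1 / h) := ex_mono fun z => by
        refine (hb l z).trans (le_of_mul_le_mul_left ?_ hh)
        rw [mul_add, mul_one_div_cancel hh.ne']
        nlinarith only [sq_nonneg (h * X z - 1), sq_nonneg (h * X z)]
      rw [expect_add_distrib, ← mul_expect] at h4
      have h5 : 𝔼 _z : Z, 1 / h ≤ 1 / h := ex_le (by positivity) fun _ => le_rfl
      rw [ind_pos hl]
      linarith only [he, h4, h5, ex_abs fun z => Φ z - Q l z]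
    · rw [ind_neg hl, zero_div]
      linarith [ha l hl]
  rw [h1]
  refine (ex_abs _).trans ((ex_mono (g := fun l =>
    2 * (e + h * (𝔼 z, X z ^ 2) + ind (bad l) / h)) fun l => ?_).trans ?_)
  · rw [abs_mul]
    exact mul_le_mul (hk l) (h3 l) (abs_nonneg _) zero_le_two
  · rw [← mul_expect, expect_add_distrib, Fintype.expect_const, ← expect_div]
    gcongr

section det

variable {V G : Type} [Fintype V] [DecidableEq V] [Fintype G] [DecidableEq G]

lemma StatL_half (g : G) : 𝔼 l : G → Bool, 2 * ind (l g = false) = 1 := by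
  rw [ex_update g]
  refine (expect_congr rfl fun l _ => ?_).trans (Fintype.expect_const (1 : ℝ))
  simp only [Function.update_self]
  rw [Fintype.expect_eq_sum_div_card, Fintype.sum_bool, ind_neg (by simp), ind_pos rfl]
  simp

lemma StatL_two (q : Prop) : 0 ≤ 2 * ind q ∧ 2 * ind q ≤ 2 :=
  ⟨by linarith [ind_nonneg q], by linarith [ind_le_one q]⟩

lemma StatL_mrk {θ t τ : ℝ} (h0 : 0 ≤ θ) (h1 : θ < 1) (t0 : 0 ≤ t) (t1 : t ≤ 1) (s0 : 0 ≤ τ)
    (s1 : τ ≤ 1) (g : G) {u : ℕ} (J : β → Finset (Fin u)) (σ : Fin u → Finset (G × β))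
    (y : G → α → V) (s : Finset (Finset (G × β))) :
    0 ≤ ∏ C ∈ s, (1 - τ * mrk H ep g (coef θ t J) (cav g σ) y C) ∧
      ∏ C ∈ s, (1 - τ * mrk H ep g (coef θ t J) (cav g σ) y C) ≤ 1 := by
  have k : ∀ q : Prop, 0 ≤ 1 - θ * ind q ∧ 1 - θ * ind q ≤ 1 := fun q =>
    ⟨by nlinarith only [h1, h0, ind_le_one q], by nlinarith [ind_nonneg q]⟩
  have k2 : ∀ C, 0 ≤ mrk H ep g (coef θ t J) (cav g σ) y C ∧
      mrk H ep g (coef θ t J) (cav g σ) y C ≤ 1 := fun C => by
    rw [mrk_coef]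
    have a := sub_nonneg.2 (prod_le_one (s := univ) (fun l _ => (k (Acd H (sp ep y) Prod.fst C ∧
      ∃ b, (g, b) ∈ C ∧ l ∈ J b ∧ C.erase (g, b) ⊆ σ l)).1) fun l _ => (k _).2)
    exact ⟨mul_nonneg t0 a, mul_le_one₀ t1 a (sub_le_self _ (prod_nonneg fun l _ => (k _).1))⟩
  have k3 : ∀ C, 0 ≤ 1 - τ * mrk H ep g (coef θ t J) (cav g σ) y C := fun C =>
    sub_nonneg.2 (mul_le_one₀ s1 (k2 C).1 (k2 C).2)
  exact ⟨prod_nonneg fun C _ => k3 C,
    prod_le_one (fun C _ => k3 C) fun C _ => sub_le_self _ (mul_nonneg s0 (k2 C).1)⟩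

lemma StatL_wl (m : ℕ) (y : G → α → V) (g : G) (z : α → V) {l : G → Bool} (hl : l g = false)
    (T : Finset (G × β)) :
    wl m ep (Function.update y g z) l T = wl m ep y l (T.filter fun i => i.1 ≠ g) := by
  have h : ∀ i ∈ lay β l true, i.1 ≠ g := fun i hi e => by
    rw [lay, mem_filter, e, hl] at hi
    exact Bool.false_ne_true hi.2
  have e : (T.filter fun i => i.1 ≠ g) ∩ lay β l true = T ∩ lay β l true := by
    ext i
    simp only [mem_inter, mem_filter]
    exact ⟨fun a => ⟨a.1.1, a.2⟩, fun a => ⟨⟨a.1, h i a.2⟩, a.2⟩⟩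
  rw [wl, wl, e, den_congr (q2 := sp ep y) fun i hi => ?_]
  rw [sp, sp, Function.update_of_ne (h i (mem_inter.1 hi).2)]

variable (H ep) in
/-- The difference of the two statistics. -/
noncomputable def StatL_F (τ t ρ : ℝ) (m : ℕ) (i0 : G × β) {r : ℕ} (y : G → α → V)
    (act : Finset (Finset (G × β))) (σ : Fin r → Finset (G × β)) : ℝ :=
  (∑ C : Finset (G × β), τ / (1 - t * τ) *
    ind (Acd H (sp ep y) Prod.fst C ∧ C ∉ act ∧ C ⊆ cap σ ∧ i0 ∈ C)) -
  ρ * (ind (i0 ∈ cap σ) * 𝔼 l : G → Bool, 2 * ind (l i0.1 = false) *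
    psi H (wl m ep y l (cap σ)) (sp ep y i0))

lemma StatL_E {θ t τ : ℝ} (ht : t * τ < 1) (ρ : ℝ) (m : ℕ) (g : G) (b0 : β) {r j : ℕ}
    (σ : Fin (r + j) → Finset (G × β)) (y : G → α → V) (z : α → V) :
    (E (t * τ) fun a => StatL_F H ep τ t ρ m (g, b0) (Function.update y g z) a
      (fun l => σ (Fin.castAdd j l)) * ∏ l, awg H θ ep g (Function.update y g z) a (σ l)) =
    ind ((g, b0) ∈ cap fun l => σ (Fin.castAdd j l)) *
      ((∑ C : Finset (G × β), τ * ind (Acd H (sp ep (Function.update y g z)) Prod.fst C ∧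
        (g, b0) ∈ C ∧ C.erase (g, b0) ⊆ cav g σ (univ.map (Fin.castAddEmb j))) *
        ∏ C2 ∈ univ.erase C, (1 - τ * mrk H ep g (coef θ t fun b => univ.filter fun l =>
          (g, b) ∈ σ l) (cav g σ) (Function.update y g z) C2)) -
      𝔼 l : G → Bool, 2 * ind (l g = false) *
        (ρ * psi H (wl m ep y l (cav g σ (univ.map (Fin.castAddEmb j)))) (sl ep z b0) *
          ∏ C, (1 - τ * mrk H ep g (coef θ t fun b => univ.filter fun l => (g, b) ∈ σ l)
            (cav g σ) (Function.update y g z) C))) := by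
  have hc : (cap fun l => σ (Fin.castAdd j l)) = (univ.map (Fin.castAddEmb j)).inf σ := by
    rw [inf_map]; rfl
  have h1 : 1 - t * τ ≠ 0 := (sub_pos.2 ht).ne'
  simp only [StatL_F, sub_mul, sum_mul]
  rw [E_sub, E_sum, mul_sub, mul_sum]
  congr 1
  · refine sum_congr rfl fun C _ => ?_
    have e : ∀ a : Finset (Finset (G × β)), ind (Acd H (sp ep (Function.update y g z)) Prod.fst C ∧
        C ∉ a ∧ C ⊆ (cap fun l => σ (Fin.castAdd j l)) ∧ (g, b0) ∈ C) =
        ind ((g, b0) ∈ cap fun l => σ (Fin.castAdd j l)) *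
          ind (Acd H (sp ep (Function.update y g z)) Prod.fst C ∧ (g, b0) ∈ C ∧
            C.erase (g, b0) ⊆ cav g σ (univ.map (Fin.castAddEmb j))) * ind (C ∉ a) := fun a => by
      rw [← ind_and, ← ind_and, hc]
      refine ind_congr ⟨fun k => ⟨⟨k.2.2.1 k.2.2.2, k.1, k.2.2.2, fun i hi => ?_⟩, k.2.1⟩,
        fun k => ⟨k.1.2.1, k.2, fun i hi => ?_, k.1.2.2.1⟩⟩
      · rw [mem_erase] at hi
        exact mem_filter.2 ⟨k.2.2.1 hi.2, fun e => hi.1 (k.1.2.2 hi.2 k.2.2.2 e)⟩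
      · by_cases e : i = (g, b0)
        · exact e ▸ k.1.1
        · exact (mem_filter.1 (k.1.2.2.2 (mem_erase.2 ⟨e, hi⟩))).1
    simp only [e, mul_assoc]
    rw [E_const_mul, E_const_mul, E_const_mul, marks_not]
    generalize 1 - t * τ = s at h1 ⊢
    field_simp
  · rw [E_const_mul, marks, mul_comm ρ, mul_assoc, mul_assoc, expect_mul]
    refine congrArg _ (expect_congr rfl fun l _ => ?_)
    by_cases hl : l g = false
    · rw [StatL_wl m y g z hl, hc, sp, Function.update_self]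
      simp only [cav]
      ring
    · rw [ind_neg hl]
      ring

end det

lemma StatL_one (R : Reg H ep n M τ) (r i : ℕ) {θ ε : ℝ} (h0 : 0 ≤ θ) (h1 : θ < 1) (hε : 0 < ε) :
    ∀ᶠ m in atTop, ∀ᶠ j in atTop, ∀ (g : Fin (M j)) (b0 : β),
      ∃ err : (Fin (M j) → α → Fin (n j)) → ℝ, (∀ y, 0 ≤ err y) ∧ 𝔼 y, err y ≤ ε ∧
        ∀ t : ℝ, 0 ≤ t → t < 1 → ∀ y (σ : Fin (r + i) → Finset (Fin (M j) × β)),
          |𝔼 z, E (t * τ j) fun a => StatL_F H ep (τ j) t
            (rate H (n j) (M j * Fintype.card β) (τ j)) m (g, b0) (Function.update y g z) a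
              (fun l => σ (Fin.castAdd i l)) *
                ∏ l, awg H θ ep g (Function.update y g z) a (σ l)| ≤ err y := by
  obtain ⟨c, c0, hc⟩ := R.rate_bd
  obtain ⟨C, C0, hC⟩ := xt_pow R 2
  obtain ⟨δ, hδ, hδε⟩ := exists_pos_mul_lt hε (2 * (2 + c + 2 * C + 2 * c ^ 2))
  obtain ⟨ε3, h3, h3ε⟩ := exists_pos_mul_lt (mul_pos hδ hδ) (Fintype.card (Finset (Fin (r + i))))
  obtain ⟨γ1, g1, e1⟩ := lf1 R (Finset (Fin (r + i))) 1 (pow_pos (sub_pos.2 h1) (r + i)) hδ
  obtain ⟨γ2, g2, e2⟩ := lf R (Finset (Fin (r + i))) 1 hδ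
  filter_upwards [outer R (lt_min g1 g2)] with m e3
  filter_upwards [hc, hC, R.t01, e1, e2 (4 * m ^ 2 + 3), e3 ε3 h3] with j hc hC t01 e1 e2 e3 g b0
  obtain ⟨er1, a1, b1, e1⟩ := e1 g
  obtain ⟨er2, a2, b2, e2⟩ := e2 g (CI (Fin (n j)) m) (fun ω z => psi H (ck m ω) (sl ep z b0))
    (by
      have k := card_CI (V := Fin (n j)) m
      have k0 : (0 : ℝ) < Fintype.card (CI (Fin (n j)) m) := Nat.cast_pos.2 Fintype.card_pos
      rw [Fintype.card_fin] at k
      exact (Real.log_le_log k0 (by linarith)).trans k)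
    fun ω z => psi_unit H (ck_unit m ω) _
  obtain ⟨er3, a3, b3, e3⟩ := e3
  generalize rate H (n j) (M j * Fintype.card β) (τ j) = ρ at hc e1 e2 ⊢
  refine ⟨fun y => 2 * (er1 y + c * er2 y +
    δ * (𝔼 z, (XT H (τ j) ep g (Function.update y g z) + c) ^ 2) +
      Fintype.card (Finset (Fin (r + i))) * er3 y / δ), fun y => ?_, ?_, fun t t0 t1 y σ => ?_⟩
  · have := a1 y
    have := a2 y
    have := a3 y
    have : 0 ≤ 𝔼 z, (XT H (τ j) ep g (Function.update y g z) + c) ^ 2 :=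
      expect_nonneg fun z _ => sq_nonneg _
    positivity
  · rw [← mul_expect, expect_add_distrib, expect_add_distrib, expect_add_distrib, ← mul_expect,
      ← mul_expect, ← expect_div, ← mul_expect,
      ← ex_update g fun y => (XT H (τ j) ep g y + c) ^ 2]
    have k1 : 𝔼 y : Fin (M j) → α → Fin (n j), (XT H (τ j) ep g y + c) ^ 2 ≤
        𝔼 y : Fin (M j) → α → Fin (n j), (2 * XT H (τ j) ep g y ^ 2 + 2 * c ^ 2) :=
      ex_mono fun y => by nlinarith only [sq_nonneg (XT H (τ j) ep g y - c)]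
    rw [expect_add_distrib, ← mul_expect] at k1
    have k2 : 𝔼 _y : Fin (M j) → α → Fin (n j), 2 * c ^ 2 ≤ 2 * c ^ 2 :=
      ex_le (by positivity) fun _ => le_rfl
    have k3 : Fintype.card (Finset (Fin (r + i))) * (𝔼 y, er3 y) / δ ≤ δ := by
      rw [div_le_iff₀ hδ]
      exact (mul_le_mul_of_nonneg_left b3 (Nat.cast_nonneg _)).trans h3ε.le
    have k4 := mul_le_mul_of_nonneg_left b2 c0
    have k5 := mul_le_mul_of_nonneg_left (k1.trans (add_le_add
      (mul_le_mul_of_nonneg_left (hC g) zero_le_two) k2)) hδ.le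
    linarith only [hδε, b1, k3, k4, k5]
  have ht : t * τ j < 1 := (mul_le_of_le_one_right t0 t01.2).trans_lt t1
  have hu : ∀ l T, Unit01 (wl m ep y l T) := fun l T => ck_unit m _
  have hP := fun z => StatL_mrk (H := H) (ep := ep) h0 h1 t0 t1.le t01.1 t01.2 g
    (fun b => univ.filter fun l => (g, b) ∈ σ l) σ (Function.update y g z)
  simp only [StatL_E ht, ← mul_expect, abs_mul]
  refine (mul_le_of_le_one_left (abs_nonneg _) (by
    rw [abs_of_nonneg (ind_nonneg _)]; exact ind_le_one _)).trans (StatL_key _ _ _ _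
      (fun l => ∃ S ∈ (univ : Finset (Finset (Fin (r + i)))), min γ1 γ2 <
        cut fun e => den (sp ep y) (cav g σ S) e - ord (wl m ep y l (cav g σ S)) e)
      (add_nonneg (a1 y) (mul_nonneg c0 (a2 y))) hδ
      (fun l => by rw [abs_of_nonneg (StatL_two _).1]; exact (StatL_two _).2) (StatL_half g)
      (fun l hl => ?_) (fun l z => ?_) ?_)
  · have k0 : ∀ S, cut (fun e => den (sp ep y) (cav g σ S) e -
        ord (wl m ep y l (cav g σ S)) e) ≤ min γ1 γ2 := fun S =>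
      not_lt.1 fun e => hl ⟨S, mem_univ _, e⟩
    have kη := coef_abs h0 h1 t0 t1.le fun b => univ.filter fun l => (g, b) ∈ σ l
    have kσ := coef_sum h0 h1 t0 t1.le (fun b => univ.filter fun l => (g, b) ∈ σ l) g σ
    have kT : ∀ S, ∀ i ∈ cav g σ S, i.1 ≠ g := fun S i hi => (mem_filter.1 hi).2
    have k1 := e1 y _ (cav g σ) (fun S => wl m ep y l (cav g σ S)) b0
      (univ.map (Fin.castAddEmb i)) kη kσ kT (fun S => hu l _) fun S => (k0 S).trans (min_le_left _ _)
    have k2 := e2 y (best m fun e => 2 * den (sp ep y)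
      (cav g σ (univ.map (Fin.castAddEmb i)) ∩ lay β l true) e) _ (cav g σ)
      (fun S => wl m ep y l (cav g σ S)) kη (fun b C => ⟨(kσ b C).1, (kσ b C).2.trans
        (sub_le_self _ (pow_nonneg (sub_nonneg.2 h1.le) _))⟩) kT (fun S => hu l _)
      fun S => (k0 S).trans (min_le_right _ _)
    have k3 := mul_le_mul hc.2 k2 (abs_nonneg _) c0
    rw [← abs_of_nonneg hc.1, ← abs_mul, abs_of_nonneg hc.1, mul_expect] at k3
    refine le_trans (le_of_eq ?_) ((abs_sub _ _).trans (add_le_add k1 k3))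
    rw [← expect_sub_distrib]
    refine congrArg _ (expect_congr rfl fun z _ => ?_)
    simp only [wl, bk]
    ring
  · have k1 := psi_unit H (hu l (cav g σ (univ.map (Fin.castAddEmb i)))) (sl ep z b0)
    have k2 := mul_nonneg (mul_nonneg hc.1 k1.1) (hP z univ).1
    have k3 := mul_le_mul (mul_le_mul hc.2 k1.2 k1.1 c0) (hP z univ).2 (hP z univ).1
      (mul_nonneg c0 zero_le_one)
    refine (abs_sub _ _).trans (add_le_add ?_ ?_)
    · rw [abs_of_nonneg (sum_nonneg fun C _ =>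
        mul_nonneg (mul_nonneg t01.1 (ind_nonneg _)) (hP z _).1)]
      refine sum_le_sum fun C _ => (mul_le_of_le_one_right (mul_nonneg t01.1 (ind_nonneg _))
        (hP z _).2).trans (mul_le_mul_of_nonneg_left (ind_mono fun k => ⟨k.1, b0, k.2.1⟩) t01.1)
    · rw [abs_of_nonneg k2]
      linarith
  · refine (ex_mono fun l => ind_exists_le _ _).trans ?_
    rw [expect_sum_comm]
    refine (sum_le_sum fun S _ => e3 y _).trans ?_
    rw [sum_const, card_univ, nsmul_eq_mul]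

theorem stat_loc (R : Reg H ep n M τ) {r : ℕ} (hr : 0 < r) {lam θ ε : ℝ} (hl : 0 ≤ lam)
    (h0 : 0 ≤ θ) (h1 : θ < 1) (hε : 0 < ε) : ∀ᶠ m in atTop, ∀ᶠ j in atTop,
    ∀ (t : ℝ) (U : Finset (Fin (M j) × β) → ℝ) (i0 : Fin (M j) × β), 0 ≤ t → t < 1 → Good lam U →
      |EG H θ (t * τ j) ep U r (fun (y : Fin (M j) → α → Fin (n j)) act σ =>
          ∑ C : Finset (Fin (M j) × β), τ j / (1 - t * τ j) *
            ind (Acd H (sp ep y) Prod.fst C ∧ C ∉ act ∧ C ⊆ cap σ ∧ i0 ∈ C)) -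
        rate H (n j) (M j * Fintype.card β) (τ j) *
          EG H θ (t * τ j) ep U r fun (y : Fin (M j) → α → Fin (n j)) _ σ =>
            ind (i0 ∈ cap σ) * 𝔼 l : Fin (M j) → Bool, 2 * ind (l i0.1 = false) *
              psi H (wl m ep y l (cap σ)) (sp ep y i0)| ≤ ε := by
  obtain ⟨c, c0, hc⟩ := R.rate_bd
  obtain ⟨C, C0, hC⟩ := xt_pow R 1
  obtain ⟨e1, h3, h4⟩ := exists_pos_mul_lt (half_pos hε) (C + 2 * c)
  obtain ⟨d, A, A0, hA⟩ := tpm (H := H) ep r hl h0 h1 h3
  obtain ⟨e2, h5, h6⟩ := exists_pos_mul_lt (half_pos hε) (A * (d + 1))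
  filter_upwards [(eventually_all_finset (range (d + 1))).2 fun i _ =>
    StatL_one R r i h0 h1 h5] with m hm
  filter_upwards [hc, hC, R.t01, (eventually_all_finset (range (d + 1))).2 hm]
    with j hc hC t01 hj t U i0 t0 t1 hU
  obtain ⟨g, b0⟩ := i0
  choose! err a b k using fun i hi => hj i hi g b0
  have ht : t * τ j < 1 := (mul_le_of_le_one_right t0 t01.2).trans_lt t1
  have hq : 0 ≤ τ j / (1 - t * τ j) := div_nonneg t01.1 (sub_pos.2 ht).le
  rw [← EG_mul, ← EG_sub]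
  refine (hA (n j) (M j) (t * τ j) g U (StatL_F H ep (τ j) t _ m (g, b0))
    (fun y a => (∑ C : Finset (Fin (M j) × β), τ j / (1 - t * τ j) *
      (ind (Acd H (sp ep y) Prod.fst C ∧ Tch g C) * ind (C ∉ a))) + 2 * c)
    (fun y => ∑ i ∈ range (d + 1), err i y) (mul_nonneg t0 t01.1) ht.le hU
    (fun y => sum_nonneg fun i hi => a i hi y) (fun y a σ => ?_) (fun y a a2 h => ?_)
    fun y i hi σ _ => ?_).trans ?_
  · refine (abs_sub _ _).trans (add_le_add ?_ ?_)
    · rw [abs_of_nonneg (sum_nonneg fun C _ => mul_nonneg hq (ind_nonneg _))]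
      refine sum_le_sum fun C _ => mul_le_mul_of_nonneg_left ?_ hq
      rw [← ind_and]
      exact ind_mono fun k => ⟨⟨k.1, b0, k.2.2.2⟩, k.2.1⟩
    · have k1 := fun l : Fin (M j) → Bool => psi_unit H (show Unit01 (wl m ep y l (cap σ)) from
        ck_unit m _) (sp ep y (g, b0))
      have k2 := expect_nonneg (s := univ) fun (l : Fin (M j) → Bool) _ =>
        mul_nonneg (StatL_two (l g = false)).1 (k1 l).1
      have k3 := ex_le zero_le_two fun l : Fin (M j) → Bool =>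
        (mul_le_of_le_one_right (StatL_two (l g = false)).1 (k1 l).2).trans (StatL_two _).2
      have k4 := mul_nonneg (ind_nonneg ((g, b0) ∈ cap σ)) k2
      rw [abs_of_nonneg (mul_nonneg hc.1 k4), mul_comm 2 c]
      exact mul_le_mul hc.2 ((mul_le_of_le_one_left k2 (ind_le_one _)).trans k3) k4 c0
  · funext σ
    refine congrArg (· - _) (sum_congr rfl fun C _ => congrArg _ (ind_congr ?_))
    exact ⟨fun k => ⟨k.1, fun e => k.2.1 ((h C ⟨b0, k.2.2.2⟩).2 e), k.2.2⟩,
      fun k => ⟨k.1, fun e => k.2.1 ((h C ⟨b0, k.2.2.2⟩).1 e), k.2.2⟩⟩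
  · have hi2 := mem_range.2 (Nat.lt_succ_of_le hi)
    exact (k i hi2 t t0 t1 y σ).trans (single_le_sum (f := fun i => err i y)
      (fun i hi => a i hi y) hi2)
  · have k1 : ∀ y : Fin (M j) → α → Fin (n j), (E (t * τ j) fun a =>
        (∑ C : Finset (Fin (M j) × β), τ j / (1 - t * τ j) *
          (ind (Acd H (sp ep y) Prod.fst C ∧ Tch g C) * ind (C ∉ a))) + 2 * c) =
        XT H (τ j) ep g y ^ 1 + 2 * c := fun y => by
      rw [E_add, E_const, E_sum, pow_one]
      refine congrArg (· + _) (sum_congr rfl fun C _ => ?_)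
      simp only [E_const_mul, ind_not, E_sub, E_const]
      rw [E, Ex_mem]
      have k2 := (sub_pos.2 ht).ne'
      generalize 1 - t * τ j = s at k2 ⊢
      field_simp
    have k2 : 𝔼 _y : Fin (M j) → α → Fin (n j), 2 * c ≤ 2 * c :=
      ex_le (by positivity) fun _ => le_rfl
    have k3 : 𝔼 y, ∑ i ∈ range (d + 1), err i y ≤ (d + 1) * e2 := by
      rw [expect_sum_comm]
      refine (sum_le_sum b).trans ?_
      rw [sum_const, card_range, nsmul_eq_mul, Nat.cast_succ]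
    simp only [k1]
    rw [expect_add_distrib]
    have k4 := mul_le_mul_of_nonneg_left (add_le_add (hC g) k2) h3.le
    have k5 := mul_le_mul_of_nonneg_left k3 A0
    linarith only [h4, h6, k4, k5]

end Pool.Agent.Work.MP_d4a230_co.U
end

-- merged part: Pool.Agent.Work.MP_d4a230_co.U.Stat
section
/-!
The statistics lemma.
PLAN. Every C with Acd has k elements, so k AccR is the sum over i0 of the first terms of stat_loc.
Pick m from stat_loc and outer. For fixed y, T = cap σ, l and w = wl m ep y l T the sum over i0 of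
ind (i0 ∈ T) 2 ind (l i0.1 = false) psi w (sp i0) is N * mean (2 den (T ∩ lay false) * ord (psi w))
(den_ord), within N * cut (2 den (T ∩ lay false) - ord w) of N tH w (psi_cut, tH_psi), and
|tH w - tH wb| <= k cut (ord w - ord wb) (tH_cut). cut_tri, lay_close, outer (on the bad event
cut (den - ord w) <= 2), EG_mono, EG_pos.
-/

namespace Pool.Agent.Work.MP_d4a230_co.U

open Finset Filter Topology Pool.Agent.Work.MP_07f1b5_pr
open scoped BigOperators

variable {α β : Type} [Fintype α] [DecidableEq α] [Fintype β] [DecidableEq β]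
  {W : Type} [Fintype W] [DecidableEq W] {H : SimpleGraph W} [DecidableRel H.Adj]
  {ep : β → α × α} {n M : ℕ → ℕ} {τ : ℕ → ℝ}

section aux

variable {V G : Type} [Fintype V] [DecidableEq V] [Nonempty V] [Fintype G] [DecidableEq G]

lemma Stat_lay (q : G × β → Sym2 V) (T : Finset (G × β)) (l : G → Bool) (u : Sym2 V → ℝ)
    (hN : (Fintype.card (G × β) : ℝ) ≠ 0) :
    ∑ i, ind (i ∈ T) * (2 * ind (l i.1 = false) * u (q i)) = Fintype.card (G × β) *
      𝔼 e, (Fintype.card Bool * den q (T ∩ lay β l false) e) * ord u e := by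
  simp only [mul_assoc]
  rw [← mul_expect, den_ord, Fintype.card_bool, ← sum_ite_mem_eq (T ∩ lay β l false)]
  have : ∀ i, ind (i ∈ T) * (2 * (ind (l i.1 = false) * u (q i))) =
      2 * if i ∈ T ∩ lay β l false then u (q i) else 0 := fun i => by
    by_cases h1 : i ∈ T <;> by_cases h2 : l i.1 = false <;>
      simp [lay, h1, h2, ind_pos, ind_neg]
  simp only [this]
  rw [← mul_sum]
  push_cast
  field_simp

lemma Stat_two (q : G × β → Sym2 V) (T : Finset (G × β)) {w : Sym2 V → ℝ} (hw : Unit01 w) :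
    cut (fun e => den q T e - ord w e) ≤ 2 := by
  refine (cut_le_l1 _).trans ?_
  have h : ∀ e, |den q T e - ord w e| ≤ den q T e + 1 := fun e => by
    have := den_nonneg q T e
    have := hw s(e.1, e.2)
    rw [abs_le]
    unfold ord
    constructor <;> linarith [this.1, this.2]
  refine (ex_mono h).trans ?_
  rw [expect_add_distrib, expect_const univ_nonempty]
  linarith [ex_den_le q T]

omit [Nonempty V] in
lemma Stat_one (hk : 0 < H.edgeFinset.card) (f g : V × V → ℝ) {w u : Sym2 V → ℝ} (hw : Unit01 w)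
    (hu : Unit01 u) : |(𝔼 e, f e * ord (psi H w) e) - tH H u| ≤ cut (fun e => f e - g e) +
      (H.edgeFinset.card + 1) * cut (fun e => g e - ord w e) +
      H.edgeFinset.card * cut fun e => g e - ord u e := by
  have h1 := psi_cut H hw fun e => f e - ord w e
  simp only [sub_mul] at h1
  rw [expect_sub_distrib, tH_psi H hk] at h1
  have h2 := tH_cut H hw hu
  have h3 := cut_tri f g (ord w)
  have h4 := cut_tri (ord w) g (ord u)
  rw [cut_comm (ord w) g] at h4
  have h5 := mul_le_mul_of_nonneg_left h4 (Nat.cast_nonneg (α := ℝ) H.edgeFinset.card)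
  have h6 := abs_sub_le (𝔼 e, f e * ord (psi H w) e) (tH H w) (tH H u)
  linarith only [h1, h2, h3, h5, h6]

lemma Stat_pt [Nonempty G] [Nonempty β] (hk : 0 < H.edgeFinset.card) (q : G × β → Sym2 V)
    (T : Finset (G × β)) (w : (G → Bool) → Sym2 V → ℝ) (hw : ∀ l, Unit01 (w l)) {u : Sym2 V → ℝ}
    (hu : Unit01 u) {δ a : ℝ} (hδ : 0 < δ)
    (h : 2 * ((Fintype.card V : ℝ) + 1) ≤ δ ^ 2 * Fintype.card G)
    (ha : 𝔼 l, ind (δ < cut fun e => den q T e - ord (w l) e) ≤ a) :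
    |(∑ i, ind (i ∈ T) * 𝔼 l : G → Bool, 2 * ind (l i.1 = false) * psi H (w l) (q i)) -
      Fintype.card (G × β) * tH H u| ≤ Fintype.card (G × β) *
        (4 * δ + (H.edgeFinset.card + 1) * (δ + 2 * a) +
          H.edgeFinset.card * cut fun e => den q T e - ord u e) := by
  have hN : (0 : ℝ) < Fintype.card (G × β) := Nat.cast_pos.2 Fintype.card_pos
  simp only [mul_expect]
  rw [← expect_sum_comm]
  simp only [Stat_lay q T _ _ hN.ne']
  rw [← mul_expect, ← mul_sub, abs_mul, abs_of_pos hN]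
  refine mul_le_mul_of_nonneg_left ?_ hN.le
  rw [← expect_const univ_nonempty (tH H u) (s := (univ : Finset (G → Bool))),
    ← expect_sub_distrib]
  refine (ex_abs _).trans ((ex_mono fun l => Stat_one hk _ (den q T) (hw l) hu).trans ?_)
  rw [expect_add_distrib, expect_add_distrib, expect_const univ_nonempty, ← mul_expect]
  have h1 := lay_close q T false hδ h
  have h2 : 𝔼 l, cut (fun e => den q T e - ord (w l) e) ≤ δ + 2 * a := by
    have : ∀ l, cut (fun e => den q T e - ord (w l) e) ≤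
        δ + 2 * ind (δ < cut fun e => den q T e - ord (w l) e) := fun l => by
      by_cases hl : δ < cut fun e => den q T e - ord (w l) e
      · rw [ind_pos hl]
        linarith only [hδ, Stat_two q T (hw l)]
      · rw [ind_neg hl]
        linarith [not_lt.1 hl]
    refine (ex_mono this).trans ?_
    rw [expect_add_distrib, expect_const univ_nonempty, ← mul_expect]
    linarith
  have h3 := mul_le_mul_of_nonneg_left h2 (by positivity : (0 : ℝ) ≤ H.edgeFinset.card + 1)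
  have h4 : (Fintype.card Bool : ℝ) = 2 := by simp
  rw [h4] at h1 ⊢
  linarith

omit [Nonempty V] in
lemma Stat_acc (θ s t : ℝ) (U : Finset (G × β) → ℝ) (r : ℕ) :
    H.edgeFinset.card * AccR H V θ s t ep U r = ∑ i0, EG H θ (t * s) ep U r
      fun (y : G → α → V) act σ => ∑ C : Finset (G × β), s / (1 - t * s) *
        ind (Acd H (sp ep y) Prod.fst C ∧ C ∉ act ∧ C ⊆ cap σ ∧ i0 ∈ C) := by
  rw [← EG_sum, AccR, ← EG_mul]
  refine congrArg _ (funext fun y => funext fun act => funext fun σ => ?_)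
  rw [sum_comm, mul_sum]
  refine sum_congr rfl fun C _ => ?_
  simp only [← and_assoc, ind_and _ (_ ∈ C)]
  rw [← mul_sum, ← mul_sum, P1_sum_mem]
  by_cases hC : (Acd H (sp ep y) Prod.fst C ∧ C ∉ act) ∧ C ⊆ cap σ
  · rw [hC.1.1.2.1]
    ring
  · rw [ind_neg hC]
    ring

end aux

theorem stat (R : Reg H ep n M τ) {r : ℕ} (hr : 0 < r) {lam θ ε : ℝ} (hl : 0 ≤ lam)
    (h0 : 0 ≤ θ) (h1 : θ < 1) (hε : 0 < ε) : ∀ᶠ j in atTop,
    ∀ (t : ℝ) (U : Finset (Fin (M j) × β) → ℝ)
      (wb : (Fin (M j) → α → Fin (n j)) → Finset (Fin (M j) × β) → Sym2 (Fin (n j)) → ℝ),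
      0 ≤ t → t < 1 → Good lam U → (∀ y T, Unit01 (wb y T)) →
      |AccR H (Fin (n j)) θ (τ j) t ep U r -
        rate H (n j) (M j * Fintype.card β) (τ j) * (M j * Fintype.card β : ℕ) /
          H.edgeFinset.card * EG H θ (t * τ j) ep U r fun y _ σ => tH H (wb y (cap σ))| ≤
        ε * (M j * Fintype.card β : ℕ) +
          rate H (n j) (M j * Fintype.card β) (τ j) * (M j * Fintype.card β : ℕ) *
            EG H θ (t * τ j) ep U r fun y _ σ =>
              cut fun e => den (sp ep y) (cap σ) e - ord (wb y (cap σ)) e := by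
  have hk : 0 < H.edgeFinset.card := by
    have := R.bal.h3
    have := R.bal.hk
    omega
  have hk1 : (1 : ℝ) ≤ H.edgeFinset.card := Nat.one_le_cast.2 hk
  obtain ⟨c, hc, hρ⟩ := R.rate_bd
  obtain ⟨δ, hδ, hδε⟩ : ∃ δ : ℝ, 0 < δ ∧
      δ + c * (4 * δ + (H.edgeFinset.card + 1) * (δ + 2 * δ)) = ε := by
    refine ⟨ε / (1 + c * (4 + (H.edgeFinset.card + 1) * 3)), by positivity, ?_⟩
    field_simp
    ring
  obtain ⟨m, hm1, hm2⟩ := ((stat_loc R hr hl h0 h1 hδ).and (outer R hδ)).exists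
  filter_upwards [hm1, hm2 δ hδ, hρ, R.t01, R.pos, R.lin 2 (pow_pos hδ 2)] with j hs
    ⟨err, _, he, hbad⟩ hρ ht hp hlin t U wb t0 t1 hU hwb
  have : Nonempty β := R.nb
  have : Nonempty (Fin (n j)) := ⟨⟨0, hp.1⟩⟩
  have : Nonempty (Fin (M j)) := ⟨⟨0, hp.1.trans_le hp.2⟩⟩
  have s0 : 0 ≤ t * τ j := mul_nonneg t0 ht.1
  have s1 : t * τ j ≤ 1 := mul_le_one₀ t1.le ht.1 ht.2
  have hN : (Fintype.card (Fin (M j) × β) : ℝ) = (M j * Fintype.card β : ℕ) := by
    rw [Fintype.card_prod, Fintype.card_fin]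
  set ρ := rate H (n j) (M j * Fintype.card β) (τ j)
  rw [← hN]
  set N : ℝ := (Fintype.card (Fin (M j) × β) : ℝ) with hN2
  have hN0 : 0 ≤ N := Nat.cast_nonneg _
  have a1 := (abs_sum_le_sum_abs _ _).trans
    (sum_le_sum fun i0 (_ : i0 ∈ univ) => hs t U i0 t0 t1 hU)
  rw [sum_sub_distrib, ← Stat_acc, ← mul_sum, ← EG_sum, sum_const, card_univ, nsmul_eq_mul,
    ← hN2] at a1
  have a2 := (EG_abs (H := H) (ep := ep) (r := r) h0 h1 s0 s1 hU).trans (EG_mono h0 h1 s0 s1 hU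
    fun y _ σ _ => Stat_pt hk (sp ep y) (cap σ) (fun l => wl m ep y l (cap σ))
      (fun l => ck_unit _ _) (hwb y (cap σ)) hδ (by simpa only [Fintype.card_fin] using hlin)
      (hbad y (cap σ)))
  rw [EG_sub, EG_mul, EG_mul, EG_add, EG_mul, EG_pos h0 h1 hU, ← hN2, expect_add_distrib,
    expect_const univ_nonempty, ← mul_expect, expect_add_distrib, expect_const univ_nonempty,
    ← mul_expect] at a2
  set A := AccR H (Fin (n j)) θ (τ j) t ep U r
  set B := EG H θ (t * τ j) ep U r fun y _ σ => tH H (wb y (cap σ))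
  set D := EG H θ (t * τ j) ep U r fun y _ σ =>
    cut fun e => den (sp ep y) (cap σ) e - ord (wb y (cap σ)) e
  set S := EG H θ (t * τ j) ep U r fun (y : Fin (M j) → α → Fin (n j)) _ σ =>
    ∑ i, ind (i ∈ cap σ) * 𝔼 l : Fin (M j) → Bool,
      2 * ind (l i.1 = false) * psi H (wl m ep y l (cap σ)) (sp ep y i)
  set k : ℝ := (H.edgeFinset.card : ℝ)
  have k0 : 0 < k := by linarith only [hk1]
  have e1 : A - ρ * N / k * B = (k * A - ρ * S + ρ * (S - N * B)) / k := by
    field_simp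
    ring
  rw [e1, abs_div, abs_of_pos k0, div_le_iff₀ k0]
  refine (abs_add_le _ _).trans ?_
  rw [abs_mul ρ, abs_of_nonneg hρ.1]
  have a3 : 4 * δ + (k + 1) * (δ + 2 * 𝔼 y, err y) ≤ 4 * δ + (k + 1) * (δ + 2 * δ) := by
    gcongr
  have a4 := mul_le_mul_of_nonneg_left (a2.trans (mul_le_mul_of_nonneg_left
    (add_le_add_left a3 (k * D)) hN0)) hρ.1
  have a5 : ρ * (N * (4 * δ + (k + 1) * (δ + 2 * δ))) ≤
      c * (N * (4 * δ + (k + 1) * (δ + 2 * δ))) :=
    mul_le_mul_of_nonneg_right hρ.2 (by positivity)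
  have a6 : ε * N * 1 ≤ ε * N * k := mul_le_mul_of_nonneg_left hk1 (by positivity)
  have a7 : ε * N = N * δ + c * (N * (4 * δ + (k + 1) * (δ + 2 * δ))) := by
    rw [← hδε]
    ring
  linarith only [a1, a4, a5, a6, a7]

end Pool.Agent.Work.MP_d4a230_co.U
end

-- merged part: Pool.Agent.Work.MP_d4a230_co.U.Interp
section
/-!
The interpolation between accidental and virtual constraints.
PLAN. fi_deriv: russo twice (outer p = π, q = -π; inner p = 0, q = τ, for each y; HasDerivAt of the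
finite average over y). For a constraint c, f (insert c A) - f (A.erase c) = log (1 - θ x) with x the
one-replica average of the indicator in the system A.erase c (log_ins), log_series, x^(r+1) =
gib (r+1) (ind (. ⊆ cap σ)) (gib_prod, ind_cap). Accidental terms: Ex_erase turns them into AccR.
Virtual terms: Ex_erase_close, error π c * π c <= pm π c per c and r, sum_coef_le. FI is
differentiable everywhere (hence continuous). fi_le, fi_ge: mean value inequality
(exists_hasDerivAt_eq_slope on [0,1]). fi_mvt: exists_hasDerivAt_eq_slope on [0, 1-η] and [1-η, 1]: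
FI (1-η) <= FI 0 + e, so at some t ∈ (1-η, 1) the derivative is >= -(g + e)/η; all other terms of the
series are >= -δ times their coefficient.
-/

namespace Pool.Agent.Work.MP_d4a230_co.U

open Finset Filter Topology Pool.Agent.Work.MP_07f1b5_pr
open scoped BigOperators


variable {V G α β X : Type} [Fintype V] [DecidableEq V] [Nonempty V] [Fintype G] [DecidableEq G]
  [Fintype α] [DecidableEq α] [Fintype β] [DecidableEq β] [Fintype X] [DecidableEq X]
  {W : Type} [Fintype W] [DecidableEq W] {H : SimpleGraph W} [DecidableRel H.Adj]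
  {lam θ τ A pm : ℝ} {ep : β → α × α} {π : X → ℝ} {sup : X → Finset (G × β)}

/-- Hypotheses of the interpolation. -/
structure IH (H : SimpleGraph W) [DecidableRel H.Adj] (V : Type) [Fintype V] [DecidableEq V]
    (G : Type) [Fintype G] [DecidableEq G] (lam θ τ A pm : ℝ) (ep : β → α × α) (π : X → ℝ) :
    Prop where
  hl : 0 ≤ lam
  h0 : 0 ≤ θ
  h1 : θ < 1
  t0 : 0 ≤ τ
  t1 : τ ≤ 1
  p0 : ∀ c, 0 ≤ π c
  p1 : ∀ c, π c ≤ 1
  pm : ∀ c, π c ≤ pm
  hA : (𝔼 y : G → α → V, ∑ C : Finset (G × β), τ * ind (Acd H (sp ep y) Prod.fst C)) ≤ A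

/-- Error of the truncated series. -/
noncomputable def ierr (θ A pm : ℝ) (π : X → ℝ) (R : ℕ) : ℝ :=
  (θ ^ (R + 1) * (A + ∑ c, π c) + pm * ∑ c, π c) / (1 - θ)

lemma Interp_Ex {ι : Type} [Fintype ι] [DecidableEq ι] {p : ι → ℝ} (hp : Adm p)
    {f : Finset ι → ℝ} {g : ℕ → Finset ι → ℝ} {c : ℕ → ℝ} {R : ℕ} {b : ℝ}
    (h : ∀ ω, |f ω + ∑ r ∈ range R, c r * g r ω| ≤ b) :
    |Ex p f + ∑ r ∈ range R, c r * Ex p (g r)| ≤ b := by
  have e : Ex p f + ∑ r ∈ range R, c r * Ex p (g r) =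
      Ex p fun ω => f ω + ∑ r ∈ range R, c r * g r ω := by
    simp only [Ex_add, Ex_sum, Ex_const_mul]
  rw [e]
  exact (Ex_abs hp _).trans ((Ex_mono hp h).trans (Ex_const p b).le)

lemma Interp_ex {Y : Type} [Fintype Y] {f b : Y → ℝ} {g : ℕ → Y → ℝ} {c : ℕ → ℝ} {R : ℕ}
    (h : ∀ y, |f y + ∑ r ∈ range R, c r * g r y| ≤ b y) :
    |(𝔼 y, f y) + ∑ r ∈ range R, c r * 𝔼 y, g r y| ≤ 𝔼 y, b y := by
  have e : (𝔼 y, f y) + ∑ r ∈ range R, c r * 𝔼 y, g r y =
      𝔼 y, (f y + ∑ r ∈ range R, c r * g r y) := by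
    simp only [expect_add_distrib, expect_sum_comm, mul_expect]
  rw [e]
  exact (ex_abs _).trans (ex_mono h)

lemma Interp_sum {Y : Type} [Fintype Y] {a f b : Y → ℝ} {g : ℕ → Y → ℝ} {c : ℕ → ℝ} {R : ℕ}
    (ha : ∀ y, 0 ≤ a y) (h : ∀ y, |f y + ∑ r ∈ range R, c r * g r y| ≤ b y) :
    |∑ y, a y * f y + ∑ r ∈ range R, c r * ∑ y, a y * g r y| ≤ ∑ y, a y * b y := by
  have e : ∑ y, a y * f y + ∑ r ∈ range R, c r * ∑ y, a y * g r y =
      ∑ y, a y * (f y + ∑ r ∈ range R, c r * g r y) := by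
    simp only [mul_add, sum_add_distrib, mul_sum]
    rw [sum_comm]
    simp only [mul_left_comm]
  rw [e]
  refine (abs_sum_le_sum_abs _ _).trans (sum_le_sum fun y _ => ?_)
  rw [abs_mul, abs_of_nonneg (ha y)]
  exact mul_le_mul_of_nonneg_left (h y) (ha y)

/-- One constraint with support `C`, present only if `q` holds. -/
lemma Interp_step {I : Type} [Fintype I] [DecidableEq I] (h0 : 0 ≤ θ) (h1 : θ < 1)
    {w : Finset I → ℝ} (hw : ∀ σ, 0 ≤ w σ) (hZ : 0 < ∑ σ, w σ) (q : Prop) (C : Finset I) (R : ℕ) :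
    |Real.log (∑ σ, w σ * (1 - θ * ind (q ∧ C ⊆ σ))) - Real.log (∑ σ, w σ) +
      ∑ r ∈ range R, θ ^ (r + 1) / (r + 1) * (ind q * gib (r + 1) w fun σ => ind (C ⊆ cap σ))| ≤
      ind q * (θ ^ (R + 1) / (1 - θ)) := by
  by_cases hq : q
  · simp only [ind_and, ind_pos hq, one_mul, ind_cap]
    rw [log_ins h0 h1 hw hZ fun σ => ⟨ind_nonneg _, ind_le_one _⟩]
    simp only [gib_prod w fun σ => ind (C ⊆ σ)]
    refine log_series h0 h1 (div_nonneg (sum_nonneg fun σ _ => mul_nonneg (hw σ) (ind_nonneg _))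
      hZ.le) ?_ R
    rw [div_le_one hZ]
    exact sum_le_sum fun σ _ => mul_le_of_le_one_right (hw σ) (ind_le_one _)
  · simp [ind_and, ind_neg hq]

lemma Interp_ins {κ : Type} [DecidableEq κ] (f : κ → ℝ) (c : κ) (s : Finset κ) :
    ∏ x ∈ insert c s, f x = (∏ x ∈ s.erase c, f x) * f c := by
  rw [← prod_erase_mul _ _ (mem_insert_self c s), erase_insert_eq_erase]

variable (H V) in
/-- Derivative of the free energy in the intensity of the accidental constraints. -/
noncomputable def Interp_dA (θ τ : ℝ) (ep : β → α × α) (U : Finset (G × β) → ℝ) (t : ℝ) : ℝ :=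
  𝔼 y : G → α → V, ∑ C : Finset (G × β), τ * E (t * τ) fun act =>
    Real.log (∑ σ, Wt H θ ep U y (insert C act) σ) - Real.log (∑ σ, Wt H θ ep U y (act.erase C) σ)

lemma Interp_dFE (U : Finset (G × β) → ℝ) (t : ℝ) :
    HasDerivAt (fun s => FE H V θ (s * τ) ep U) (Interp_dA V H θ τ ep U t) t := by
  unfold FE Interp_dA
  simp only [expect_eq_sum_div_card]
  refine HasDerivAt.div_const (HasDerivAt.fun_sum fun y _ => ?_) _
  have := russo (fun _ : Finset (G × β) => (0 : ℝ)) (fun _ => τ)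
    (fun _ act => Real.log (∑ σ, Wt H θ ep U y act σ)) (fun _ => 0) t
    fun _ => hasDerivAt_const _ _
  simp only [zero_add, Ex_const, add_zero] at this
  exact this

lemma Interp_dFI (t : ℝ) : HasDerivAt (FI H V lam θ τ ep π sup)
    (-(∑ c, π c * Ex (fun c => (1 - t) * π c) fun B =>
        FE H V θ (t * τ) ep (UV lam θ sup (insert c B)) -
          FE H V θ (t * τ) ep (UV lam θ sup (B.erase c))) +
      Ex (fun c => (1 - t) * π c) fun B => Interp_dA V H θ τ ep (UV lam θ sup B) t) t := by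
  have := russo π (fun c => -π c) (fun s B => FE H V θ (s * τ) ep (UV lam θ sup B))
    (fun B => Interp_dA V H θ τ ep (UV lam θ sup B) t) t fun B => Interp_dFE _ t
  have e : ∀ s : ℝ, (fun c => π c + s * -π c) = fun c => (1 - s) * π c :=
    fun s => funext fun c => by ring
  simp only [e, neg_mul, sum_neg_distrib] at this
  exact this

lemma Interp_AccR {t : ℝ} (ht : t * τ ≠ 1) (U : Finset (G × β) → ℝ) (r : ℕ) :
    AccR H V θ τ t ep U r = 𝔼 y : G → α → V, ∑ C : Finset (G × β), τ * E (t * τ) fun act =>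
      ind (Acd H (sp ep y) Prod.fst C) *
        gib r (Wt H θ ep U y (act.erase C)) fun σ => ind (C ⊆ cap σ) := by
  unfold AccR EG
  refine expect_congr rfl fun y _ => ?_
  simp only [gib_sum, E_sum, ind_and, gib_mul, E_const_mul]
  refine sum_congr rfl fun C _ => ?_
  have h := Ex_erase (fun _ : Finset (G × β) => t * τ) C fun act =>
    gib r (Wt H θ ep U y act) fun σ => ind (C ⊆ cap σ)
  have h2 : 1 - t * τ ≠ 0 := sub_ne_zero.2 ht.symm
  unfold E
  rw [← h, mul_left_comm (τ / _), ← mul_assoc (τ / _), div_mul_cancel₀ _ h2, mul_left_comm]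

lemma Interp_acc (h : IH H V G lam θ τ A pm ep π) {t : ℝ} (t0 : 0 < t) (t1 : t < 1)
    {U : Finset (G × β) → ℝ} (hU : Good lam U) (R : ℕ) :
    |Interp_dA V H θ τ ep U t + ∑ r ∈ range R, θ ^ (r + 1) / (r + 1) *
      AccR H V θ τ t ep U (r + 1)| ≤ A * (θ ^ (R + 1) / (1 - θ)) := by
  have a0 : 0 ≤ t * τ := mul_nonneg t0.le h.t0
  have a1 : t * τ < 1 := (mul_le_of_le_one_right t0.le h.t1).trans_lt t1
  have hb : 0 ≤ θ ^ (R + 1) / (1 - θ) := div_nonneg (pow_nonneg h.h0 _) (sub_pos.2 h.h1).le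
  simp only [Interp_AccR a1.ne]
  unfold Interp_dA
  refine (Interp_ex (b := fun y => ∑ C : Finset (G × β),
    τ * (ind (Acd H (sp ep y) Prod.fst C) * (θ ^ (R + 1) / (1 - θ)))) fun y => ?_).trans ?_
  · refine Interp_sum (fun _ => h.t0) fun C => Interp_Ex (fun _ => ⟨a0, a1.le⟩) fun act => ?_
    have e : ∀ σ, Wt H θ ep U y (insert C act) σ = Wt H θ ep U y (act.erase C) σ *
        (1 - θ * ind (Acd H (sp ep y) Prod.fst C ∧ C ⊆ σ)) := fun σ => by
      unfold Wt aw
      rw [Interp_ins, mul_assoc]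
    simp only [e]
    exact Interp_step h.h0 h.h1 (Wt_nonneg h.h0 h.h1 ep hU y _) (Wt_sum_pos h.h0 h.h1 ep hU y _)
      _ C R
  · simp only [← mul_assoc, ← sum_mul, ← expect_mul]
    exact mul_le_mul_of_nonneg_right h.hA hb

lemma Interp_vir (h : IH H V G lam θ τ A pm ep π) {s : ℝ} (s0 : 0 ≤ s) (s1 : s ≤ 1) (c : X)
    (B : Finset X) (R : ℕ) :
    |FE H V θ s ep (UV lam θ sup (insert c B)) - FE H V θ s ep (UV lam θ sup (B.erase c)) +
      ∑ r ∈ range R, θ ^ (r + 1) / (r + 1) * EG H θ s ep (UV lam θ sup (B.erase c)) (r + 1)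
        fun (_ : G → α → V) _ σ => ind (sup c ⊆ cap σ)| ≤ θ ^ (R + 1) / (1 - θ) := by
  have hb : 0 ≤ θ ^ (R + 1) / (1 - θ) := div_nonneg (pow_nonneg h.h0 _) (sub_pos.2 h.h1).le
  have hU := good_UV h.hl h.h0 h.h1 sup (B.erase c)
  unfold FE LZ EG
  rw [← expect_sub_distrib]
  refine (Interp_ex (b := fun _ => θ ^ (R + 1) / (1 - θ)) fun y => ?_).trans
    (ex_le hb fun _ => le_rfl)
  rw [← E_sub]
  refine Interp_Ex (fun _ => ⟨s0, s1⟩) fun act => ?_
  have e : ∀ σ : Finset (G × β), UV lam θ sup (insert c B) σ * aw H θ (sp ep y) Prod.fst act σ =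
      Wt H θ ep (UV lam θ sup (B.erase c)) y act σ * (1 - θ * ind (True ∧ sup c ⊆ σ)) := fun σ => by
    unfold Wt UV cw
    rw [Interp_ins, true_and]
    ring
  have := Interp_step h.h0 h.h1 (Wt_nonneg (H := H) h.h0 h.h1 ep hU y act)
    (Wt_sum_pos h.h0 h.h1 ep hU y act) True (sup c) R
  simp only [ind_pos trivial, one_mul] at this
  simp only [e]
  exact this

lemma Interp_vir2 (h : IH H V G lam θ τ A pm ep π) {t : ℝ} (t0 : 0 < t) (t1 : t < 1) (c : X)
    (R : ℕ) :
    |(Ex (fun c => (1 - t) * π c) fun B => FE H V θ (t * τ) ep (UV lam θ sup (insert c B)) -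
        FE H V θ (t * τ) ep (UV lam θ sup (B.erase c))) +
      ∑ r ∈ range R, θ ^ (r + 1) / (r + 1) * Ex (fun c => (1 - t) * π c) fun B =>
        EG H θ (t * τ) ep (UV lam θ sup B) (r + 1)
          fun (_ : G → α → V) _ σ => ind (sup c ⊆ cap σ)| ≤ (θ ^ (R + 1) + pm) / (1 - θ) := by
  have a0 : 0 ≤ t * τ := mul_nonneg t0.le h.t0
  have a1 : t * τ ≤ 1 := (mul_le_of_le_one_right t0.le h.t1).trans t1.le
  have b1 : ∀ c, (1 - t) * π c ≤ π c := fun c => mul_le_of_le_one_left (h.p0 c) (by linarith)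
  have hp : Adm fun c => (1 - t) * π c := fun c =>
    ⟨mul_nonneg (by linarith) (h.p0 c), (b1 c).trans (h.p1 c)⟩
  have k1 := Interp_Ex hp fun B => Interp_vir (sup := sup) h a0 a1 c B R
  have k2 : ∀ r : ℕ, |(Ex (fun c => (1 - t) * π c) fun B =>
      EG H θ (t * τ) ep (UV lam θ sup (B.erase c)) r
        fun (_ : G → α → V) _ σ => ind (sup c ⊆ cap σ)) - Ex (fun c => (1 - t) * π c) fun B =>
      EG H θ (t * τ) ep (UV lam θ sup B) r
        fun (_ : G → α → V) _ σ => ind (sup c ⊆ cap σ)| ≤ pm := fun r => by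
    refine (Ex_erase_close hp c (fun B => EG H θ (t * τ) ep (UV lam θ sup B) r
      fun (_ : G → α → V) _ σ => ind (sup c ⊆ cap σ)) (b := 1) fun B => ?_).trans
      (by rw [one_mul]; exact (b1 c).trans (h.pm c))
    have hU := good_UV h.hl h.h0 h.h1 sup B
    have e : ∀ x : ℝ, EG H θ (t * τ) ep (UV lam θ sup B) r (fun (_ : G → α → V) _ _ => x) = x :=
      fun x => by rw [EG_pos h.h0 h.h1 hU fun _ => x, expect_const univ_nonempty]
    exact ⟨(e 0).ge.trans (EG_mono h.h0 h.h1 a0 a1 hU fun _ _ _ _ => ind_nonneg _),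
      (EG_mono h.h0 h.h1 a0 a1 hU fun _ _ _ _ => ind_le_one _).trans (e 1).le⟩
  have hc : ∀ r : ℕ, 0 ≤ θ ^ (r + 1) / (r + 1) := fun r =>
    div_nonneg (pow_nonneg h.h0 _) (by positivity)
  have k3 := sum_le_sum fun r (_ : r ∈ range R) =>
    mul_le_mul_of_nonneg_left (abs_le.1 (k2 (r + 1))).1 (hc r)
  have k5 := sum_le_sum fun r (_ : r ∈ range R) =>
    mul_le_mul_of_nonneg_left (abs_le.1 (k2 (r + 1))).2 (hc r)
  obtain ⟨c1, c2⟩ := sum_coef_le h.h0 h.h1 R
  have k4 := mul_le_mul_of_nonneg_right (c1.trans c2) ((h.p0 c).trans (h.pm c))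
  simp only [mul_sub, sum_sub_distrib, mul_neg, sum_neg_distrib] at k3 k5
  rw [sum_mul] at k4
  rw [add_div, div_eq_mul_one_div pm, mul_comm pm]
  rw [abs_le] at k1 ⊢
  constructor <;> linarith only [k1, k4, k5, k3, k1.1, k1.2]

theorem fi_zero : FI H V lam θ τ ep π sup 0 = FV θ π sup (fug lam) := by
  unfold FI FV FE LZ E UV
  simp only [sub_zero, one_mul, zero_mul]
  refine congrArg _ (funext fun B => ?_)
  simp only [Ex_zero (p := fun _ : Finset (G × β) => (0 : ℝ)) fun _ => rfl, aw, prod_empty, mul_one]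
  exact expect_const univ_nonempty _

theorem fi_one : FI H V lam θ τ ep π sup 1 = FE H V θ τ ep (fug lam : Finset (G × β) → ℝ) := by
  unfold FI
  rw [Ex_zero fun c => by simp, one_mul]
  refine congrArg _ (funext fun σ => ?_)
  simp only [UV, cw, prod_empty, mul_one]

theorem fi_cont : Continuous (FI H V lam θ τ ep π sup) :=
  continuous_iff_continuousAt.2 fun t => (Interp_dFI t).continuousAt

theorem fi_deriv (h : IH H V G lam θ τ A pm ep π) {t : ℝ} (t0 : 0 < t) (t1 : t < 1) :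
    ∃ D : ℝ, HasDerivAt (FI H V lam θ τ ep π sup) D t ∧ ∀ R : ℕ,
      |D + ∑ r ∈ range R, θ ^ (r + 1) / (r + 1) * DR H V lam θ τ ep π sup t (r + 1)| ≤
        ierr θ A pm π R := by
  refine ⟨_, Interp_dFI t, fun R => ?_⟩
  have hp : Adm fun c => (1 - t) * π c := fun c =>
    ⟨mul_nonneg (by linarith) (h.p0 c),
      (mul_le_of_le_one_left (h.p0 c) (by linarith)).trans (h.p1 c)⟩
  have k1 := Interp_Ex hp fun B => Interp_acc h t0 t1 (good_UV h.hl h.h0 h.h1 sup B) R
  have k2 := Interp_sum h.p0 fun c => Interp_vir2 (sup := sup) h t0 t1 c R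
  have e : ierr θ A pm π R =
      A * (θ ^ (R + 1) / (1 - θ)) + ∑ c, π c * ((θ ^ (R + 1) + pm) / (1 - θ)) := by
    rw [← sum_mul, ierr]
    ring
  unfold DR
  simp only [Ex_sub, EG_sum, EG_mul, Ex_sum, Ex_const_mul, mul_sub, sum_sub_distrib] at k1 k2 ⊢
  rw [e]
  rw [abs_le] at k1 k2 ⊢
  constructor <;> linarith only [k1, k2, k1.1, k1.2, k2.1, k2.2]

lemma Interp_mvt (h : IH H V G lam θ τ A pm ep π) {s s2 : ℝ} (s0 : 0 ≤ s) (hs : s < s2)
    (s1 : s2 ≤ 1) : ∃ t D : ℝ, s < t ∧ t < s2 ∧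
      FI H V lam θ τ ep π sup s2 - FI H V lam θ τ ep π sup s = D * (s2 - s) ∧ ∀ R : ℕ,
      |D + ∑ r ∈ range R, θ ^ (r + 1) / (r + 1) * DR H V lam θ τ ep π sup t (r + 1)| ≤
        ierr θ A pm π R := by
  obtain ⟨t, ⟨ht1, ht2⟩, ht⟩ := exists_hasDerivAt_eq_slope (FI H V lam θ τ ep π sup) _ hs
    fi_cont.continuousOn fun t _ => Interp_dFI t
  obtain ⟨D, hD, hR⟩ := fi_deriv (sup := sup) h (s0.trans_lt ht1) (ht2.trans_le s1)
  refine ⟨t, D, ht1, ht2, ?_, hR⟩
  rw [hD.unique (Interp_dFI t), ht, div_mul_cancel₀ _ (sub_pos.2 hs).ne']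

lemma Interp_coef (h0 : 0 ≤ θ) (h1 : θ < 1) (R : ℕ) {δ : ℝ} (hδ : 0 ≤ δ) :
    ∑ r ∈ range R, θ ^ (r + 1) / (r + 1) * δ ≤ δ / (1 - θ) := by
  obtain ⟨c1, c2⟩ := sum_coef_le h0 h1 R
  rw [← sum_mul, div_eq_mul_one_div δ, mul_comm δ]
  exact mul_le_mul_of_nonneg_right (c1.trans c2) hδ

lemma Interp_err (h : IH H V G lam θ τ A pm ep π) (sup : X → Finset (G × β)) (R : ℕ) {δ : ℝ}
    (hδ : 0 ≤ δ) : 0 ≤ δ / (1 - θ) + ierr θ A pm π R := by
  obtain ⟨D, -, hR⟩ := fi_deriv (sup := sup) h (t := 1 / 2) (by norm_num) (by norm_num)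
  exact add_nonneg (div_nonneg hδ (sub_pos.2 h.h1).le) ((abs_nonneg _).trans (hR R))

theorem fi_le (h : IH H V G lam θ τ A pm ep π) (R : ℕ) {δ : ℝ} (hδ : 0 ≤ δ)
    (hD : ∀ t, 0 < t → t < 1 → ∀ r < R, -δ ≤ DR H V lam θ τ ep π sup t (r + 1)) {s : ℝ}
    (s0 : 0 ≤ s) {s2 : ℝ} (hs : s ≤ s2) (s1 : s2 ≤ 1) :
    FI H V lam θ τ ep π sup s2 ≤ FI H V lam θ τ ep π sup s + (δ / (1 - θ) + ierr θ A pm π R) := by
  have he := Interp_err h sup R hδ
  rcases hs.eq_or_lt with rfl | hs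
  · linarith only [he]
  obtain ⟨t, D, ht1, ht2, e, hR⟩ := Interp_mvt (sup := sup) h s0 hs s1
  have k1 := (abs_le.1 (hR R)).2
  have k2 := Interp_coef h.h0 h.h1 R hδ
  have k3 := sum_le_sum fun r (hr : r ∈ range R) => mul_le_mul_of_nonneg_left
    (hD t (s0.trans_lt ht1) (ht2.trans_le s1) r (mem_range.1 hr))
    (show 0 ≤ θ ^ (r + 1) / ((r : ℝ) + 1) from div_nonneg (pow_nonneg h.h0 _) (by positivity))
  simp only [mul_neg, sum_neg_distrib] at k3
  have k4 : D ≤ δ / (1 - θ) + ierr θ A pm π R := by linarith only [k1, k2, k3]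
  have k5 := mul_le_mul_of_nonneg_right k4 (sub_pos.2 hs).le
  have k6 := mul_le_of_le_one_right he (show s2 - s ≤ 1 by linarith only [s0, s1])
  linarith only [e, k5, k6]

theorem fi_ge (h : IH H V G lam θ τ A pm ep π) (R : ℕ) {δ : ℝ} (hδ : 0 ≤ δ)
    (hD : ∀ t, 0 < t → t < 1 → ∀ r < R, DR H V lam θ τ ep π sup t (r + 1) ≤ δ) :
    FI H V lam θ τ ep π sup 0 - (δ / (1 - θ) + ierr θ A pm π R) ≤ FI H V lam θ τ ep π sup 1 := by
  obtain ⟨t, D, ht1, ht2, e, hR⟩ := Interp_mvt (sup := sup) h le_rfl one_pos le_rfl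
  have k1 := (abs_le.1 (hR R)).1
  have k2 := Interp_coef h.h0 h.h1 R hδ
  have k3 := sum_le_sum fun r (hr : r ∈ range R) => mul_le_mul_of_nonneg_left
    (hD t ht1 ht2 r (mem_range.1 hr))
    (show 0 ≤ θ ^ (r + 1) / ((r : ℝ) + 1) from div_nonneg (pow_nonneg h.h0 _) (by positivity))
  linarith only [e, k1, k2, k3]

theorem fi_mvt (h : IH H V G lam θ τ A pm ep π) {R : ℕ} (hR : 0 < R) {δ g η : ℝ} (hδ : 0 ≤ δ)
    (hg : 0 ≤ g) (hη : 0 < η) (hη1 : η ≤ 1)
    (hD : ∀ t, 0 < t → t < 1 → ∀ r < R, -δ ≤ DR H V lam θ τ ep π sup t (r + 1))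
    (hge : FI H V lam θ τ ep π sup 0 - g ≤ FI H V lam θ τ ep π sup 1) :
    ∃ t, 1 - η < t ∧ 0 < t ∧ t < 1 ∧ θ * DR H V lam θ τ ep π sup t 1 ≤
      (g + 2 * (δ / (1 - θ) + ierr θ A pm π R)) / η := by
  have he := Interp_err h sup R hδ
  have b0 : 0 ≤ 1 - η := by linarith only [hη1]
  have k0 := fi_le (sup := sup) h R hδ hD le_rfl b0 (by linarith)
  obtain ⟨t, D, ht1, ht2, e, hR'⟩ := Interp_mvt (sup := sup) h b0 (by linarith : 1 - η < 1) le_rfl
  refine ⟨t, ht1, b0.trans_lt ht1, ht2, ?_⟩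
  have k1 := (abs_le.1 (hR' R)).2
  have k2 := Interp_coef h.h0 h.h1 R hδ
  have k3 := single_le_sum (f := fun r : ℕ => θ ^ (r + 1) / ((r : ℝ) + 1) *
      (DR H V lam θ τ ep π sup t (r + 1) + δ)) (fun r (hr : r ∈ range R) => mul_nonneg
    (div_nonneg (pow_nonneg h.h0 _) (by positivity))
    (by linarith only [b0, ht1, ht2, hD t (b0.trans_lt ht1) ht2 r (mem_range.1 hr)])) (mem_range.2 hR)
  simp only [mul_add, sum_add_distrib, zero_add, pow_one, Nat.cast_zero, div_one] at k3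
  have k4 := mul_nonneg h.h0 hδ
  have k5 : θ * DR H V lam θ τ ep π sup t 1 ≤ (δ / (1 - θ) + ierr θ A pm π R) - D := by linarith only [k1, k2, k3, k4]
  have k6 := mul_le_mul_of_nonneg_right k5 hη.le
  have k7 := mul_le_of_le_one_right he hη1
  rw [le_div_iff₀ hη]
  have e2 : D * (1 - (1 - η)) = D * η := by ring
  nlinarith only [hge, k0, e, k6, k7]

end Pool.Agent.Work.MP_d4a230_co.U
end

-- merged part: Pool.Agent.Work.MP_d4a230_co.U.Gad
section
/-!
Gadget lemma: accidental constraints against internal constraints.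
PLAN. X = Fin M × Finset β, sup (g, C) = C.image (g, .), probabilities π C. fi_ge, fi_zero, fi_one,
fv_prod. It suffices to show DR t (r+1) <= (ε1 + ε2) N. For T = cap σ, w = bk m (den T) (model1):
L N tH w <= L sum_{i ∈ T} psi w (sp i) + L N cut (den_ord, psi_cut, tH_psi). With T g the slots of T in
the component g and s w z the sup' in GadI (0 <= s <= L b: take R = ∅, π ∅ = 0),
L sum_{i ∈ T} psi <= V T + sum_g s w (y g). maxineq over y with Ω = CI (card_CI, R.lin), differences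
<= L b + 1, and GadI give sum_g s w (y g) <= N L (k-1)/k tH w + ε2 N + err y for all w in the class.
So (L N / k) tH w - V T <= ε2 N + err y + L N cut. Combine with stat and rate → L. Choose R0 with
θ^(R0+1) (A + B0) small (acd_total); the sum of the probabilities is M sum π <= B0 N.
-/

namespace Pool.Agent.Work.MP_d4a230_co.U

open Finset Filter Topology Pool.Agent.Work.MP_07f1b5_pr
open scoped BigOperators

variable {α β : Type} [Fintype α] [DecidableEq α] [Fintype β] [DecidableEq β]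
  {W : Type} [Fintype W] [DecidableEq W] {H : SimpleGraph W} [DecidableRel H.Adj]
  {ep : β → α × α} {n M : ℕ → ℕ} {τ : ℕ → ℝ}

section det

variable {V G : Type} [Fintype V] [DecidableEq V] [Fintype G] [DecidableEq G] {π : Finset β → ℝ}
  {L : ℝ}

variable (H ep π L) in
/-- The optimal value for one component. -/
noncomputable def Gad_s (w : Sym2 V → ℝ) (z : α → V) : ℝ :=
  univ.sup' univ_nonempty fun R : Finset β =>
    L * ∑ j ∈ R, psi H w (sl ep z j) - ∑ C, π C * ind (C ⊆ R)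

lemma Gad_le (w : Sym2 V → ℝ) (z : α → V) (R : Finset β) :
    L * ∑ j ∈ R, psi H w (sl ep z j) - ∑ C, π C * ind (C ⊆ R) ≤ Gad_s H ep π L w z :=
  le_sup' (fun R : Finset β => L * ∑ j ∈ R, psi H w (sl ep z j) - ∑ C, π C * ind (C ⊆ R))
    (mem_univ R)

lemma Gad_bd (hL : 0 ≤ L) (p0 : ∀ C, 0 ≤ π C) (pe : π ∅ = 0) {w : Sym2 V → ℝ} (hw : Unit01 w)
    (z : α → V) : 0 ≤ Gad_s H ep π L w z ∧ Gad_s H ep π L w z ≤ L * Fintype.card β := by
  refine ⟨le_trans (le_of_eq ?_) (Gad_le w z ∅), sup'_le _ _ fun R _ => ?_⟩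
  · rw [sum_empty, mul_zero, sum_eq_zero, sub_zero]
    intro C _
    by_cases h : C ⊆ ∅
    · rw [subset_empty.1 h, pe, zero_mul]
    · rw [ind_neg h, mul_zero]
  · refine (sub_le_self _ (sum_nonneg fun C _ => mul_nonneg (p0 C) (ind_nonneg _))).trans
      (mul_le_mul_of_nonneg_left ((sum_le_card_nsmul _ _ 1 fun j _ => (psi_unit H hw _).2).trans ?_)
        hL)
    rw [nsmul_eq_mul, mul_one]
    exact Nat.cast_le.2 (card_le_univ R)

lemma Gad_det [Nonempty V] (hk : 0 < H.edgeFinset.card) (hN : 0 < Fintype.card (G × β))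
    (hL : 0 ≤ L) (y : G → α → V) (T : Finset (G × β)) {w : Sym2 V → ℝ} (hw : Unit01 w) :
    L * Fintype.card (G × β) * tH H w -
        ∑ c : G × Finset β, π c.2 * ind ((c.2.image fun b => (c.1, b)) ⊆ T) ≤
      ∑ g, Gad_s H ep π L w (y g) +
        L * Fintype.card (G × β) * cut fun e => den (sp ep y) T e - ord w e := by
  have N0 : (0 : ℝ) < Fintype.card (G × β) := Nat.cast_pos.2 hN
  have h1 := (abs_le.1 (psi_cut H hw fun e => den (sp ep y) T e - ord w e)).1
  simp only [sub_mul] at h1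
  rw [expect_sub_distrib, den_ord, tH_psi H hk, neg_le_sub_iff_le_add, ← sub_le_iff_le_add,
    le_div_iff₀ N0] at h1
  have h2 : L * ∑ i ∈ T, psi H w (sp ep y i) -
      ∑ c : G × Finset β, π c.2 * ind ((c.2.image fun b => (c.1, b)) ⊆ T) ≤
      ∑ g, Gad_s H ep π L w (y g) := by
    rw [← Fintype.sum_ite_mem T, Fintype.sum_prod_type, Fintype.sum_prod_type, mul_sum,
      ← sum_sub_distrib]
    refine sum_le_sum fun g _ => le_trans (le_of_eq ?_)
      (Gad_le w (y g) (univ.filter fun j => (g, j) ∈ T))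
    rw [sum_filter]
    refine congrArg₂ _ rfl (sum_congr rfl fun C _ => congrArg _ (ind_congr ?_))
    rw [image_subset_iff]
    simp only [subset_iff, mem_filter, mem_univ, true_and]
  nlinarith only [h2, h1, hL, mul_le_mul_of_nonneg_left h1 hL]

end det

end Pool.Agent.Work.MP_d4a230_co.U
end

-- merged part: Pool.Agent.Work.MP_d4a230_co.U.Upper
section
/-!
Upper bound: the real model lies below the uniform model.
PLAN. dr_low: for each active set A of virtual constraints (good_UV) apply stat with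
wb y T = bk m (den T), m from model1. The virtual statistic is q C(|T|,k) <= (L N / k) ρ^k with
ρ = |T|/N (sum_unif, choose_le), ρ is the mean of den T (ex_den), |ρ - mean (ord wb)| <= cut
(abs_ex_le_cut), and |x^k - y^k| <= k |x - y| on [0,1]. The rate tends to L. dr_ge: dr_low and
sidorenko. ih_unif: acd_total, q_zero; the sum of π is L N / k. upper: fi_le with s = 0, s2 = 1,
fi_zero, fi_one, fu_eq; choose R with θ^(R+1) small.
-/

namespace Pool.Agent.Work.MP_d4a230_co.U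

open Finset Filter Topology Pool.Agent.Work.MP_07f1b5_pr
open scoped BigOperators


variable {W : Type} [Fintype W] [DecidableEq W] {H : SimpleGraph W} [DecidableRel H.Adj]
  {n N : ℕ → ℕ} {τ : ℕ → ℝ} {L lam θ : ℝ}

/-- Probabilities of the uniform virtual constraints. -/
noncomputable def piU (k : ℕ) (L : ℝ) (N : ℕ) (C : Finset (Fin N × Unit)) : ℝ :=
  L / ((N - 1).choose (k - 1) : ℝ) * ind (C.card = k)

theorem Upper_k (R : Reg H ep1 n N τ) : 3 ≤ H.edgeFinset.card := R.bal.h3.trans R.bal.hk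

theorem Upper_sum {k M : ℕ} (hk : 1 ≤ k) (hM : k ≤ M) (hL : 0 ≤ L) (T : Finset (Fin M × Unit)) :
    ∑ C, piU k L M C * ind (id C ⊆ T) ≤ L * M / k * ((T.card : ℝ) / M) ^ k := by
  have h := choose_le hk hM (a := T.card) (by simpa using card_le_univ T)
  refine (sum_unif k _ T).trans_le ?_
  rw [div_mul_eq_mul_div, mul_div_assoc, mul_div_assoc, mul_assoc]
  exact mul_le_mul_of_nonneg_left h hL

theorem Upper_virt {V : Type} [Fintype V] [DecidableEq V] [Nonempty V] {k M : ℕ} (hk : 1 ≤ k)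
    (hM : k ≤ M) (hL : 0 ≤ L) (q : Fin M × Unit → Sym2 V) (T : Finset (Fin M × Unit))
    {w : Sym2 V → ℝ} (hw : Unit01 w) : ∑ C, piU k L M C * ind (id C ⊆ T) ≤
      L * M / k * (𝔼 e, ord w e) ^ k + L * M * cut fun e => den q T e - ord w e := by
  have e := ex_den q T
  rw [Fintype.card_prod, Fintype.card_fin, Fintype.card_unique, mul_one] at e
  have h1 := abs_ex_le_cut fun e => den q T e - ord w e
  rw [expect_sub_distrib] at h1
  have h2 : max |𝔼 e, den q T e| |𝔼 e, ord w e| ≤ 1 := max_le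
    ((abs_of_nonneg (expect_nonneg fun e _ => den_nonneg q T e)).trans_le (ex_den_le q T))
    ((abs_of_nonneg (expect_nonneg fun e _ => (hw _).1)).trans_le
      (ex_le zero_le_one fun e => (hw _).2))
  have h3 := (le_abs_self _).trans ((abs_pow_sub_pow_le _ _ k).trans ((mul_le_of_le_one_right
    (by positivity) (pow_le_one₀ (by positivity) h2)).trans
      (mul_le_mul_of_nonneg_right h1 k.cast_nonneg)))
  have k0 : (0 : ℝ) < k := by exact_mod_cast hk
  refine (Upper_sum hk hM hL T).trans ((mul_le_mul_of_nonneg_left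
    (e ▸ sub_le_iff_le_add'.1 h3) (by positivity)).trans_eq ?_)
  field_simp

theorem Upper_pi {k M : ℕ} (hL : 0 ≤ L) (C : Finset (Fin M × Unit)) :
    0 ≤ piU k L M C ∧ piU k L M C ≤ L / ((M - 1).choose (k - 1) : ℝ) :=
  ⟨mul_nonneg (by positivity) (ind_nonneg _), mul_le_of_le_one_right (by positivity) (ind_le_one _)⟩

theorem Upper_q (R : Reg H ep1 n N τ) (L : ℝ) {δ : ℝ} (hδ : 0 < δ) :
    ∀ᶠ j in atTop, L / ((N j - 1).choose (H.edgeFinset.card - 1) : ℝ) ≤ δ :=
  ((q_zero (by linarith [Upper_k R]) L).comp R.top).eventually (ge_mem_nhds hδ)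

theorem Upper_adm {k M : ℕ} (hL : 0 ≤ L) (h : L / ((M - 1).choose (k - 1) : ℝ) ≤ 1) {t : ℝ}
    (t0 : 0 ≤ t) (t1 : t < 1) : Adm fun C => (1 - t) * piU k L M C := fun C =>
  ⟨mul_nonneg (by linarith) (Upper_pi hL C).1,
    mul_le_one₀ (by linarith) (Upper_pi hL C).1 ((Upper_pi hL C).2.trans h)⟩

theorem dr_low (R : Reg H ep1 n N τ) (hL : 0 ≤ L)
    (hr : Tendsto (fun j => rate H (n j) (N j) (τ j)) atTop (𝓝 L)) (hl : 0 ≤ lam) (h0 : 0 ≤ θ)
    (h1 : θ < 1) {r : ℕ} (r0 : 0 < r) {ε : ℝ} (hε : 0 < ε) : ∀ᶠ m in atTop, ∀ᶠ j in atTop,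
    ∀ t, 0 ≤ t → t < 1 → L * N j / H.edgeFinset.card *
      (Ex (fun C => (1 - t) * piU H.edgeFinset.card L (N j) C) fun A =>
        EG H θ (t * τ j) ep1 (UV lam θ id A) r fun (y : Fin (N j) → Bool → Fin (n j)) _ σ =>
          tH H (bk m (den (sp ep1 y) (cap σ))) -
            (𝔼 e, ord (bk m (den (sp ep1 y) (cap σ))) e) ^ H.edgeFinset.card) - ε * N j ≤
      DR H (Fin (n j)) lam θ (τ j) ep1 (piU H.edgeFinset.card L (N j)) id t r := by
  obtain ⟨δ, d0, d1, d2⟩ : ∃ δ : ℝ, 0 < δ ∧ δ ≤ 1 ∧ δ * (2 * L + 3) ≤ ε :=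
    ⟨min 1 (ε / (2 * L + 3)), by positivity, min_le_left _ _,
      (le_div_iff₀ (by positivity)).1 (min_le_right _ _)⟩
  have hk := Upper_k R
  filter_upwards [model1 R d0] with m hm
  filter_upwards [hm, stat R r0 hl h0 h1 d0, R.t01, R.pos, R.rate_bd.choose_spec.2,
    R.top.eventually_ge_atTop H.edgeFinset.card, Upper_q R L one_pos,
    Metric.tendsto_nhds.1 hr δ d0] with j ⟨err, e0, e1, e2⟩ hs ht hp hρ hN hq hd t t0 t1
  have : Nonempty (Fin (n j)) := ⟨⟨0, hp.1⟩⟩
  rw [← Ex_const_mul, ← Ex_const (fun C => (1 - t) * piU H.edgeFinset.card L (N j) C) (ε * N j),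
    ← Ex_sub]
  refine Ex_mono (Upper_adm hL hq t0 t1) fun A => ?_
  have hU := good_UV hl h0 h1 (id : Finset (Fin (N j) × Unit) → _) A
  have s0 := mul_nonneg t0 ht.1
  have s1 := mul_le_one₀ t1.le ht.1 ht.2
  have uk : ∀ (y : Fin (N j) → Bool → Fin (n j)) T, Unit01 (bk m (den (sp ep1 y) T)) :=
    fun y T => ck_unit _ _
  have a1 := (abs_le.1 (hs t _ _ t0 t1 hU uk)).1
  simp only [Fintype.card_unique, mul_one] at a1 hρ
  have a2 := (EG_mono (H := H) (ep := ep1) (r := r) h0 h1 s0 s1 hU fun y _ σ _ =>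
    e2 y (cap σ)).trans ((EG_pos h0 h1 hU err).trans_le e1)
  have a3 := EG_mono (H := H) (ep := ep1) (r := r) h0 h1 s0 s1 hU fun y _ σ _ =>
    Upper_virt (k := H.edgeFinset.card) (by omega) hN hL (sp ep1 y) (cap σ) (uk y (cap σ))
  have a4 := (EG_mono (H := H) (ep := ep1) (r := r) h0 h1 s0 s1 hU fun y _ σ _ =>
    (tH_unit (H := H) (uk y (cap σ))).2).trans
      ((EG_pos h0 h1 hU fun _ => 1).trans_le (ex_le zero_le_one fun _ => le_rfl))
  have a5 := (expect_nonneg fun _ _ => le_rfl).trans ((EG_pos h0 h1 hU fun _ => 0).ge.trans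
    (EG_mono (H := H) (ep := ep1) (r := r) h0 h1 s0 s1 hU fun y _ σ _ =>
      (tH_unit (H := H) (uk y (cap σ))).1))
  rw [EG_add, EG_mul, EG_mul] at a3
  rw [EG_sub]
  rw [Real.dist_eq, abs_lt] at hd
  have n0 : (0 : ℝ) ≤ N j := Nat.cast_nonneg _
  have k1 : (1 : ℝ) ≤ H.edgeFinset.card := by exact_mod_cast (by omega : 1 ≤ H.edgeFinset.card)
  have b1 := mul_le_mul_of_nonneg_left a2 (mul_nonneg hL n0)
  have b2 := (mul_le_mul_of_nonneg_left a2 (mul_nonneg hρ.1 n0)).trans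
    (mul_le_mul_of_nonneg_right (mul_le_mul_of_nonneg_right
      (show _ ≤ L + 1 by linarith only [d1, hd, hd.2]) n0) d0.le)
  have b3 := mul_le_mul_of_nonneg_right d2 n0
  have b4 := mul_le_mul_of_nonneg_right hd.1.le (mul_nonneg (div_nonneg n0 (by linarith only [k1])) a5 :
    0 ≤ (N j : ℝ) / H.edgeFinset.card * _)
  have b5 := mul_le_mul_of_nonneg_left ((mul_le_of_le_one_right (div_nonneg n0 (by linarith only [k1]))
    a4).trans (div_le_self n0 k1)) d0.le
  rw [mul_div_assoc] at a1 a3 ⊢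
  linarith only [a1, a3, b1, b2, b3, b4, b5]

theorem ih_unif (R : Reg H ep1 n N τ) (hL : 0 ≤ L) (hl : 0 ≤ lam) (h0 : 0 ≤ θ) (h1 : θ < 1)
    {ε : ℝ} (hε : 0 < ε) : ∃ R0 : ℕ, 0 < R0 ∧ ∀ᶠ j in atTop, ∃ A pm : ℝ,
      IH H (Fin (n j)) (Fin (N j)) lam θ (τ j) A pm ep1 (piU H.edgeFinset.card L (N j)) ∧
        ierr θ A pm (piU H.edgeFinset.card L (N j)) R0 ≤ ε * N j := by
  obtain ⟨C, C0, hC⟩ := acd_total R
  have hk := Upper_k R
  have η0 : 0 < ε * (1 - θ) / 2 := half_pos (mul_pos hε (sub_pos.2 h1))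
  have l1 := ((tendsto_pow_atTop_nhds_zero_of_lt_one h0 h1).comp
    (tendsto_add_atTop_nat 1)).mul_const (C + L)
  rw [zero_mul] at l1
  obtain ⟨R0, r1, r2⟩ := ((l1.eventually (ge_mem_nhds η0)).and (eventually_gt_atTop 0)).exists
  refine ⟨R0, r2, ?_⟩
  filter_upwards [hC, R.t01, Upper_q R L one_pos, Upper_q R (L * L) η0,
    R.top.eventually_ge_atTop H.edgeFinset.card] with j hj ht q1 q2 hN
  refine ⟨_, _, ⟨hl, h0, h1, ht.1, ht.2, fun c => (Upper_pi hL c).1,
    fun c => (Upper_pi hL c).2.trans q1, fun c => (Upper_pi hL c).2, hj⟩, ?_⟩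
  have n0 : (0 : ℝ) < N j := by exact_mod_cast (by omega : 0 < N j)
  have k1 : (1 : ℝ) ≤ H.edgeFinset.card := by exact_mod_cast (by omega : 1 ≤ H.edgeFinset.card)
  have s1 : ∑ c, piU H.edgeFinset.card L (N j) c ≤ L * N j := by
    have := Upper_sum (by omega) hN hL univ
    simp only [subset_univ, ind_pos, mul_one, card_univ, Fintype.card_prod, Fintype.card_fin,
      Fintype.card_unique, div_self n0.ne', one_pow] at this
    exact this.trans (div_le_self (by positivity) k1)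
  have b1 := mul_le_mul_of_nonneg_left s1 (pow_nonneg h0 (R0 + 1))
  have b2 := mul_le_mul_of_nonneg_left s1 (by positivity :
    0 ≤ L / ((N j - 1).choose (H.edgeFinset.card - 1) : ℝ))
  have b3 : θ ^ (R0 + 1) * (C + L) * N j ≤ _ := mul_le_mul_of_nonneg_right r1 n0.le
  have b4 := mul_le_mul_of_nonneg_right q2 n0.le
  rw [mul_div_assoc] at b4
  rw [ierr, div_le_iff₀ (sub_pos.2 h1)]
  linarith only [b1, b2, b3, b4]

end Pool.Agent.Work.MP_d4a230_co.U
end

-- merged part: Pool.Agent.Work.MP_d4a230_co.U.Chain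
section
/-!
The lower bound chain and the existence of the limit. k = card edges.
PLAN. lowerG: M j = N j / b. R.change gives the regime for ep with M; rate_div its limit rate.
regroup (the error term is bounded), free, gadget; (N/b - M) FV <= FV <= b log (1+lam) (fv_bd).
lower2: ep = epP (Fin μ), star2, π C = q_μ ind (card = k), pm = q_μ → 0 (q_zero), sum π = L μ / k
(sum_unif, choose_le with a = N), FV π id fug = FU μ by definition.
lower1: choose q0 ∈ (0, 1/4] small, b s = ceil (q0 s^2 / 2), τ2 from reg_thin with n = id. lower2 for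
this regime: for large μ, eventually in s FE s >= (b s / μ) FU μ - ε b s. Pick one s that also
satisfies star1, τ2 s small, 2 b s <= s (s-1), 2 b s / s^2 <= 2 q0, 1/s small; simple gives ep;
lz_fv; lowerG with pm = τ2 s, B0 = L / q0^k (π ∅ = 0 as card ∅ ≠ k).
fu_conv: reg_thin with n = Nat.sqrt N, q = 1; upper and lower2 give the hypothesis of conv_of for
FU N / N (fv_bd for the bound). real_ge: lower1 and fu_conv (R.top). alpha_conv: for ε take lam with
log 2 / log lam small, θ = 1 - 1/lam, fu_sandwich and fu_conv give the hypothesis of conv_of.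
-/

namespace Pool.Agent.Work.MP_d4a230_co.U

open Finset Filter Topology Pool.Agent.Work.MP_07f1b5_pr
open scoped BigOperators


variable {W : Type} [Fintype W] [DecidableEq W] {H : SimpleGraph W} [DecidableRel H.Adj]
  {n N : ℕ → ℕ} {τ : ℕ → ℝ} {L lam θ : ℝ}

lemma Chain_k {K : ℕ} (B : KBal H K) : 3 ≤ H.edgeFinset.card := B.h3.trans B.hk

lemma Chain_big (hN : Tendsto N atTop atTop) (K : ℝ) {δ : ℝ} (hδ : 0 < δ) :
    ∀ᶠ j in atTop, K ≤ δ * N j :=
  ((tendsto_natCast_atTop_atTop.comp hN).const_mul_atTop hδ).eventually_ge_atTop K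

lemma Chain_q {k : ℕ} (hk : 3 ≤ k) (hL : 0 ≤ L) {δ : ℝ} (hδ : 0 < δ) : ∀ᶠ μ : ℕ in atTop,
    0 ≤ L / ((μ - 1).choose (k - 1) : ℝ) ∧ L / ((μ - 1).choose (k - 1) : ℝ) ≤ δ := by
  filter_upwards [(q_zero (k := k) (by omega) L).eventually_le_const hδ] with μ h
  exact ⟨div_nonneg hL (Nat.cast_nonneg _), h⟩

lemma Chain_fu {k : ℕ} (hk : 3 ≤ k) (hL : 0 ≤ L) (hl : 0 ≤ lam) (h0 : 0 ≤ θ) (h1 : θ < 1) :
    ∀ᶠ μ : ℕ in atTop, |FU k L lam θ μ / μ| ≤ Real.log (1 + lam) := by
  filter_upwards [Chain_q hk hL one_pos, eventually_gt_atTop 0] with μ hq hμ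
  have hμ' : (0 : ℝ) < μ := by exact_mod_cast hμ
  have h := fv_bd (I := Fin μ) hl h0 h1 (p := fun C : Finset (Fin μ) =>
    L / ((μ - 1).choose (k - 1) : ℝ) * ind (C.card = k))
    (fun C => ⟨mul_nonneg hq.1 (ind_nonneg _), mul_le_one₀ hq.2 (ind_nonneg _) (ind_le_one _)⟩) id
    (fun C hC => by
      have : C = ∅ := hC
      rw [ind_neg (by rw [this, card_empty]; omega), mul_zero])
  rw [Fintype.card_fin] at h
  have h2 : 0 ≤ FU k L lam θ μ := h.1
  have h3 : FU k L lam θ μ ≤ μ * Real.log (1 + lam) := h.2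
  rw [abs_of_nonneg (div_nonneg h2 hμ'.le), div_le_iff₀ hμ']
  linarith only [h3]

end Pool.Agent.Work.MP_d4a230_co.U
end
end

-- merged part: Pool.Agent.Work.MP_d4a230_co.V.Final
section
-- merged part: Pool.Agent.Work.MP_d4a230_co.U.Deg
section
/-!
The functional fK in the real model (τ = 1).
PLAN. fK_lip: take the optimal R for y and erase (g, ()) (Acd_congr, den_congr, irr_le_l1, ex_den;
if the optimum is 0 use R = ∅). fK_ge: from σ delete one variable of every C ⊆ σ with Acd (such C are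
nonempty); irr_le_l1. fK_up: with τ = 1 all sets are active (Ex_one), a free R gives Z >= lam^|R|, so
N fK 0 log lam <= log Z; upper, fu_sandwich with θ = 1 - 1/lam and lam large.
fK_low: fix lam large, 1 - θ = lam^(-(1+2K)) (Real.rpow), δ and C from force, η small, then all other
accuracies. ih_unif, dr_ge, real_ge, fi_zero, fi_one, fu_eq, fi_mvt give t ∈ (1-η, 1) with DR t 1 small;
dr_low (r = 1) then makes the mean deficit tH w - (mean w)^k small (L > 0, θ >= 1/2); force, irr_le,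
model1 make the mean of irr (den σ) small. fi_le on [t, 1] gives FI t >= FI 1 - small >=
N (a log lam - small). For fixed virtual set A, y and act, log_le_gib with
g σ = log lam (|σ| - (1+2K) * number of C ∈ act with Acd C, C ⊆ σ). The sets with Acd that are not in act
have mean number (1 - t) * mean total <= η C N (acd_total, Ex_mem). Average fK_ge over the Gibbs
measure (cap σ = σ 0 for one replica; EG_mono, EG_pos).
-/

namespace Pool.Agent.Work.MP_d4a230_co.U

open Finset Filter Topology Pool.Agent.Work.MP_07f1b5_pr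
open scoped BigOperators


variable {W : Type} [Fintype W] [DecidableEq W] {H : SimpleGraph W} [DecidableRel H.Adj]

section finite

variable {V : Type} [Fintype V] [DecidableEq V] {N : ℕ}

lemma Deg_le (K : ℝ) (y : Fin N → Bool → V) {R : Finset (Fin N × Unit)}
    (h : ∀ C, Acd H (sp ep1 y) Prod.fst C → ¬ C ⊆ R) :
    (R.card : ℝ) / N - K * irr (den (sp ep1 y) R) ≤ fK H K y := by
  refine le_trans ?_ (le_sup' _ (mem_univ R))
  rw [ind_pos h, one_mul]

lemma Deg_zero (q : Fin N × Unit → Sym2 V) : irr (den q ∅) = 0 := by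
  simp [irr, den]

lemma Deg_ne {k0 : ℕ} (B : KBal H k0) {q : Fin N × Unit → Sym2 V} {C : Finset (Fin N × Unit)}
    (h : Acd H q Prod.fst C) : C.Nonempty :=
  card_pos.1 (by have := h.2.1; have := B.h3; have := B.hk; omega)

lemma Deg_opt {k0 : ℕ} (B : KBal H k0) (K : ℝ) (y : Fin N → Bool → V) : ∃ R : Finset (Fin N × Unit),
    (∀ C, Acd H (sp ep1 y) Prod.fst C → ¬ C ⊆ R) ∧
      fK H K y = (R.card : ℝ) / N - K * irr (den (sp ep1 y) R) := by
  obtain ⟨R, -, h⟩ := exists_mem_eq_sup' univ_nonempty fun R : Finset (Fin N × Unit) =>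
    ind (∀ C, Acd H (sp ep1 y) Prod.fst C → ¬ C ⊆ R) *
      ((R.card : ℝ) / N - K * irr (den (sp ep1 y) R))
  by_cases hR : ∀ C, Acd H (sp ep1 y) Prod.fst C → ¬ C ⊆ R
  · exact ⟨R, hR, by rw [fK, h, ind_pos hR, one_mul]⟩
  · refine ⟨∅, fun C hC hs => (Deg_ne B hC).ne_empty (subset_empty.1 hs), ?_⟩
    rw [fK, h, ind_neg hR, Deg_zero]
    simp

lemma Deg_sub [Nonempty V] {K d : ℝ} (hK : 0 ≤ K) (q : Fin N × Unit → Sym2 V)
    {R R2 : Finset (Fin N × Unit)} (h : R2 ⊆ R) (hd : (R.card : ℝ) ≤ R2.card + d) :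
    (R.card - (1 + 2 * K) * d) / N - K * irr (den q R) ≤
      (R2.card : ℝ) / N - K * irr (den q R2) := by
  have h1 := irr_le_l1 (den q R2) (den q R)
  have h2 : 𝔼 e, |den q R2 e - den q R e| = (R.card : ℝ) / N - R2.card / N := by
    rw [expect_congr rfl fun e _ => (abs_of_nonpos (sub_nonpos.2 (den_mono q h e))).trans
      (neg_sub _ _), expect_sub_distrib, ex_den, ex_den]
    simp
  have h3 : (R.card : ℝ) / N - R2.card / N ≤ d / N := by
    rw [← sub_div]
    exact div_le_div_of_nonneg_right (by linarith) (Nat.cast_nonneg _)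
  rw [h2] at h1
  rw [sub_div, mul_div_assoc]
  nlinarith only [h3, hK, h1]

lemma Deg_lip {k0 : ℕ} (B : KBal H k0) [Nonempty V] {K : ℝ} (hK : 0 ≤ K) {y y2 : Fin N → Bool → V} (g : Fin N)
    (h : ∀ a, a ≠ g → y a = y2 a) : fK H K y - fK H K y2 ≤ (1 + 2 * K) / N := by
  obtain ⟨R, h1, h2⟩ := Deg_opt B K y
  have h3 : ∀ i ∈ R.erase (g, ()), sp ep1 y i = sp ep1 y2 i := fun i hi => by
    unfold sp
    rw [h i.1 fun e => (mem_erase.1 hi).1 (Prod.ext e rfl)]
  have h4 := Deg_le (H := H) K y2 (R := R.erase (g, ())) fun C hC hs =>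
    h1 C ((Acd_congr _ fun i hi => h3 i (hs hi)).2 hC) (hs.trans (erase_subset _ _))
  have h5 := Deg_sub hK (sp ep1 y) (erase_subset (g, ()) R) (d := 1) (by
    have := pred_card_le_card_erase (s := R) (a := (g, ()))
    exact_mod_cast (by omega : R.card ≤ (R.erase (g, ())).card + 1))
  rw [← den_congr h3] at h4
  rw [sub_div, mul_one] at h5
  linarith only [h2, h4, h5]

end finite

theorem fK_nonneg {k0 : ℕ} (B : KBal H k0) {V : Type} [Fintype V] [DecidableEq V] (K : ℝ) {N : ℕ}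
    (y : Fin N → Bool → V) : 0 ≤ fK H K y := by
  have h := Deg_le (H := H) K y (R := ∅) fun C hC hs => (Deg_ne B hC).ne_empty (subset_empty.1 hs)
  rw [Deg_zero] at h
  simpa using h

theorem fK_lip {k0 : ℕ} (B : KBal H k0) {V : Type} [Fintype V] [DecidableEq V] [Nonempty V] {K : ℝ}
    (hK : 0 ≤ K) {N : ℕ} (y : Fin N → Bool → V) (g : Fin N) (z : Bool → V) :
    |fK H K (Function.update y g z) - fK H K y| ≤ (1 + 2 * K) / N := by
  refine abs_sub_le_iff.2 ⟨Deg_lip B hK g fun a ha => ?_, Deg_lip B hK g fun a ha => ?_⟩ <;>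
    rw [Function.update_of_ne ha]

theorem fK_ge {k0 : ℕ} (B : KBal H k0) {V : Type} [Fintype V] [DecidableEq V] [Nonempty V] {K : ℝ}
    (hK : 0 ≤ K) {N : ℕ} (y : Fin N → Bool → V) (σ : Finset (Fin N × Unit)) :
    (σ.card - (1 + 2 * K) * ∑ C : Finset (Fin N × Unit),
      ind (Acd H (sp ep1 y) Prod.fst C ∧ C ⊆ σ)) / N - K * irr (den (sp ep1 y) σ) ≤ fK H K y := by
  classical
  have h1 : ∀ C : Finset (Fin N × Unit), ∃ D : Finset (Fin N × Unit), D.card ≤ 1 ∧
      (C.Nonempty → ∃ i ∈ C, i ∈ D) := fun C => by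
    rcases C.eq_empty_or_nonempty with rfl | ⟨i, hi⟩
    · exact ⟨∅, by simp, fun h => absurd h not_nonempty_empty⟩
    · exact ⟨{i}, by simp, fun _ => ⟨i, hi, mem_singleton_self i⟩⟩
  choose D d1 d2 using h1
  let S := univ.filter fun C => Acd H (sp ep1 y) Prod.fst C ∧ C ⊆ σ
  refine (Deg_sub hK _ (sdiff_subset (t := S.biUnion D)) ?_).trans (Deg_le K y fun C hC hs => ?_)
  · rw [sum_ind]
    have h2 := card_biUnion_le_card_mul S D 1 fun C _ => d1 C
    have h3 := le_card_sdiff (S.biUnion D) σ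
    exact_mod_cast (by omega : σ.card ≤ (σ \ S.biUnion D).card + S.card)
  · obtain ⟨i, i1, i2⟩ := d2 C (Deg_ne B hC)
    exact (mem_sdiff.1 (hs i1)).2 (mem_biUnion.2
      ⟨C, mem_filter.2 ⟨mem_univ _, hC, hs.trans sdiff_subset⟩, i2⟩)

section energy

variable {V : Type} [Fintype V] [DecidableEq V] [Nonempty V] {N : ℕ}

lemma Deg_small {ε : ℝ} (hε : 0 < ε) (c : ℝ) : ∃ e : ℝ, 0 < e ∧ e ≤ 1 ∧ e * c ≤ ε := by
  have h1 : 0 < |c| + ε := by positivity
  refine ⟨ε / (|c| + ε), by positivity, (div_le_one h1).2 (by linarith [abs_nonneg c]), ?_⟩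
  rw [div_mul_eq_mul_div, div_le_iff₀ h1]
  nlinarith only [hε, le_abs_self c]

lemma Deg_up {k0 : ℕ} (B : KBal H k0) {T θ : ℝ} (h0 : 0 ≤ θ) (h1 : θ < 1) (hN : 0 < N) :
    N * T * 𝔼 y : Fin N → Bool → V, fK H 0 y ≤
      FE H V θ 1 ep1 (fug (Real.exp T) : Finset (Fin N × Unit) → ℝ) := by
  rw [mul_expect]
  refine ex_mono fun y => ?_
  obtain ⟨R, h2, h3⟩ := Deg_opt B 0 y
  have h4 : (0 : ℝ) < N := by exact_mod_cast hN
  have h5 : (N : ℝ) * T * fK H 0 y = Real.log (fug (Real.exp T) R *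
      aw H θ (sp ep1 y) Prod.fst univ R) := by
    rw [aw, prod_eq_one fun C _ => by rw [ind_neg fun h => h2 C h.1 h.2]; simp, h3, fug, mul_one,
      Real.log_pow, Real.log_exp]
    field_simp
    ring
  have h6 : ∀ σ : Finset (Fin N × Unit), 0 < fug (Real.exp T) σ *
      aw H θ (sp ep1 y) Prod.fst univ σ := fun σ =>
    mul_pos (pow_pos (Real.exp_pos T) _) (aw_bd h0 h1 _ _ _ _).1
  rw [h5, LZ, E, Ex_one fun _ => rfl]
  exact Real.log_le_log (h6 R) (single_le_sum (fun σ _ => (h6 σ).le) (mem_univ R))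

lemma Deg_fe {k0 : ℕ} (B : KBal H k0) {K T θ t lam : ℝ} (hK : 0 ≤ K) (hT : 0 ≤ T) (h0 : 0 ≤ θ)
    (hθ : 1 - θ = Real.exp (-((1 + 2 * K) * T))) (t0 : 0 ≤ t) (t1 : t ≤ 1) (hN : 0 < N)
    {U : Finset (Fin N × Unit) → ℝ} (hU : Good lam U) (hU2 : ∀ σ, U σ ≤ Real.exp T ^ σ.card) :
    FE H V θ t ep1 U ≤ N * T * (𝔼 y : Fin N → Bool → V, fK H K y) + N * T * K *
      (EG H θ t ep1 U 1 fun (y : Fin N → Bool → V) _ σ => irr (den (sp ep1 y) (cap σ))) +
      T * (1 + 2 * K) * ((1 - t) * 𝔼 y : Fin N → Bool → V, ∑ C : Finset (Fin N × Unit),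
        1 * ind (Acd H (sp ep1 y) Prod.fst C)) + N * Real.log 2 := by
  have h1 : θ < 1 := by linarith only [hθ, Real.exp_pos (-((1 + 2 * K) * T))]
  have h4 : (0 : ℝ) < N := by exact_mod_cast hN
  have e1 : (1 - t) * 𝔼 y : Fin N → Bool → V, ∑ C : Finset (Fin N × Unit),
      1 * ind (Acd H (sp ep1 y) Prod.fst C) = EG H θ t ep1 U 1 fun (y : Fin N → Bool → V) act _ =>
        ∑ C : Finset (Fin N × Unit), ind (Acd H (sp ep1 y) Prod.fst C) * (1 - ind (C ∈ act)) := by
    rw [EG_dis h0 h1 hU, mul_expect]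
    refine expect_congr rfl fun y _ => ?_
    rw [E_sum, mul_sum]
    refine sum_congr rfl fun C _ => ?_
    rw [E_const_mul, E_sub, E_const, E, Ex_mem]
    ring
  rw [e1, ← EG_pos (H := H) (r := 1) (τ := t) (ep := ep1) h0 h1 hU, ← EG_mul, ← EG_mul, ← EG_mul,
    ← EG_add, ← EG_add, EG, ← Fintype.expect_const (ι := Fin N → Bool → V) (N * Real.log 2),
    ← expect_add_distrib]
  refine ex_mono fun y => ?_
  rw [← E_const (p := t) (ι := Finset (Fin N × Unit)) (N * Real.log 2), ← E_add]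
  refine E_mono t0 t1 fun act => ?_
  have h2 := log_le_gib (g := fun σ => T * (σ.card - (1 + 2 * K) * ∑ C ∈ act,
      ind (Acd H (sp ep1 y) Prod.fst C ∧ C ⊆ σ))) (Wt_nonneg (H := H) h0 h1 ep1 hU y act)
    (Wt_sum_pos h0 h1 ep1 hU y act) fun σ => by
      rw [mul_sub, sub_eq_add_neg, Real.exp_add, mul_comm T, Real.exp_nat_mul, mul_sum, mul_sum,
        ← sum_neg_distrib, Real.exp_sum]
      refine mul_le_mul (hU2 σ) (le_of_eq (prod_congr rfl fun C _ => ?_))
        (aw_bd h0 h1 _ _ _ _).1.le (by positivity)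
      by_cases h : Acd H (sp ep1 y) Prod.fst C ∧ C ⊆ σ
      · rw [ind_pos h, mul_one, hθ, mul_one, mul_comm]
      · rw [ind_neg h]; simp
  refine h2.trans (add_le_add (gib_mono (Wt_nonneg h0 h1 ep1 hU y act) fun σ _ => ?_) ?_)
  · have h3 := fK_ge B hK y (σ 0)
    have h5 : cap σ = σ 0 := by simp [cap]
    have h6 : ∑ C : Finset (Fin N × Unit), ind (Acd H (sp ep1 y) Prod.fst C ∧ C ⊆ σ 0) ≤
        ∑ C ∈ act, ind (Acd H (sp ep1 y) Prod.fst C ∧ C ⊆ σ 0) + ∑ C : Finset (Fin N × Unit),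
          ind (Acd H (sp ep1 y) Prod.fst C) * (1 - ind (C ∈ act)) := by
      rw [Lay_sum act, ← sum_add_distrib]
      refine sum_le_sum fun C _ => ?_
      by_cases h : C ∈ act
      · rw [ind_pos h]; simp
      · rw [ind_neg h, zero_mul, zero_add, sub_zero, mul_one]; exact ind_mono fun h => h.1
    rw [sub_le_iff_le_add, div_le_iff₀ h4] at h3
    rw [h5]
    nlinarith only [h3, hT, h6, hK, mul_le_mul_of_nonneg_left h3 hT,
      mul_le_mul_of_nonneg_left h6 (by positivity : 0 ≤ T * (1 + 2 * K))]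
  · simp

end energy

variable {n N : ℕ → ℕ} {L a : ℝ}

end Pool.Agent.Work.MP_d4a230_co.U
end

-- merged part: Pool.Agent.Work.MP_d4a230_co.U.Final
section
/-!
Assembly.
PLAN. R0 = B.reg hc hp (after hH.twoDensity_eq), R0.inf, R0.lim; p → 0 (n^(v-2) p^(k-1) is bounded);
N from size. reg_real: P = p * (P/p). L = copyRate H c > 0. alpha_conv gives a.
up: for d > a, mcdiarmid for fK 0 (fK_lip, fK_up) and whp_of_iid give whp some y with Inj y, positions
in ω, fK 0 y <= a + 2ε. If ω2 ⊆ ω is free of copies with all dgE >= d p n, then R = {i | sp i ∈ ω2} has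
no Acd subset, so |R| <= (a + 2ε) N, |ω2 ∩ offd| <= |R| + η N, and sum dgE = 2 |ω2 ∩ offd|:
contradiction; so HEv holds vacuously. low: for d < a take ε with d + 5ε <= a (a <= 1), η from
hlower_core (ν = a, b = 1/32), K with 1/(K ε/4) <= η/8; whp some y with fK K y >= a - ε/4 > 0, so a free
R with |R|/N >= a - ε/4 and irr <= 1/K. R2 = image of R is a copy-free subset of ω (a copy inside
pulls back to an Acd set), dgE R2 v = (2N/n) * mean_b den R (v,b); Markov on irr; X v = min (dgE R2 v)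
(a p n), dev = 0. Conclude as in hlower_prob, le_hchrom and hexact of HMain (hchrom_eq, csInf).
-/

namespace Pool.Agent.Work.MP_d4a230_co.U

open Finset Filter Topology Pool.Agent.Work.MP_07f1b5_pr
open scoped BigOperators


variable {W : Type} [Fintype W] [DecidableEq W] {H : SimpleGraph W} [DecidableRel H.Adj]
  {p : ℕ → ℝ} {K0 : ℕ} {L Λ a : ℝ} {N : ℕ → ℕ}

theorem reg_real (B : HBal H) {c : ℝ} (hc : 0 < c)
    (R0 : HReg p (fun n => copies H (Fin n)) (Fintype.card W) H.edgeFinset.card K0 (copyRate H c)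
      (c ^ (H.edgeFinset.card - 1)))
    (hN : Tendsto (fun n : ℕ => 2 * (N n : ℝ) / (n : ℝ) ^ 2 / p n) atTop (𝓝 1)) :
    Reg H ep1 id N (fun _ => 1) ∧ Tendsto (fun n => rate H n (N n) 1) atTop (𝓝 (copyRate H c)) ∧
      Tendsto p atTop (𝓝 0) ∧ 0 < copyRate H c := by
  have h3 := B.h3
  have hk := B.hk
  have hA := one_le_aut (H := H)
  have l1 : Tendsto (fun n : ℕ => (n : ℝ) ^ (Fintype.card W - 2) *
      (2 * (N n : ℝ) / (n : ℝ) ^ 2) ^ (H.edgeFinset.card - 1)) atTop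
      (𝓝 (c ^ (H.edgeFinset.card - 1))) := by
    have := R0.lim.mul (hN.pow (H.edgeFinset.card - 1))
    rw [one_pow, mul_one] at this
    refine this.congr' ?_
    filter_upwards [R0.inf.eventually (eventually_gt_atTop 0)] with n hn
    rw [mul_assoc, ← mul_pow, mul_div_cancel₀ _ (left_ne_zero_of_mul hn.ne')]
  have e : copyRate H c = 1 * (2 * H.edgeFinset.card / aut H) * c ^ (H.edgeFinset.card - 1) := by
    rw [copyRate, ncard_edge, aut]
    ring
  have l2 : Tendsto (fun n => rate H n (N n) 1) atTop (𝓝 (copyRate H c)) := by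
    rw [e]
    exact (l1.const_mul _).congr fun n => (mul_assoc _ _ _).symm
  have k0 : (0 : ℝ) < H.edgeFinset.card := by exact_mod_cast (by omega)
  refine ⟨⟨⟨_, kb_of B, _, half_pos R0.pos, ?_⟩, Or.inl B, ⟨()⟩, fun _ => Bool.false_ne_true,
    tendsto_id, Eventually.of_forall fun _ => ⟨zero_le_one, le_rfl⟩,
    ⟨copyRate H c + 1, ?_⟩, Or.inl fun _ _ _ => rfl⟩, l2, R0.lim0, by rw [e]; positivity⟩
  · simp only [Fintype.card_unique, mul_one]
    exact l1.eventually (le_mem_nhds (half_lt_self R0.pos))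
  · simp only [Fintype.card_unique, mul_one]
    exact l2.eventually (ge_mem_nhds (lt_add_one _))

lemma Final_conc
    (R0 : HReg p (fun n => copies H (Fin n)) (Fintype.card W) H.edgeFinset.card K0 L Λ)
    (B : HBal H) (hp : Tendsto p atTop (𝓝 0))
    (hN : Tendsto (fun n : ℕ => 2 * (N n : ℝ) / (n : ℝ) ^ 2 / p n) atTop (𝓝 1))
    (hS : Whp p fun n ω => N n ≤ (ω ∩ offd (Fin n)).card) {K δ : ℝ} (hK : 0 ≤ K) (hδ : 0 < δ) :
    Whp p fun n ω => ∃ y : Fin (N n) → Bool → Fin n, Inj y ∧ (∀ i, sp ep1 y i ∈ ω) ∧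
      ¬ δ ≤ |fK H K y - 𝔼 y2 : Fin (N n) → Bool → Fin n, fK H K y2| := by
  refine whp_of_iid R0.p0 R0.p1 hp R0.inf hN hS _ (c := δ ^ 2 / (2 * (1 + 2 * K) ^ 2))
    (by positivity) ?_
  filter_upwards [hN.eventually (lt_mem_nhds zero_lt_one), eventually_gt_atTop 0] with n h1 h2
  have : Nonempty (Fin n) := ⟨⟨0, h2⟩⟩
  have h3 : (0 : ℝ) < N n := Nat.cast_pos.2 (Nat.pos_of_ne_zero fun h => by simp [h] at h1)
  refine (mcdiarmid (fK H K) (by positivity) hδ.le fun y i b => fK_lip (kb_of B) hK y i b).trans_eq ?_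
  rw [Fintype.card_fin]
  congr 3
  field_simp

section det

variable {V : Type} [Fintype V] [DecidableEq V] {M : ℕ} {y : Fin M → Bool → V}

omit [DecidableEq W] in
lemma Final_up (hy : Inj y) {ω ω2 : Finset (Sym2 V)} (h1 : ∀ i, sp ep1 y i ∈ ω) (h2 : ω2 ⊆ ω)
    (h3 : ∀ T ∈ copies H V, ¬ T ⊆ ω2) (hM : (0 : ℝ) < M) :
    ∑ v, dgE ω2 v ≤ 2 * (fK H 0 y * M + (ω ∩ offd V).card - M) := by
  have e1 := le_sup' (fun R : Finset (Fin M × Unit) =>
    ind (∀ C, Acd H (sp ep1 y) Prod.fst C → ¬ C ⊆ R) *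
      ((R.card : ℝ) / M - 0 * irr (den (sp ep1 y) R)))
    (mem_univ (univ.filter fun i => sp ep1 y i ∈ ω2))
  rw [ind_pos fun C hC h => h3 _ hC.1 (image_subset_iff.2 fun i hi => by simpa using h hi),
    zero_mul, sub_zero, one_mul, div_le_iff₀ hM] at e1
  have e2 : univ.image (sp ep1 y) ⊆ ω ∩ offd V := image_subset_iff.2 fun i _ =>
    mem_inter.2 ⟨h1 i, mem_filter.2 ⟨mem_univ _, hy.2 i.1⟩⟩
  have e3 := card_sdiff_add_card_eq_card e2
  rw [card_image_of_injective _ hy.1, card_univ, Fintype.card_prod, Fintype.card_fin,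
    Fintype.card_unit, mul_one] at e3
  have e4 : offd V ∩ ω2 ⊆ (univ.filter fun i => sp ep1 y i ∈ ω2).image (sp ep1 y) ∪
      (ω ∩ offd V) \ univ.image (sp ep1 y) := fun e he => by
    by_cases h : e ∈ univ.image (sp ep1 y)
    · obtain ⟨i, -, rfl⟩ := mem_image.1 h
      exact mem_union_left _
        (mem_image_of_mem _ (mem_filter.2 ⟨mem_univ _, (mem_inter.1 he).2⟩))
    · exact mem_union_right _
        (mem_sdiff.2 ⟨mem_inter.2 ⟨h2 (mem_inter.1 he).2, (mem_inter.1 he).1⟩, h⟩)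
  have e5 := (card_le_card e4).trans ((card_union_le _ _).trans
    (Nat.add_le_add_right card_image_le _))
  have e6 : ∑ v, dgE ω2 v = 2 * ((offd V ∩ ω2).card : ℝ) := by
    unfold dgE
    rw [handshake fun e => ind (e ∈ ω2), sum_ind, filter_mem_eq_inter]
    rfl
  rw [e6, ← e3]
  rw [← Nat.cast_le (α := ℝ)] at e5
  push_cast at e5 ⊢
  have e7 : _ ≤ fK H 0 y * M := e1
  linarith only [e5, e7]

omit [DecidableEq W] in
lemma Final_free (hy : Inj y) {R : Finset (Fin M × Unit)}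
    (h : ∀ C, Acd H (sp ep1 y) Prod.fst C → ¬ C ⊆ R) :
    ∀ T ∈ copies H V, ¬ T ⊆ R.image (sp ep1 y) := by
  intro T hT hs
  obtain ⟨C, h1, rfl⟩ := subset_image_iff.1 hs
  refine h C ⟨hT, ?_, fun i _ j _ e => Prod.ext e rfl⟩ h1
  obtain ⟨f, -, e⟩ := mem_image.1 hT
  rw [← card_image_of_injective _ hy.1, ← e, card_img]

lemma Final_deg (hy : Inj y) (R : Finset (Fin M × Unit)) (hM : (0 : ℝ) < M) (v : V) :
    2 * M / Fintype.card V * 𝔼 b, den (sp ep1 y) R (v, b) ≤ dgE (R.image (sp ep1 y)) v := by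
  have hV : (0 : ℝ) < Fintype.card V := Nat.cast_pos.2 (Fintype.card_pos_iff.2 ⟨v⟩)
  have e1 : 2 * M / Fintype.card V * 𝔼 b, den (sp ep1 y) R (v, b) =
      ∑ b, ∑ i ∈ R, hit (sp ep1 y i) (v, b) := by
    unfold den
    rw [Fintype.expect_eq_sum_div_card, ← mul_sum, Fintype.card_prod, Fintype.card_fin,
      Fintype.card_unit, mul_one]
    field_simp
  have e2 : ∀ i, ¬ sp ep1 y i = s(v, v) := fun i h =>
    hy.2 i.1 (Sym2.mk_isDiag_iff.1 (h ▸ Sym2.mk_isDiag_iff.2 rfl : (sp ep1 y i).IsDiag))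
  rw [e1, ← sum_erase _ (a := v) (sum_eq_zero fun i _ => by rw [hit, ind_neg (e2 i), zero_mul])]
  refine sum_le_sum fun b hb => ?_
  rw [sum_congr rfl fun i _ => hit_of_ne _ (e := (v, b)) (mem_erase.1 hb).1.symm, sum_ind]
  by_cases h : s(v, b) ∈ R.image (sp ep1 y)
  · rw [ind_pos h]
    exact Nat.cast_le_one.2 (card_le_one.2 fun i hi j hj =>
      hy.1 ((mem_filter.1 hi).2.trans (mem_filter.1 hj).2.symm))
  · rw [ind_neg h, filter_false_of_mem fun i hi e => h (mem_image.2 ⟨i, hi, e⟩), card_empty,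
      Nat.cast_zero]

omit [DecidableEq W] in
lemma Final_low [Nonempty V] (hy : Inj y) (hM : (0 : ℝ) < M) {K t γ z : ℝ} (hK : 0 < K)
    (ht : 0 < t) (hγ : 0 < γ) (h : t ≤ fK H K y) (hz : z < 2 * M / Fintype.card V * (t - γ)) :
    ∃ R : Finset (Fin M × Unit), (∀ T ∈ copies H V, ¬ T ⊆ R.image (sp ep1 y)) ∧
      ∑ v, ind (dgE (R.image (sp ep1 y)) v ≤ z) ≤ 1 / K / γ * Fintype.card V := by
  have hV : (0 : ℝ) < Fintype.card V := Nat.cast_pos.2 Fintype.card_pos
  obtain ⟨R, -, e⟩ := exists_mem_eq_sup' univ_nonempty fun R : Finset (Fin M × Unit) =>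
    ind (∀ C, Acd H (sp ep1 y) Prod.fst C → ¬ C ⊆ R) *
      ((R.card : ℝ) / M - K * irr (den (sp ep1 y) R))
  have h1 := h.trans_eq e
  have h2 : ∀ C, Acd H (sp ep1 y) Prod.fst C → ¬ C ⊆ R := by
    by_contra hc
    rw [ind_neg hc, zero_mul] at h1
    exact absurd ht h1.not_gt
  have e1 := ex_den (sp ep1 y) R
  rw [Fintype.card_prod, Fintype.card_fin, Fintype.card_unit, mul_one] at e1
  rw [ind_pos h2, one_mul, ← e1] at h1
  have e2 := ex_den_le (sp ep1 y) R
  have e3 : 0 ≤ irr (den (sp ep1 y) R) := expect_nonneg fun _ _ => abs_nonneg _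
  have e4 : irr (den (sp ep1 y) R) ≤ 1 / K := by
    rw [le_div_iff₀' hK]
    linarith only [ht, h1, e2]
  have e5 := (ex_markov (f := fun v => |(𝔼 b, den (sp ep1 y) R (v, b)) - 𝔼 e, den (sp ep1 y) R e|)
    (fun _ => abs_nonneg _) hγ).trans (div_le_div_of_nonneg_right e4 hγ.le)
  rw [Fintype.expect_eq_sum_div_card, div_le_iff₀ hV] at e5
  refine ⟨R, Final_free hy h2, le_trans (sum_le_sum fun v _ => ind_mono fun hv => ?_) e5⟩
  have e6 := lt_of_mul_lt_mul_left (((Final_deg hy R hM v).trans hv).trans_lt hz) (by positivity)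
  have e7 := mul_nonneg hK.le e3
  exact le_abs.2 (Or.inr (by linarith only [h1, e6, e7]))

end det

theorem fin_up (R0 : HReg p (fun n => copies H (Fin n)) (Fintype.card W) H.edgeFinset.card K0 L Λ)
    (B : HBal H) (hp : Tendsto p atTop (𝓝 0))
    (hN : Tendsto (fun n : ℕ => 2 * (N n : ℝ) / (n : ℝ) ^ 2 / p n) atTop (𝓝 1))
    (hS : ∀ η : ℝ, 0 < η → Whp p fun n ω => N n ≤ (ω ∩ offd (Fin n)).card ∧
      ((ω ∩ offd (Fin n)).card : ℝ) ≤ (1 + η) * N n)
    (hU : ∀ ε : ℝ, 0 < ε → ∀ᶠ n in atTop, 𝔼 y : Fin (N n) → Bool → Fin n, fK H 0 y ≤ a + ε)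
    {d : ℝ} (hd : a < d) :
    Tendsto (fun n => Pr (p n) (HEv (copies H (Fin n)) (d * p n * n) 0)) atTop (𝓝 1) := by
  obtain ⟨ε, hε⟩ : ∃ ε, ε = (d - a) / 4 := ⟨_, rfl⟩
  have h0 : 0 < ε := by linarith only [hd, hε]
  have l1 := hN.mul_const (d - ε)
  refine ((hS ε h0).and R0.p0 R0.p1 (Final_conc R0 B hp hN ((hS 1 one_pos).mono R0.p0 R0.p1
    (Eventually.of_forall fun _ _ h => h.1)) le_rfl h0)).mono R0.p0 R0.p1 ?_
  filter_upwards [hU ε h0, l1.eventually (gt_mem_nhds (show 1 * (d - ε) < d by linarith)),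
    hN.eventually (lt_mem_nhds zero_lt_one), R0.inf.eventually (eventually_gt_atTop 0)]
    with n e1 e2 e3 e4 ω ⟨⟨_, g1⟩, y, g2, g3, g4⟩ ω2 g5 g6 g7
  have h1 : (0 : ℝ) < N n := Nat.cast_pos.2 (Nat.pos_of_ne_zero fun h => by simp [h] at e3)
  have h2 : (0 : ℝ) < n := pos_of_mul_pos_right e4 (R0.p0 n) |> fun h => h
  have h3 : 0 < p n := pos_of_mul_pos_left e4 h2.le |> fun h => h
  have f1 := (card_nsmul_le_sum _ _ _ fun v _ => g7 v).trans (Final_up g2 g3 g5 g6 h1)
  have f2 := mul_le_mul_of_nonneg_right (show fK H 0 y ≤ a + 2 * ε by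
    linarith only [e1, g4, (abs_lt.1 (not_le.1 g4)).2]) h1.le
  rw [card_univ, Fintype.card_fin, nsmul_eq_mul] at f1
  rw [div_div, div_mul_eq_mul_div, div_lt_iff₀ (by positivity)] at e2
  have f3 : d - ε = a + 3 * ε := by linarith only [hε]
  rw [f3] at e2
  exact absurd e2 (not_lt.2 (by linarith only [e2, g1, f1, f2]))

theorem fin_low (R0 : HReg p (fun n => copies H (Fin n)) (Fintype.card W) H.edgeFinset.card K0 L Λ)
    (B : HBal H) (hp : Tendsto p atTop (𝓝 0))
    (hN : Tendsto (fun n : ℕ => 2 * (N n : ℝ) / (n : ℝ) ^ 2 / p n) atTop (𝓝 1))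
    (hS : Whp p fun n ω => N n ≤ (ω ∩ offd (Fin n)).card) (a1 : a ≤ 1)
    (hL : ∀ K ε : ℝ, 0 ≤ K → 0 < ε → ∀ᶠ n in atTop,
      a - ε ≤ 𝔼 y : Fin (N n) → Bool → Fin n, fK H K y)
    {d : ℝ} (d0 : 0 < d) (hd : d < a) (C : ℕ) :
    ∀ᶠ n in atTop, Pr (p n) (HEv (copies H (Fin n)) (d * p n * n) C) ≤ 1 / 2 := by
  obtain ⟨ε, hε⟩ : ∃ ε, ε = (a - d) / 5 := ⟨_, rfl⟩
  have h0 : 0 < ε := by linarith
  obtain ⟨η, hη, h1⟩ := hlower_core R0 (ν := a) (d := d) (b := 1 / 32) h0 (by linarith)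
    (by linarith) (by norm_num) C
  have hK : 0 < 32 / (ε * η) := by positivity
  have h4 : 0 < ε / 4 := by linarith
  have l1 := hN.mul_const (a - ε / 2 - ε / 4)
  filter_upwards [h1, hL _ _ hK.le h4,
    (whp_iff R0.p0 R0.p1).1 (Final_conc R0 B hp hN hS hK.le h4) (1 / 4) (by norm_num),
    l1.eventually (lt_mem_nhds (show a - ε < 1 * (a - ε / 2 - ε / 4) by linarith only [h0])),
    hN.eventually (lt_mem_nhds zero_lt_one), R0.inf.eventually (eventually_gt_atTop 0)]
    with n e0 e1 e5 e2 e3 e4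
  have h1 : (0 : ℝ) < N n := Nat.cast_pos.2 (Nat.pos_of_ne_zero fun h => by simp [h] at e3)
  have h2 : (0 : ℝ) < n := pos_of_mul_pos_right e4 (R0.p0 n) |> fun h => h
  have h3 : 0 < p n := pos_of_mul_pos_left e4 h2.le |> fun h => h
  have : Nonempty (Fin n) := ⟨⟨0, Nat.cast_pos.1 h2⟩⟩
  refine le_trans (Pr_mono (R0.p0 n) (R0.p1 n) fun ω hω => (em _).imp_left ?_)
    ((Pr_or_le (R0.p0 n) (R0.p1 n) _ _).trans ((add_le_add e0 e5).trans (by norm_num)))
  rintro ⟨y, g2, g3, g4⟩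
  obtain ⟨R, r1, r2⟩ := Final_low (H := H) g2 h1 (t := a - ε / 2) (z := (a - ε) * (p n * n)) hK
    (by linarith only [d0, hd, hε]) h4 (by linarith only [e1, g4, (abs_lt.1 (not_le.1 g4)).1]) (by
      rw [Fintype.card_fin]
      refine (mul_lt_mul_of_pos_right e2 e4).trans_eq ?_
      field_simp)
  refine ⟨hω, _, image_subset_iff.2 fun i _ => g3 i, r1,
    fun v => min (dgE (R.image (sp ep1 y)) v) (a * (p n * n)), fun _ => 0, ?_,
    fun v => (sub_zero _).trans_le (min_le_left _ _),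
    le_trans (sum_le_sum fun v _ => ind_mono fun hv => ?_) (r2.trans_eq ?_)⟩
  · rw [sum_eq_zero fun _ _ => zero_pow two_ne_zero]
    exact mul_nonneg (Nat.cast_nonneg _) (sum_nonneg fun _ _ => ind_nonneg _)
  · have := mul_pos h0 e4
    rw [abs_of_nonpos (sub_nonpos.2 (min_le_right _ _))] at hv
    rcases min_choice (dgE (R.image (sp ep1 y)) v) (a * (p n * n)) with h | h <;> linarith only [hv, h, this]
  · rw [Fintype.card_fin]
    field_simp
    norm_num

end Pool.Agent.Work.MP_d4a230_co.U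
end
end

-- merged part: Pool.Agent.Work.MP_d4a230_co.S.Gad
section
/-!
Gadget lemma with a foreign linearisation (h96_d4a230_sandwich.md, part 3).
-/

namespace Pool.Agent.Work.MP_d4a230_co.U

open Finset Filter Topology Pool.Agent.Work.MP_07f1b5_pr
open scoped BigOperators

variable {W : Type} [Fintype W] [DecidableEq W] {H : SimpleGraph W} [DecidableRel H.Adj]
  {W2 : Type} [Fintype W2] [DecidableEq W2] {K : SimpleGraph W2} [DecidableRel K.Adj]

section gad

variable {α β : Type} [Fintype α] [DecidableEq α] [Fintype β] [DecidableEq β]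
  {ep : β → α × α} {n M : ℕ → ℕ} {τ : ℕ → ℝ}

variable (H K ep) in
/-- The gadget inequality for `H`, linearised by the rooted densities of `K`. -/
def GadJ (π : Finset β → ℝ) (L C0 ε : ℝ) : Prop :=
  ∀ (n : ℕ) (w : Sym2 (Fin n) → ℝ), 0 < n → Unit01 w → ∃ c, 0 ≤ c ∧ c ≤ C0 ∧
    (𝔼 z : α → Fin n, Gad_s K ep π (L * c) w z) +
      L * Fintype.card β / H.edgeFinset.card * tH H w ≤
      L * c * Fintype.card β * tH K w + ε * Fintype.card β

lemma Gad_maxJ {V G : Type} [Fintype V] [DecidableEq V] [Fintype G] [DecidableEq G] [Nonempty V]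
    {π : Finset β → ℝ} (p0 : ∀ C, 0 ≤ π C) (pe : π ∅ = 0) (m : ℕ) {δ L : ℝ} (hδ : 0 < δ)
    (hL : 0 ≤ L) {l : CI V m → ℝ} (l0 : ∀ c, 0 ≤ l c) (l1 : ∀ c, l c ≤ L)
    (hΩ : Real.log (2 * Fintype.card (CI V m)) ≤ δ ^ 2 * Fintype.card G) :
    ∃ err : (G → α → V) → ℝ, 𝔼 y, err y ≤ 2 * δ * (L * Fintype.card β + 1) * Fintype.card G ∧
      ∀ y c, ∑ g, Gad_s K ep π (l c) (ck m c) (y g) ≤
        Fintype.card G * (𝔼 z, Gad_s K ep π (l c) (ck m c) z) + err y := by
  obtain ⟨err, -, e1, e2⟩ := maxineq (fun (c : CI V m) (y : G → α → V) =>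
    ∑ g, Gad_s K ep π (l c) (ck m c) (y g)) (c := L * Fintype.card β + 1) (by positivity) hδ
    (fun c y i a => by
      have h1 := Gad_bd (H := K) (ep := ep) (l0 c) p0 pe (ck_unit m c) a
      have h2 := Gad_bd (H := K) (ep := ep) (l0 c) p0 pe (ck_unit m c) (y i)
      have h3 := mul_le_mul_of_nonneg_right (l1 c) (Nat.cast_nonneg (α := ℝ) (Fintype.card β))
      rw [← sum_sub_distrib, sum_eq_single i (fun g _ hg => by
        rw [Function.update_of_ne hg, sub_self]) (fun h => absurd (mem_univ i) h),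
        Function.update_self, abs_le]
      constructor <;> linarith [h1.1, h1.2, h2.1, h2.2]) hΩ
  refine ⟨err, e1, fun y c => ?_⟩
  have h1 := (abs_le.1 (e2 y c)).2
  rw [expect_sum_comm, sum_congr rfl fun g _ => (ex_update g _).trans (c := 𝔼 z, Gad_s K ep π (l c)
    (ck m c) z) (by simp only [Function.update_self, Fintype.expect_const]), sum_const, card_univ,
    nsmul_eq_mul] at h1
  linarith

theorem gadgetJ (R : Reg H ep n M τ) {L lam θ ε ε2 pm B0 C0 : ℝ} (hL : 0 ≤ L)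
    (hr : Tendsto (fun j => rate H (n j) (M j * Fintype.card β) (τ j)) atTop (𝓝 L)) (hl : 0 ≤ lam)
    (h0 : 0 ≤ θ) (h1 : θ < 1) (hε : 0 < ε) (hε2 : 0 ≤ ε2) (π : Finset β → ℝ) (p0 : ∀ C, 0 ≤ π C)
    (p1 : ∀ C, π C ≤ 1) (pe : π ∅ = 0) (hpm : ∀ C, π C ≤ pm)
    (hB : ∑ C, π C ≤ B0 * Fintype.card β) (hK : 0 < K.edgeFinset.card) (hC0 : 0 ≤ C0)
    (hG : GadJ H K ep π L C0 ε2) : ∀ᶠ j in atTop,
    M j * FV θ π id (fug lam) - (ε + (ε2 + pm * B0) / (1 - θ)) * (M j * Fintype.card β : ℕ) ≤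
      FE H (Fin (n j)) θ (τ j) ep (fug lam : Finset (Fin (M j) × β) → ℝ) := by
  have hk : 0 < H.edgeFinset.card := lt_of_lt_of_le (by norm_num) (R.bal.h3.trans R.bal.hk)
  have hk1 : (1 : ℝ) ≤ H.edgeFinset.card := Nat.one_le_cast.2 hk
  have hb := RegK_b R
  have hθ : 0 < 1 - θ := sub_pos.2 h1
  have hB0 : 0 ≤ B0 := nonneg_of_mul_nonneg_left ((sum_nonneg fun C _ => p0 C).trans hB)
    (one_pos.trans_le hb)
  have hp : 0 ≤ pm := pe.symm.trans_le (hpm ∅)
  have hL1 := mul_nonneg hL hC0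
  obtain ⟨δ, hδ⟩ : ∃ δ, δ = ε * (1 - θ) / 2 / (L + 3 * (L * C0) + 5) := ⟨_, rfl⟩
  have d0 : 0 < δ := hδ ▸ by positivity
  have d1 : δ * (L + 3 * (L * C0) + 5) = ε * (1 - θ) / 2 := hδ ▸ div_mul_cancel₀ _ (by positivity)
  obtain ⟨C, C0', hC⟩ := acd_total R
  obtain ⟨R0, hR0⟩ := ((((tendsto_pow_atTop_nhds_zero_of_lt_one h0 h1).comp
    (tendsto_add_atTop_nat 1)).mul_const (C + B0)).eventually_le_const
    (show 0 * (C + B0) < ε * (1 - θ) / 2 by rw [zero_mul]; positivity)).exists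
  obtain ⟨m, hm⟩ := (model1 R d0).exists
  filter_upwards [hC, hm, R.pos, R.t01, R.lin (4 * m ^ 2 + 3) (pow_pos d0 2),
    hr.eventually_le_const (lt_add_of_pos_right L d0), hr.eventually_le_const (lt_add_one L),
    (eventually_all_finset (range R0)).2 fun r _ => stat R r.succ_pos hl h0 h1 d0]
    with j a1 ⟨e1, e10, e11, e12⟩ a2 a3 a4 a5 a6 a7
  have : Nonempty (Fin (n j)) := ⟨⟨0, a2.1⟩⟩
  choose cf f0 f1 f2 using fun c : CI (Fin (n j)) m => hG _ _ a2.1 (ck_unit m c)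
  obtain ⟨e2, e21, e22⟩ := Gad_maxJ (K := K) (ep := ep) (G := Fin (M j)) (V := Fin (n j)) p0 pe m
    d0 hL1 (fun c => mul_nonneg hL (f0 c)) (fun c => mul_le_mul_of_nonneg_left (f1 c) hL)
    ((card_CI m).trans (by simpa only [Fintype.card_fin] using a4))
  have M0 : (0 : ℝ) < M j := Nat.cast_pos.2 (a2.1.trans_le a2.2)
  have cN : Fintype.card (Fin (M j) × β) = M j * Fintype.card β := by
    rw [Fintype.card_prod, Fintype.card_fin]
  obtain ⟨N, hN⟩ : ∃ N : ℝ, N = M j * Fintype.card β := ⟨_, rfl⟩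
  have cN' : ((M j * Fintype.card β : ℕ) : ℝ) = N := by rw [hN, Nat.cast_mul]
  have MN : M j ≤ N := hN ▸ le_mul_of_one_le_right M0.le hb
  have N0 : 0 < N := M0.trans_le MN
  rw [Fintype.card_fin] at e21 e22
  have key := fi_ge (H := H) (V := Fin (n j)) (π := fun c : Fin (M j) × Finset β => π c.2)
    (sup := fun c => c.2.image fun b => (c.1, b))
    ⟨hl, h0, h1, a3.1, a3.2, fun c => p0 _, fun c => p1 _, fun c => hpm _, a1⟩ R0
    (δ := (ε2 + ε * (1 - θ) / 2) * N) (by positivity) fun t t0 t1 r hr => by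
      refine (Ex_mono (fun c => ⟨mul_nonneg (sub_pos.2 t1).le (p0 _),
        mul_le_one₀ (sub_le_self _ t0.le) (p0 _) (p1 _)⟩) fun A => ?_).trans_eq (Ex_const _ _)
      have hU := good_UV hl h0 h1 (fun c : Fin (M j) × Finset β => c.2.image fun b => (c.1, b)) A
      have u0 := mul_nonneg t0.le a3.1
      have u1 := mul_le_one₀ t1.le a3.1 a3.2
      have b1 := (abs_le.1 (a7 r (mem_range.2 hr) t _ (fun y T => bk m (den (sp ep y) T)) t0.le t1
        hU fun y T => ck_unit _ _)).2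
      have b2 := (EG_mono (H := H) (r := r + 1) (ep := ep) h0 h1 u0 u1 hU fun y _ σ _ =>
        e12 y (cap σ)).trans_eq (EG_pos h0 h1 hU e1)
      have b0 := (EG_pos (H := H) (τ := t * τ j) (ep := ep) (V := Fin (n j)) (r := r + 1) h0 h1 hU
        fun _ => 0).symm.trans_le (EG_mono h0 h1 u0 u1 hU fun y _ σ _ => cut_nonneg fun e =>
          den (sp ep y) (cap σ) e - ord (bk m (den (sp ep y) (cap σ))) e)
      have b3 := (EG_mono (H := H) (r := r + 1) (ep := ep) (F := fun y _ σ =>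
          rate H (n j) (M j * Fintype.card β) (τ j) * N / H.edgeFinset.card *
            tH H (bk m (den (sp ep y) (cap σ))) - ∑ c : Fin (M j) × Finset β,
              π c.2 * ind ((c.2.image fun b => (c.1, b)) ⊆ cap σ))
          h0 h1 u0 u1 hU fun y _ σ _ => ?_).trans_eq
        (EG_pos h0 h1 hU fun y => (δ + ε2) * N + (e2 y + L * C0 * N * e1 y))
      · rw [EG_sub, EG_mul, expect_add_distrib, expect_add_distrib, ← mul_expect _ e1,
          Fintype.expect_const] at b3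
        rw [Fintype.expect_const] at b0
        rw [cN', Nat.succ_eq_add_one] at b1
        have c1 := mul_le_mul (mul_le_mul_of_nonneg_right a6 N0.le) (b2.trans e11) b0
          (by positivity)
        have c2 := mul_le_mul_of_nonneg_left e11 (mul_nonneg hL1 N0.le)
        have c3 : 2 * δ * (L * C0 * Fintype.card β + 1) * M j ≤ 2 * δ * (L * C0 + 1) * N := by
          rw [hN]
          nlinarith [mul_le_mul_of_nonneg_left hb (mul_pos d0 M0).le]
        rw [← d1]
        dsimp only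
        linarith
      · have c1 := Gad_det (H := K) (ep := ep) (π := π) hK (cN ▸ Nat.cast_pos.1 (cN' ▸ N0))
          (mul_nonneg hL (f0 (best m (den (sp ep y) (cap σ))))) y (cap σ)
          (ck_unit m (best m (den (sp ep y) (cap σ))))
        have c2 := e22 y (best m (den (sp ep y) (cap σ)))
        have c3 := mul_le_mul_of_nonneg_left (f2 (best m (den (sp ep y) (cap σ)))) M0.le
        have c4 := mul_le_mul (mul_le_mul_of_nonneg_right (mul_le_mul_of_nonneg_left
          (f1 (best m (den (sp ep y) (cap σ)))) hL) N0.le) (e12 y (cap σ)) (cut_nonneg _)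
          (mul_nonneg hL1 N0.le)
        have c5 := tH_unit H (ck_unit m (best m (den (sp ep y) (cap σ))))
        rw [cN, cN'] at c1
        unfold bk at c4 ⊢
        generalize tH H (ck m (best m (den (sp ep y) (cap σ)))) = x at c3 c5 ⊢
        have c6 : rate H (n j) (M j * Fintype.card β) (τ j) * N / H.edgeFinset.card * x ≤
            L * N / H.edgeFinset.card * x + δ * N := by
          refine (mul_le_mul_of_nonneg_right (div_le_div_of_nonneg_right
            (mul_le_mul_of_nonneg_right a5 N0.le) (Nat.cast_nonneg _)) c5.1).trans ?_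
          rw [add_mul, add_div, add_mul]
          exact add_le_add le_rfl ((mul_le_of_le_one_right (by positivity) c5.2).trans
            (div_le_self (by positivity) hk1))
        rw [hN] at c1 c4 c6 ⊢
        simp only [div_eq_mul_inv] at c3 c6 ⊢
        linarith
  rw [fi_zero, fi_one, fv_prod hl h0 h1, Fintype.card_fin] at key
  refine le_trans (sub_le_sub_left ?_ _) key
  have s1 : ∑ c : Fin (M j) × Finset β, π c.2 ≤ B0 * N := by
    rw [Fintype.sum_prod_type' fun _ C => π C, sum_const, card_univ, Fintype.card_fin, nsmul_eq_mul,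
      hN, mul_left_comm]
    exact mul_le_mul_of_nonneg_left hB M0.le
  have s2 := mul_le_mul_of_nonneg_left (add_le_add (mul_le_mul_of_nonneg_left MN C0') s1)
    (pow_nonneg h0 (R0 + 1))
  have s3 := mul_le_mul_of_nonneg_right hR0 N0.le
  have s4 := mul_le_mul_of_nonneg_left s1 hp
  rw [ierr, cN', ← add_div, div_le_iff₀ hθ, mul_right_comm, add_mul ε, div_mul_cancel₀ _ hθ.ne']
  simp only [Function.comp_apply] at s3
  linarith

end gad

variable {n N : ℕ → ℕ} {τ : ℕ → ℝ} {L lam θ : ℝ}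

theorem lowerJ (R : Reg H ep1 n N τ) (hL : 0 ≤ L)
    (hr : Tendsto (fun j => rate H (n j) (N j) (τ j)) atTop (𝓝 L)) (hl : 0 ≤ lam) (h0 : 0 ≤ θ)
    (h1 : θ < 1) {α β : Type} [Fintype α] [DecidableEq α] [Fintype β] [DecidableEq β] [Nonempty β]
    (ep : β → α × α) (hne : ∀ j, (ep j).1 ≠ (ep j).2)
    (hs : (Function.Injective fun j => s((ep j).1, (ep j).2)) ∨ Tendsto τ atTop (𝓝 0))
    {ε ε2 pm B0 C0 : ℝ} (hε : 0 < ε) (hε2 : 0 ≤ ε2) (π : Finset β → ℝ) (p0 : ∀ C, 0 ≤ π C)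
    (p1 : ∀ C, π C ≤ 1) (pe : π ∅ = 0) (hpm : ∀ C, π C ≤ pm)
    (hB : ∑ C, π C ≤ B0 * Fintype.card β) (hK : 0 < K.edgeFinset.card) (hC0 : 0 ≤ C0)
    (hG : GadJ H K ep π L C0 ε2) : ∀ᶠ j in atTop,
    (N j : ℝ) / Fintype.card β * FV θ π id (fug lam) - (ε + (ε2 + pm * B0) / (1 - θ)) * N j ≤
      FE H (Fin (n j)) θ (τ j) ep1 (fug lam : Finset (Fin (N j) × Unit) → ℝ) := by
  have hb : 0 < Fintype.card β := Fintype.card_pos
  have hb' : (0 : ℝ) < Fintype.card β := by exact_mod_cast hb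
  have hθ : 0 < 1 - θ := by linarith
  have R2 : Reg H ep n (fun j => N j / Fintype.card β) τ := by
    refine R.change hne hs ?_
    filter_upwards [R.top.eventually_ge_atTop (Fintype.card β)] with j hj
    have e1 := Nat.div_mul_le_self (N j) (Fintype.card β)
    have e2 := Nat.lt_div_mul_add (a := N j) hb
    have e3 : Fintype.card β ≤ N j / Fintype.card β * Fintype.card β :=
      Nat.le_mul_of_pos_left _ (Nat.div_pos hj hb)
    simp only [Fintype.card_unit, mul_one]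
    omega
  have hr2 := rate_div R.top hb hr
  have hε4 : 0 < ε / 4 := by linarith
  have hc : 0 ≤ (ε2 + pm * B0) / (1 - θ) := by
    have a1 : 0 ≤ pm := pe ▸ hpm ∅
    have a2 : 0 ≤ B0 := nonneg_of_mul_nonneg_left ((sum_nonneg fun C _ => p0 C).trans hB) hb'
    positivity
  have hf := fv_bd (I := β) hl h0 h1 (p := π) (fun C => ⟨p0 C, p1 C⟩) id
    (fun C hC => by have : C = ∅ := hC; rw [this, pe])
  filter_upwards [gadgetJ R2 hL hr2 hl h0 h1 hε4 hε2 π p0 p1 pe hpm hB hK hC0 hG,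
    free R2 hl h0 h1 hε4, R.t01, R.pos, hr2.eventually_le_const (lt_add_one L),
    Chain_big R.top ((L + 1) * aut H * Fintype.card β * H.edgeFinset.card / (1 - θ)) hε4,
    Chain_big R.top (Fintype.card β * Real.log (1 + lam)) hε4] with j g1 g2 g3 g4 g5 g6 g7
  have e1 := Nat.div_mul_le_self (N j) (Fintype.card β)
  have g8 := regroup (β := β) R.bal hl h0 h1 g3.1 g3.2 g4.1 e1
  have e2 : ((N j / Fintype.card β * Fintype.card β : ℕ) : ℝ) ≤ N j := by exact_mod_cast e1
  have e3 : (N j : ℝ) / Fintype.card β ≤ (N j / Fintype.card β : ℕ) + 1 := by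
    rw [div_le_iff₀ hb']
    have : N j ≤ (N j / Fintype.card β + 1) * Fintype.card β := by
      have := Nat.lt_div_mul_add (a := N j) hb
      rw [add_mul]; omega
    exact_mod_cast this
  have e4 : rate H (n j) (N j / Fintype.card β * Fintype.card β) (τ j) * aut H * Fintype.card β *
      H.edgeFinset.card / (1 - θ) ≤
      (L + 1) * aut H * Fintype.card β * H.edgeFinset.card / (1 - θ) := by
    have := RegK_aut (H := H)
    gcongr
  have e5 := mul_le_mul_of_nonneg_right e3 hf.1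
  have e6 := mul_le_mul_of_nonneg_left e2 hc
  have e7 := mul_le_mul_of_nonneg_left e2 hε4.le
  have e8 := (abs_le.1 g2).2
  have e9 := hf.2
  linarith

end Pool.Agent.Work.MP_d4a230_co.U
end

-- merged part: Pool.Agent.Work.MP_d4a230_co.S.Chain
section
/-!
The two gadget inequalities and the lower bound chain (h96_d4a230_sandwich.md, part 3).
-/

namespace Pool.Agent.Work.MP_d4a230_co.U

open Finset Filter Topology Pool.Agent.Work.MP_07f1b5_pr
open scoped BigOperators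

variable {W : Type} [Fintype W] [DecidableEq W] {H : SimpleGraph W} [DecidableRel H.Adj]
  {W2 : Type} [Fintype W2] [DecidableEq W2] {K : SimpleGraph W2} [DecidableRel K.Adj]
  {W3 : Type} [Fintype W3] [DecidableEq W3] {F : SimpleGraph W3} [DecidableRel F.Adj]
  {W4 : Type} [Fintype W4] [DecidableEq W4] {K2 : SimpleGraph W4} [DecidableRel K2.Adj]

variable (H K) in
/-- The `H`-norm is at most the `K`-norm. -/
def Lo : Prop :=
  ∀ (n : ℕ) (w : Sym2 (Fin n) → ℝ) (ν : ℝ), 0 < n → (∀ e, 0 ≤ w e) → 0 ≤ ν →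
    tH K w ≤ ν ^ K.edgeFinset.card → tH H w ≤ ν ^ H.edgeFinset.card

variable (K) in
/-- The `K`-norm is at most the `L^k`-norm. -/
def Lp (k : ℕ) : Prop :=
  ∀ (n : ℕ) (w : Sym2 (Fin n) → ℝ) (ν : ℝ), 0 < n → (∀ e, 0 ≤ w e) → 0 ≤ ν →
    𝔼 e, ord w e ^ k ≤ ν ^ k → tH K w ≤ ν ^ K.edgeFinset.card

variable (H) in
/-- The Sidorenko inequality. -/
def Sid : Prop :=
  ∀ (n : ℕ) (w : Sym2 (Fin n) → ℝ), (∀ e, 0 ≤ w e) → (𝔼 e, ord w e) ^ H.edgeFinset.card ≤ tH H w

lemma S_young {k κ : ℕ} (hk : 0 < k) (h : κ ≤ k) {ν μ : ℝ} (hν : 0 ≤ ν) (hμ : 0 ≤ μ) :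
    k * (ν ^ (k - κ) * μ ^ κ) ≤ κ * μ ^ k + (k - κ) * ν ^ k := by
  have k0 : (0 : ℝ) < k := Nat.cast_pos.2 hk
  have e := Real.geom_mean_le_arith_mean2_weighted (w₁ := ((k - κ : ℕ) : ℝ) / k) (w₂ := κ / k)
    (by positivity) (by positivity) (pow_nonneg hν k) (pow_nonneg hμ k)
    (by rw [← add_div, ← Nat.cast_add, Nat.sub_add_cancel h, div_self k0.ne'])
  rw [← Real.rpow_natCast_mul hν, ← Real.rpow_natCast_mul hμ, mul_div_cancel₀ _ k0.ne',
    mul_div_cancel₀ _ k0.ne', Real.rpow_natCast, Real.rpow_natCast, Nat.cast_sub h] at e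
  refine (mul_le_mul_of_nonneg_left e k0.le).trans_eq ?_
  field_simp
  ring

lemma S_root {x : ℝ} (hx : 0 ≤ x) {k : ℕ} (hk : 0 < k) : ∃ ν : ℝ, 0 ≤ ν ∧ ν ^ k = x :=
  ⟨x ^ (k : ℝ)⁻¹, Real.rpow_nonneg hx _, Real.rpow_inv_natCast_pow hx hk.ne'⟩

lemma S_psi (hT : Tangent K) (κ0 : 0 < K.edgeFinset.card) {k : ℕ} (hk : 2 ≤ k) (d : Lp K k) {n : ℕ}
    (hn : 0 < n) {w : Sym2 (Fin n) → ℝ} (hw : ∀ e, 0 ≤ w e) {ν c : ℝ} (hν : 0 < ν) (hc : 0 ≤ c)
    (h1 : tH K w ≤ ν ^ K.edgeFinset.card) (h2 : c * ν ^ K.edgeFinset.card = ν ^ k) :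
    𝔼 e, ord (fun p => (c * psi K w p) ^ ((k : ℝ) / ((k : ℝ) - 1))) e ≤ ν ^ k := by
  have k2 : (2 : ℝ) ≤ k := by exact_mod_cast hk
  have k1 : (0 : ℝ) < (k : ℝ) - 1 := by linarith
  have κ1 : (1 : ℝ) ≤ K.edgeFinset.card := Nat.one_le_cast.2 κ0
  have h0 : ∀ p, 0 ≤ c * psi K w p := fun p => mul_nonneg hc (psi_nonneg K hw p)
  have u0 : ∀ p, 0 ≤ (c * psi K w p) ^ ((k : ℝ) - 1)⁻¹ := fun p => Real.rpow_nonneg (h0 p) _
  have e1 : ∀ p, (c * psi K w p) ^ ((k : ℝ) - 1)⁻¹ * (c * psi K w p) =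
      (c * psi K w p) ^ ((k : ℝ) / ((k : ℝ) - 1)) := fun p => by
    rw [← Real.rpow_add_one' (h0 p) (by positivity)]
    refine congrArg _ ?_
    field_simp
    ring
  have e2 : ∀ p, ((c * psi K w p) ^ ((k : ℝ) - 1)⁻¹) ^ k =
      (c * psi K w p) ^ ((k : ℝ) / ((k : ℝ) - 1)) := fun p => by
    rw [← Real.rpow_mul_natCast (h0 p), inv_mul_eq_div]
  obtain ⟨ξ, ξ0, hξ⟩ := S_root (x := 𝔼 e, ord (fun p => (c * psi K w p) ^
    ((k : ℝ) / ((k : ℝ) - 1))) e) (expect_nonneg fun _ _ => Real.rpow_nonneg (h0 _) _)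
    (show 0 < k by omega)
  rw [← hξ]
  rcases ξ0.eq_or_lt with rfl | ξ1
  · exact pow_le_pow_left₀ le_rfl hν.le k
  have v0 : ∀ p, 0 ≤ ν / ξ * (c * psi K w p) ^ ((k : ℝ) - 1)⁻¹ := fun p =>
    mul_nonneg (by positivity) (u0 p)
  have h3 := mul_le_mul_of_nonneg_left ((hT n w _ hw v0).trans (d n _ ν hn v0 hν.le (le_of_eq (by
    simp only [ord, mul_pow, e2] at hξ ⊢
    rw [← mul_expect, ← hξ, div_pow, div_mul_cancel₀ _ (pow_pos ξ1 k).ne'])))) hc
  have h4 : c * 𝔼 e, ord (fun p => ν / ξ * (c * psi K w p) ^ ((k : ℝ) - 1)⁻¹) e * ord (psi K w) e =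
      ν / ξ * ξ ^ k := by
    rw [hξ, mul_expect, mul_expect]
    refine expect_congr rfl fun e _ => ?_
    simp only [ord, ← e1]
    ring
  have h5 := mul_le_mul_of_nonneg_left (mul_le_mul_of_nonneg_left h1 hc) (sub_nonneg.2 κ1)
  rw [mul_sub, mul_left_comm, h4, h2] at h3
  rw [h2] at h5
  have h6 : ν / ξ * ξ ^ k ≤ ν ^ k := le_of_mul_le_mul_left (by linarith) (one_pos.trans_le κ1)
  obtain ⟨j, rfl⟩ : ∃ j, k = j + 1 := ⟨k - 1, by omega⟩
  rw [pow_succ' ξ, ← mul_assoc, div_mul_cancel₀ _ ξ1.ne', pow_succ', mul_le_mul_iff_right₀ hν,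
    pow_le_pow_iff_left₀ ξ0 hν.le (by omega)] at h6
  exact pow_le_pow_left₀ ξ0 h6 _

theorem star2J (hT : Tangent K) (κ0 : 0 < K.edgeFinset.card) (hk : 2 ≤ H.edgeFinset.card)
    (d1 : Lo H K) (d2 : Lp K H.edgeFinset.card) {L e : ℝ} (hL : 0 ≤ L) (e0 : 0 < e) (e1 : e ≤ 1)
    {μ : ℕ} (hμ : H.edgeFinset.card ≤ μ) :
    GadJ H K (epP (Fin μ)) (fun C => L / ((μ - 1).choose (H.edgeFinset.card - 1) : ℝ) *
      ind (C.card = H.edgeFinset.card)) L (2 ^ H.edgeFinset.card / e ^ K.edgeFinset.card)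
      (L * H.edgeFinset.card / μ + L * (2 ^ H.edgeFinset.card * e)) := by
  intro n w hn hw
  have : Nonempty (Fin n) := ⟨⟨0, hn⟩⟩
  have k0 : (0 : ℝ) < H.edgeFinset.card := Nat.cast_pos.2 (by omega)
  have m0 : (0 : ℝ) < μ := Nat.cast_pos.2 (by omega)
  have k1 : 0 ≤ L * μ * ((H.edgeFinset.card : ℝ) - 1) / H.edgeFinset.card :=
    div_nonneg (mul_nonneg (by positivity) (sub_nonneg.2 (Nat.one_le_cast.2 (by omega)))) k0.le
  have T := tH_unit K hw
  have ep := pow_pos e0 K.edgeFinset.card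
  obtain ⟨ν, ν0, hν⟩ := S_root (add_nonneg T.1 ep.le) κ0
  have ν1 : e ≤ ν := (pow_le_pow_iff_left₀ e0.le ν0 κ0.ne').1 (by linarith [T.1])
  have ν2 : ν ≤ 2 := (pow_le_pow_iff_left₀ ν0 zero_le_two κ0.ne').1 (by
    linarith [T.2, pow_le_one₀ (n := K.edgeFinset.card) e0.le e1,
      le_self_pow₀ (one_le_two (α := ℝ)) κ0.ne'])
  have ν3 := e0.trans_le ν1
  obtain ⟨c, hc⟩ : ∃ c, c = ν ^ H.edgeFinset.card / ν ^ K.edgeFinset.card := ⟨_, rfl⟩
  have c0 : 0 ≤ c := hc ▸ by positivity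
  have c1 : c * ν ^ K.edgeFinset.card = ν ^ H.edgeFinset.card :=
    hc ▸ div_mul_cancel₀ _ (pow_pos ν3 _).ne'
  have c2 : c * e ^ K.edgeFinset.card ≤ 2 ^ H.edgeFinset.card * e := by
    obtain ⟨j, hj⟩ : ∃ j, H.edgeFinset.card = j + 1 := ⟨H.edgeFinset.card - 1, by omega⟩
    rw [hc, div_mul_eq_mul_div, mul_div_assoc, ← div_pow, hj]
    refine (mul_le_mul_of_nonneg_left (pow_le_of_le_one (by positivity)
      (div_le_one_of_le₀ ν1 ν0) κ0.ne') (by positivity)).trans ?_
    rw [pow_succ, mul_assoc, mul_div_cancel₀ _ ν3.ne']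
    exact mul_le_mul_of_nonneg_right ((pow_le_pow_left₀ ν0 ν2 j).trans
      (pow_le_pow_right₀ one_le_two j.le_succ)) e0.le
  have t1 : tH K w ≤ ν ^ K.edgeFinset.card := by linarith
  refine ⟨c, c0, hc ▸ div_le_div₀ (by positivity) (pow_le_pow_left₀ ν0 ν2 _) ep
    (pow_le_pow_left₀ e0.le ν1 _), ?_⟩
  rw [Fintype.card_fin]
  have a1 : 𝔼 z : Bool → Fin n, Gad_s K (epP (Fin μ)) (fun C => L / ((μ - 1).choose
      (H.edgeFinset.card - 1) : ℝ) * ind (C.card = H.edgeFinset.card)) (L * c) w z ≤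
      L * μ * ((H.edgeFinset.card : ℝ) - 1) / H.edgeFinset.card * ν ^ H.edgeFinset.card +
        L * H.edgeFinset.card / μ * μ := by
    refine (ex_mono (g := fun z : Bool → Fin n => L * μ * ((H.edgeFinset.card : ℝ) - 1) /
      H.edgeFinset.card * (c * psi K w s(z false, z true)) ^
        ((H.edgeFinset.card : ℝ) / ((H.edgeFinset.card : ℝ) - 1)) + L * H.edgeFinset.card / μ * μ)
      fun z => sup'_le _ _ fun R _ => ?_).trans ?_
    · have h1 := mul_le_mul_of_nonneg_left (choose_ge (k := H.edgeFinset.card) (a := R.card)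
        (by omega) hμ (by simpa using card_le_univ R)) hL
      have h2 := mul_le_mul_of_nonneg_left (young (k := H.edgeFinset.card) (x := R.card / μ) hk
        (by positivity) (mul_nonneg c0 (psi_nonneg K (fun e => (hw e).1) s(z false, z true))))
        (show 0 ≤ L * μ / H.edgeFinset.card by positivity)
      rw [sum_unif, div_mul_eq_mul_div, mul_div_assoc L]
      change L * c * ∑ j ∈ R, psi K w s(z false, z true) - _ ≤ _
      rw [sum_const, nsmul_eq_mul]
      refine (sub_le_sub_left h1 _).trans (Eq.trans_le (b := _ + L * H.edgeFinset.card) ?_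
        ((add_le_add_left h2 _).trans_eq ?_)) <;> field_simp
      ring
    · rw [expect_add_distrib, Fintype.expect_const, ← mul_expect, ex_ord (by decide) fun p =>
        (c * psi K w p) ^ ((H.edgeFinset.card : ℝ) / ((H.edgeFinset.card : ℝ) - 1))]
      exact add_le_add_left (mul_le_mul_of_nonneg_left
        (S_psi hT κ0 hk d2 hn (fun e => (hw e).1) ν3 c0 t1 c1) k1) _
  have a2 := mul_le_mul_of_nonneg_left (d1 n w ν hn (fun e => (hw e).1) ν0 t1)
    (show 0 ≤ L * μ / H.edgeFinset.card by positivity)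
  have a3 := mul_le_mul_of_nonneg_left c2 (mul_nonneg hL m0.le)
  have a4 : L * μ * ((H.edgeFinset.card : ℝ) - 1) / H.edgeFinset.card =
    L * μ - L * μ / H.edgeFinset.card := by field_simp
  rw [a4, ← c1, hν] at a1
  rw [← c1, hν] at a2
  linarith

theorem star1J {k0 : ℕ} (B : KBal F k0) (hT : Tangent K) (hk : F.edgeFinset.card = H.edgeFinset.card)
    (κ0 : 0 < K.edgeFinset.card) (hκ : K.edgeFinset.card ≤ H.edgeFinset.card) (d1 : Lo H K)
    (d2 : Lo K F) {L q0 ε : ℝ} (hL : 0 ≤ L) (hq : 0 < q0) (hε : 0 < ε) :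
    ∀ᶠ s : ℕ in atTop, ∀ (b : ℕ) (τ : ℝ) (ep : Fin b → Fin s × Fin s), q0 * (s : ℝ) ^ 2 ≤ 2 * b →
      0 ≤ τ → rate F s b τ = L → (∀ j, (ep j).1 ≠ (ep j).2) →
      (Function.Injective fun j => s((ep j).1, (ep j).2)) →
      GadJ H K ep (fun C => τ * ind (Acd F (fun j => s((ep j).1, (ep j).2)) id C)) L 1 ε ∧
        ∑ C : Finset (Fin b), τ * ind (Acd F (fun j => s((ep j).1, (ep j).2)) id C) ≤
          L / q0 ^ F.edgeFinset.card * b := by
  have v3 := B.h3
  have k3 := v3.trans B.hk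
  have k1 : (1 : ℝ) ≤ F.edgeFinset.card := Nat.one_le_cast.2 (by omega)
  have κ1 : (1 : ℝ) ≤ K.edgeFinset.card := Nat.one_le_cast.2 κ0
  have v0 : 0 < Fintype.card W2 := by
    obtain ⟨e, -⟩ := card_pos.1 κ0
    exact Fintype.card_pos_iff.2 ⟨e.out.1⟩
  have a0 : 0 < aut F := one_pos.trans_le one_le_aut
  obtain ⟨δ, hδ, hd⟩ : ∃ δ : ℝ, 0 < δ ∧ L * (2 * δ * Fintype.card W2) ≤ ε / 2 :=
    ⟨ε / (4 * (L * Fintype.card W2 + 1)), by positivity, by
      rw [show L * (2 * (ε / (4 * (L * Fintype.card W2 + 1))) * Fintype.card W2) =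
        ε / 2 * (L * Fintype.card W2 / (L * Fintype.card W2 + 1)) by field_simp; ring]
      exact mul_le_of_le_one_right (by positivity) (div_le_one_of_le₀ (by linarith) (by positivity))⟩
  filter_upwards [eventually_gt_atTop 0,
    (tendsto_natCast_atTop_atTop.const_mul_atTop (pow_pos hδ 2)).eventually_ge_atTop (Real.log 2),
    (tendsto_const_div_atTop_nhds_zero_nat (L * (2 * (Fintype.card W2 : ℝ) ^ 2 +
      2 * Fintype.card W2 + (Fintype.card W3 : ℝ) ^ 2 / q0 ^ F.edgeFinset.card))).eventually_le_const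
      (half_pos hε)] with s s0 hs hs' b τ ep hb hτ hr hne hi
  have : Nonempty (Fin s) := ⟨⟨0, s0⟩⟩
  have s1 : (0 : ℝ) < s := Nat.cast_pos.2 s0
  have b0 : (0 : ℝ) < b := by linarith [mul_pos hq (pow_pos s1 2)]
  have hq' : q0 ≤ 2 * b / (s : ℝ) ^ 2 := (le_div_iff₀ (by positivity)).2 hb
  have h1 : τ * (s : ℝ) ^ Fintype.card W3 / aut F =
      L * b / F.edgeFinset.card / (2 * b / (s : ℝ) ^ 2) ^ F.edgeFinset.card := by
    rw [← hr, rate, ← pow_sub_mul_pow (s : ℝ) (show 2 ≤ Fintype.card W3 by omega),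
      ← pow_sub_one_mul (show F.edgeFinset.card ≠ 0 by omega) (2 * b / (s : ℝ) ^ 2)]
    field_simp
  have h2 : τ * (s : ℝ) ^ Fintype.card W3 / aut F ≤ L / q0 ^ F.edgeFinset.card * b := by
    rw [h1, div_mul_eq_mul_div]
    exact div_le_div₀ (by positivity) (div_le_self (by positivity) k1) (by positivity)
      (pow_le_pow_left₀ hq.le hq' _)
  have h3 := fun S => Star_cop (V := Fin s) B S
  simp only [Fintype.card_fin] at h3
  refine ⟨fun n w hn hw => ?_, le_trans ?_ h2⟩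
  · have : Nonempty (Fin n) := ⟨⟨0, hn⟩⟩
    have T := tH_unit K hw
    obtain ⟨ν, ν0, hν⟩ := S_root T.1 κ0
    have ν1 : ν ≤ 1 := (pow_le_one_iff_of_nonneg ν0 κ0.ne').1 (hν ▸ T.2)
    obtain ⟨c, hc⟩ : ∃ c, c = ν ^ (F.edgeFinset.card - K.edgeFinset.card) := ⟨_, rfl⟩
    have c0 : 0 ≤ c := hc ▸ pow_nonneg ν0 _
    have c1 : c ≤ 1 := hc ▸ pow_le_one₀ ν0 ν1
    have c2 : c * tH K w = ν ^ F.edgeFinset.card := by rw [hc, ← hν, pow_sub_mul_pow ν (hk ▸ hκ)]
    have Lc := mul_nonneg hL c0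
    obtain ⟨κ, hκ'⟩ : ∃ κ : ℝ, κ = (K.edgeFinset.card : ℝ)⁻¹ := ⟨_, rfl⟩
    obtain ⟨k, hk'⟩ : ∃ k : ℝ, k = (F.edgeFinset.card : ℝ)⁻¹ := ⟨_, rfl⟩
    have κ2 : 0 ≤ κ ∧ κ ≤ 1 := hκ' ▸ ⟨by positivity, inv_le_one_of_one_le₀ κ1⟩
    have k4 : 0 ≤ L * c * b * (1 - κ) := mul_nonneg (by positivity) (sub_nonneg.2 κ2.2)
    refine ⟨c, c0, c1, ?_⟩
    rw [Fintype.card_fin]
    refine (add_le_add_left (ex_mono (g := fun z : Fin s → Fin n => L * c * ∑ j,
      |psi K w s(z (ep j).1, z (ep j).2) - psi K (fun p => w (p.map z)) s((ep j).1, (ep j).2)| +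
      L * c * b * (1 - κ) * tH K (fun p => w (p.map z)) +
      (L / q0 ^ F.edgeFinset.card * b * ((Fintype.card W3 : ℝ) ^ 2 / s) +
        L * b * (κ - k) * ν ^ F.edgeFinset.card))
      fun z => sup'_le _ _ fun R _ => ?_) _).trans ?_
    · have P0 := hq.trans_le hq'
      have i0 : ∀ p, 0 ≤ ind (p ∈ R.image fun j => s((ep j).1, (ep j).2)) := fun _ => ind_nonneg _
      obtain ⟨μ, μ0, hμ⟩ := S_root (x := tH F fun p => ind (p ∈ R.image fun j =>
        s((ep j).1, (ep j).2))) (expect_nonneg fun _ _ => prod_nonneg fun _ _ => i0 _)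
        (show 0 < F.edgeFinset.card by omega)
      have e0 := (Star_tan hT hi (fun j => mt Sym2.mk_isDiag_iff.1 (hne j)) R
        (w := fun p => w (p.map z)) fun _ => (hw _).1).trans (div_le_div_of_nonneg_right
          (d2 s _ μ s0 i0 μ0 hμ.ge) (by positivity))
      rw [Fintype.card_fin, ← div_pow] at e0
      have e1 := mul_le_mul_of_nonneg_left e0 (show 0 ≤ L * c * b * κ from
        mul_nonneg (by positivity) κ2.1)
      have e5 := mul_le_mul_of_nonneg_left (S_young (show 0 < F.edgeFinset.card by omega) (hk ▸ hκ)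
        ν0 (div_nonneg μ0 P0.le)) (show 0 ≤ L * b * κ * k by rw [hκ', hk']; positivity)
      have e2 := mul_le_mul_of_nonneg_left (h3 (R.image fun j => s((ep j).1, (ep j).2))).1
        (show 0 ≤ τ / aut F by positivity)
      have e3 := mul_le_mul_of_nonneg_right h2 (show 0 ≤ (Fintype.card W3 : ℝ) ^ 2 / s by positivity)
      have e4 : ∑ j ∈ R, psi K w (sl ep z j) -
          ∑ j ∈ R, psi K (fun p => w (p.map z)) s((ep j).1, (ep j).2) ≤ ∑ j, |psi K w
            s(z (ep j).1, z (ep j).2) - psi K (fun p => w (p.map z)) s((ep j).1, (ep j).2)| := by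
        rw [← sum_sub_distrib]
        exact (sum_le_sum fun j _ => le_abs_self _).trans
          (sum_le_univ_sum_of_nonneg fun _ => abs_nonneg _)
      rw [show ∀ x t : ℝ, L * c * b * κ * (K.edgeFinset.card * (x / b) -
        (K.edgeFinset.card - 1) * t) = L * c * x - L * c * b * (1 - κ) * t from fun _ _ => by
          rw [hκ']; field_simp] at e1
      rw [← hc, show ∀ x y t : ℝ, L * b * κ * k * (K.edgeFinset.card * x +
        (F.edgeFinset.card - K.edgeFinset.card) * t) = L * b * k * x + L * b * (κ - k) * t from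
          fun _ _ _ => by rw [hκ', hk']; field_simp, show ∀ x : ℝ, L * b * κ * k *
          (F.edgeFinset.card * (c * x)) = L * c * b * κ * x from fun _ => by
            rw [hk']; field_simp] at e5
      · rw [← Star_cnt hi, ← mul_assoc, div_mul_cancel₀ _ a0.ne', show ∀ x : ℝ, τ / aut F *
          (s ^ Fintype.card W3 * x - (Fintype.card W3 : ℝ) ^ 2 * s ^ (Fintype.card W3 - 1)) =
          x * (τ * s ^ Fintype.card W3 / aut F) - τ * s ^ Fintype.card W3 / aut F *
            ((Fintype.card W3 : ℝ) ^ 2 / s) from fun _ => by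
            rw [← pow_sub_one_mul (show Fintype.card W3 ≠ 0 by omega) (s : ℝ)]
            field_simp, ← hμ] at e2
        have e6 : μ ^ F.edgeFinset.card * (τ * s ^ Fintype.card W3 / aut F) =
            L * b * k * (μ / (2 * b / (s : ℝ) ^ 2)) ^ F.edgeFinset.card := by
          rw [h1, hk', div_pow μ]
          ring
        simp only [mul_assoc τ, ← mul_sum]
        linarith [mul_le_mul_of_nonneg_left e4 Lc]
      · exact 0
    · rw [expect_add_distrib, expect_add_distrib, Fintype.expect_const, ← mul_expect, ← mul_expect,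
        expect_sum_comm]
      have e1 := mul_le_mul (mul_le_of_le_one_right hL c1) (sum_le_card_nsmul univ _ _ fun j _ =>
        Star_psi (H := K) hw hδ v0 (by rwa [Fintype.card_fin]) (hne j))
        (sum_nonneg fun _ _ => expect_nonneg fun _ _ => abs_nonneg _) hL
      have e2 := mul_le_mul_of_nonneg_left (Star_tH (ι := Fin s) (H := K) hw) k4
      have e3 := mul_le_mul_of_nonneg_right (show L * c * b * (1 - κ) ≤ L * b from
        (mul_le_of_le_one_right (by positivity) (sub_le_self _ κ2.1)).trans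
          (mul_le_mul_of_nonneg_right (mul_le_of_le_one_right hL c1) b0.le))
        (show 0 ≤ (Fintype.card W2 : ℝ) ^ 2 / s by positivity)
      have e4 := mul_le_mul_of_nonneg_right (add_le_add hd hs') b0.le
      have e5 := mul_le_mul_of_nonneg_left (d1 n w ν hn (fun e => (hw e).1) ν0 hν.ge)
        (show 0 ≤ L * b / H.edgeFinset.card by positivity)
      rw [card_univ, Fintype.card_fin, Fintype.card_fin, nsmul_eq_mul] at e1
      rw [Fintype.card_fin] at e2
      rw [show ∀ x : ℝ, (x + L * (2 * (Fintype.card W2 : ℝ) ^ 2 + 2 * Fintype.card W2 +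
        (Fintype.card W3 : ℝ) ^ 2 / q0 ^ F.edgeFinset.card) / s) * b = x * b +
        L * b * (2 * ((Fintype.card W2 : ℝ) ^ 2 / s) + 2 * ((Fintype.card W2 : ℝ) / s)) +
        L / q0 ^ F.edgeFinset.card * b * ((Fintype.card W3 : ℝ) ^ 2 / s) from fun _ => by ring] at e4
      rw [← hk, ← c2, div_eq_mul_inv (L * b), ← hk'] at e5 ⊢
      linarith
  · have e := Star_cnt (H := F) hi univ
    simp only [ind_pos (subset_univ _), mul_one] at e
    rw [← mul_sum, e, mul_div_assoc]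
    exact mul_le_mul_of_nonneg_left ((le_div_iff₀' a0).2 (h3 _).2) hτ

end Pool.Agent.Work.MP_d4a230_co.U
end

-- merged part: Pool.Agent.Work.MP_d4a230_co.S.Norm
section
/-!
Norm inequalities for bipartite graphs (paper: h96_d4a230_sandwich.md in the team store, part 1).
-/

namespace Pool.Agent.Work.MP_d4a230_co.U

open Finset Filter Topology Pool.Agent.Work.MP_07f1b5_pr
open scoped BigOperators

lemma S_amgm {B : Type} (s : Finset B) {r : ℕ} (hs : s.card ≤ r) (hr : 0 < r) {z : B → ℝ}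
    (hz : ∀ b, 0 ≤ z b) : ∏ b ∈ s, z b ≤ 1 + ∑ b ∈ s, (z b ^ r - 1) / r := by
  have r0 : (0 : ℝ) < r := Nat.cast_pos.2 hr
  have h := Real.geom_mean_le_arith_mean_weighted (insertNone s)
    (fun o => o.elim (1 - s.card / r) fun _ => (r : ℝ)⁻¹) (fun o => o.elim 1 fun b => z b ^ r)
    (fun o _ => by
      cases o with
      | none => exact sub_nonneg.2 (div_le_one_of_le₀ (Nat.cast_le.2 hs) r0.le)
      | some b => exact inv_nonneg.2 r0.le)
    (by rw [sum_insertNone]; simp [div_eq_mul_inv])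
    (fun o _ => by
      cases o with
      | none => exact zero_le_one
      | some b => exact pow_nonneg (hz b) _)
  rw [prod_insertNone, sum_insertNone] at h
  simp only [Option.elim_none, Option.elim_some, Real.one_rpow, one_mul, mul_one,
    Real.pow_rpow_inv_natCast (hz _) hr.ne'] at h
  refine h.trans_eq ?_
  simp only [div_eq_inv_mul, mul_sub, sum_sub_distrib, sum_const, nsmul_eq_mul]
  ring

lemma S_hold {B X : Type} [Fintype X] [Nonempty X] (s : Finset B) {r : ℕ} (hs : s.card ≤ r)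
    (hr : 0 < r) {h : B → X → ℝ} (h0 : ∀ b x, 0 ≤ h b x) :
    𝔼 x, ∏ b ∈ s, h b x ≤ ∏ b ∈ s, (𝔼 x, h b x ^ r) ^ (r : ℝ)⁻¹ := by
  have e0 : ∀ b, 0 ≤ 𝔼 x, h b x ^ r := fun b => expect_nonneg fun x _ => pow_nonneg (h0 b x) _
  by_cases hz : ∃ b ∈ s, 𝔼 x, h b x ^ r = 0
  · obtain ⟨b, hb, e⟩ := hz
    rw [expect_eq_zero_iff_of_nonneg fun x _ => pow_nonneg (h0 b x) _] at e
    rw [expect_congr rfl fun x _ => prod_eq_zero hb (pow_eq_zero_iff hr.ne' |>.1 (e x (mem_univ x))),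
      expect_const_zero]
    exact prod_nonneg fun b _ => Real.rpow_nonneg (e0 b) _
  have e1 : ∀ b ∈ s, 0 < (𝔼 x, h b x ^ r) ^ (r : ℝ)⁻¹ := fun b hb =>
    Real.rpow_pos_of_pos ((e0 b).lt_of_ne' fun e => hz ⟨b, hb, e⟩) _
  rw [← div_le_one (prod_pos e1), expect_div]
  refine (ex_mono fun x => (prod_div_distrib _ _).symm.trans_le (S_amgm s hs hr fun b =>
    div_nonneg (h0 b x) (Real.rpow_nonneg (e0 b) _))).trans_eq ?_
  rw [expect_add_distrib, Fintype.expect_const, expect_sum_comm, sum_eq_zero, add_zero]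
  intro b hb
  simp only [div_pow, Real.rpow_inv_natCast_pow (e0 b) hr.ne']
  rw [← expect_div, expect_sub_distrib, ← expect_div, Fintype.expect_const,
    div_self fun e => hz ⟨b, hb, e⟩, sub_self, zero_div]

section finner

variable {V W : Type} [Fintype V] [Nonempty V] [Fintype W] [DecidableEq W]

theorem finner {B : Type} (s : Finset B) {r : ℕ} (hr : 0 < r) (U : Finset W) :
    ∀ (f : B → (W → V) → ℝ) (S : B → Finset W), (∀ b x, 0 ≤ f b x) → (∀ b ∈ s, S b ⊆ U) →
      (∀ b ∈ s, ∀ x y, (∀ u ∈ S b, x u = y u) → f b x = f b y) →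
      (∀ u, (s.filter fun b => u ∈ S b).card ≤ r) →
      𝔼 x, ∏ b ∈ s, f b x ≤ ∏ b ∈ s, (𝔼 x, f b x ^ r) ^ (r : ℝ)⁻¹ := by
  induction U using Finset.induction_on with
  | empty =>
    intro f S h0 h1 h2 _
    refine ex_le (prod_nonneg fun b _ => Real.rpow_nonneg (expect_nonneg fun x _ =>
      pow_nonneg (h0 b x) _) _) fun x => le_of_eq (prod_congr rfl fun b hb => ?_)
    rw [expect_congr rfl fun y _ => by rw [h2 b hb y x fun u hu => absurd (h1 b hb hu) (by simp)],
      Fintype.expect_const, Real.pow_rpow_inv_natCast (h0 b x) hr.ne']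
  | insert u U hu ih =>
    intro f S h0 h1 h2 h3
    have e0 : ∀ b x, 0 ≤ 𝔼 a, f b (Function.update x u a) ^ r := fun b x =>
      expect_nonneg fun a _ => pow_nonneg (h0 b _) _
    have h := ih (fun b x => (𝔼 a, f b (Function.update x u a) ^ r) ^ (r : ℝ)⁻¹)
      (fun b => (S b).erase u) (fun b x => Real.rpow_nonneg (e0 b x) _)
      (fun b hb => subset_insert_iff.1 (h1 b hb))
      (fun b hb x y e => congrArg (· ^ (r : ℝ)⁻¹) (expect_congr rfl fun a _ => by
        rw [h2 b hb _ (Function.update y u a) fun v hv => by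
          by_cases c : v = u
          · rw [c, Function.update_self, Function.update_self]
          · rw [Function.update_of_ne c, Function.update_of_ne c, e v (mem_erase.2 ⟨c, hv⟩)]]))
      (fun v => (card_le_card (monotone_filter_right _ fun b _ e => mem_of_mem_erase e)).trans
        (h3 v))
    simp only [Real.rpow_inv_natCast_pow (e0 _ _) hr.ne'] at h
    rw [ex_update u, prod_congr rfl fun b _ => by rw [ex_update u fun x => f b x ^ r]]
    refine (ex_mono fun x => ?_).trans h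
    have e1 : ∀ b ∈ s.filter fun b => ¬ u ∈ S b, ∀ a, f b (Function.update x u a) = f b x :=
      fun b hb a => h2 b (mem_filter.1 hb).1 _ _ fun v hv =>
        Function.update_of_ne (fun c : v = u => (mem_filter.1 hb).2 (c ▸ hv)) _ _
    simp only [← prod_filter_mul_prod_filter_not s fun b => u ∈ S b]
    rw [expect_congr rfl fun a _ => by rw [prod_congr rfl fun b hb => e1 b hb a], ← expect_mul]
    refine mul_le_mul (S_hold _ (h3 u) hr fun b a => h0 b _) (le_of_eq (prod_congr rfl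
      fun b hb => ?_)) (prod_nonneg fun b _ => h0 b x)
      (prod_nonneg fun b _ => Real.rpow_nonneg (e0 b x) _)
    simp only [e1 b hb, Fintype.expect_const, Real.pow_rpow_inv_natCast (h0 b x) hr.ne']

omit [Nonempty V] in
lemma ex_int (D : Finset W) (g : W → (W → V) → V → ℝ)
    (hg : ∀ u ∈ D, ∀ v ∈ D, ∀ x a, g u (Function.update x v a) = g u x) :
    ∀ Φ : (W → V) → ℝ, (∀ v ∈ D, ∀ x a, Φ (Function.update x v a) = Φ x) →
      𝔼 x, Φ x * ∏ u ∈ D, g u x (x u) = 𝔼 x, Φ x * ∏ u ∈ D, 𝔼 a, g u x a := by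
  induction D using Finset.induction_on with
  | empty => intro Φ _; simp only [prod_empty]
  | insert u D hu ih =>
    intro Φ hΦ
    simp only [prod_insert hu, ← mul_assoc]
    rw [ih (fun a ha b hb => hg a (mem_insert_of_mem ha) b (mem_insert_of_mem hb))
      (fun x => Φ x * g u x (x u)) fun v hv x a => by
        rw [hΦ v (mem_insert_of_mem hv), hg u (mem_insert_self _ _) v (mem_insert_of_mem hv),
          Function.update_of_ne (ne_of_mem_of_not_mem hv hu).symm], ex_update u]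
    refine expect_congr rfl fun x _ => ?_
    rw [mul_expect, expect_mul]
    refine expect_congr rfl fun a _ => ?_
    rw [hΦ u (mem_insert_self _ _), hg u (mem_insert_self _ _) u (mem_insert_self _ _),
      Function.update_self, prod_congr rfl fun v hv => by
        rw [hg v (mem_insert_of_mem hv) u (mem_insert_self _ _)]]

/-- Codegree of the vertices in `S`. -/
noncomputable def cod (w : Sym2 V → ℝ) (x : W → V) (S : Finset W) : ℝ :=
  𝔼 y, ∏ a ∈ S, w s(x a, y)

/-- Density of the complete bipartite graph as a moment. -/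
noncomputable def mom (w : Sym2 V → ℝ) (s t : ℕ) : ℝ :=
  𝔼 y : Fin t → V, (𝔼 u, ∏ j, w s(u, y j)) ^ s

/-- The norm of the complete bipartite graph. -/
noncomputable def nr (w : Sym2 V → ℝ) (s t : ℕ) : ℝ := mom w s t ^ ((s * t : ℕ) : ℝ)⁻¹

variable {w : Sym2 V → ℝ} {s t : ℕ}

omit [Nonempty V] in
lemma mom_nonneg (hw : ∀ e, 0 ≤ w e) (s t : ℕ) : 0 ≤ mom w s t :=
  expect_nonneg fun _ _ => pow_nonneg (expect_nonneg fun _ _ => prod_nonneg fun _ _ => hw _) _

omit [Nonempty V] in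
lemma nr_nonneg (hw : ∀ e, 0 ≤ w e) (s t : ℕ) : 0 ≤ nr w s t :=
  Real.rpow_nonneg (mom_nonneg hw s t) _

omit [Nonempty V] in
lemma nr_pow (hw : ∀ e, 0 ≤ w e) (hs : 0 < s) (ht : 0 < t) : nr w s t ^ (s * t) = mom w s t :=
  Real.rpow_inv_natCast_pow (mom_nonneg hw s t) (Nat.mul_pos hs ht).ne'

omit [Nonempty V] [Fintype W] [DecidableEq W] in
lemma cod_exp (x : W → V) (S : Finset W) (t : ℕ) :
    cod w x S ^ t = 𝔼 y : Fin t → V, ∏ a ∈ S, ∏ j, w s(x a, y j) := by
  rw [expect_congr rfl fun y _ => Finset.prod_comm,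
    ex_prod_coord fun (_ : Fin t) y => ∏ a ∈ S, w s(x a, y), prod_const, card_univ,
    Fintype.card_fin, cod]

lemma cod_pow (S : Finset W) (t : ℕ) : 𝔼 x : W → V, cod w x S ^ t = mom w S.card t := by
  simp only [cod_exp]
  rw [expect_comm]
  refine expect_congr rfl fun y _ => ?_
  have h := ex_int (V := V) S (fun _ _ u => ∏ j, w s(u, y j)) (fun _ _ _ _ _ _ => rfl) (fun _ => 1)
    fun _ _ _ _ => rfl
  simp only [one_mul, prod_const, Fintype.expect_const] at h
  exact h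

lemma mom_le (hw : ∀ e, 0 ≤ w e) (hs : 0 < s) {d : ℕ} (hd : d ≤ s) :
    mom w d t ^ (t : ℝ)⁻¹ ≤ nr w s t ^ d := by
  have h := S_hold (range d) (by rwa [card_range]) hs
    (h := fun _ (y : Fin t → V) => 𝔼 u, ∏ j, w s(u, y j))
    fun _ _ => expect_nonneg fun _ _ => prod_nonneg fun _ _ => hw _
  simp only [prod_const, card_range] at h
  refine (Real.rpow_le_rpow (mom_nonneg hw d t) h (by positivity)).trans_eq ?_
  have h0 := mom_nonneg hw s t
  change ((mom w s t ^ (s : ℝ)⁻¹) ^ d) ^ (t : ℝ)⁻¹ = _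
  rw [nr, ← Real.rpow_mul_natCast h0, ← Real.rpow_mul h0, ← Real.rpow_mul_natCast h0, Nat.cast_mul,
    mul_inv, mul_right_comm]

theorem bt_le (hw : ∀ e, 0 ≤ w e) (hs : 0 < s) (ht : 0 < t) (B : Finset W) (N : W → Finset W)
    (h1 : ∀ b ∈ B, (N b).card ≤ s) (h2 : ∀ a, (B.filter fun b => a ∈ N b).card ≤ t) :
    𝔼 x : W → V, ∏ b ∈ B, cod w x (N b) ≤ nr w s t ^ ∑ b ∈ B, (N b).card := by
  refine (finner B ht univ (fun b x => cod w x (N b)) N
    (fun _ _ => expect_nonneg fun _ _ => prod_nonneg fun _ _ => hw _) (fun _ _ => subset_univ _)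
    (fun b _ x y e => expect_congr rfl fun _ _ => prod_congr rfl fun a ha => by rw [e a ha])
    h2).trans ?_
  rw [← prod_pow_eq_pow_sum]
  refine prod_le_prod (fun b _ => Real.rpow_nonneg (expect_nonneg fun _ _ => pow_nonneg
    (expect_nonneg fun _ _ => prod_nonneg fun _ _ => hw _) _) _) fun b hb => ?_
  rw [cod_pow]
  exact mom_le hw hs (h1 b hb)

lemma S_jens {X : Type} [Fintype X] {q φ : X → ℝ} (hq : ∀ z, 0 ≤ q z) (h1 : 𝔼 z, q z = 1)
    (hφ : ∀ z, 0 < φ z) {M : ℝ} (hM : 0 < M) (h : 𝔼 z, q z * φ z = M) :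
    𝔼 z, q z * Real.log (φ z) ≤ Real.log M := by
  refine (ex_mono (g := fun z => M⁻¹ * (q z * φ z) + (Real.log M - 1) * q z) fun z => ?_).trans_eq ?_
  · have e := Real.log_le_sub_one_of_pos (div_pos (hφ z) hM)
    rw [Real.log_div (hφ z).ne' hM.ne', div_eq_inv_mul] at e
    nlinarith [mul_le_mul_of_nonneg_left e (hq z)]
  · rw [expect_add_distrib, ← mul_expect, ← mul_expect, h, h1, inv_mul_cancel₀ hM.ne']
    ring

lemma S_pos {X : Type} [Fintype X] [Nonempty X] {f : X → ℝ} (h : ∀ x, 0 < f x) : 0 < 𝔼 x, f x :=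
  expect_pos (fun x _ => h x) univ_nonempty

lemma bt_pos (hw : ∀ e, 0 < w e) (hs : 0 < s) (ht : 0 < t) {A B C : Finset W} (N : W → Finset W)
    (hC : C ⊆ B) (hc : C.card = t) (h1 : ∀ b ∈ C, N b = A) (h2 : ∀ b ∈ B, N b ⊆ A)
    (h3 : s * B.card ≤ ∑ b ∈ B, (N b).card) :
    nr w s t ^ ∑ b ∈ B, (N b).card ≤ 𝔼 x : W → V, ∏ b ∈ B, cod w x (N b) := by
  obtain ⟨p, hp⟩ : ∃ p : V → (Fin t → V) → ℝ, p = fun u y => ∏ j, w s(u, y j) := ⟨_, rfl⟩
  obtain ⟨ω, hω⟩ : ∃ ω : (Fin t → V) → ℝ, ω = fun y => 𝔼 u, p u y := ⟨_, rfl⟩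
  have p0 : ∀ u y, 0 < p u y := fun u y => hp ▸ prod_pos fun _ _ => hw _
  have ω0 : ∀ y, 0 < ω y := fun y => hω ▸ S_pos fun u => p0 u y
  have c0 : ∀ (x : W → V) S, 0 < cod w x S := fun x S => S_pos fun _ => prod_pos fun _ _ => hw _
  have hT : mom w s t = 𝔼 y, ω y ^ s := by rw [hω, hp, mom]
  have T0 : 0 < mom w s t := hT ▸ S_pos fun y => pow_pos (ω0 y) _
  have ce : ∀ (x : W → V) S, cod w x S ^ t = 𝔼 y, ∏ a ∈ S, p (x a) y := fun x S => by
    rw [hp, cod_exp]
  have key : ∀ S ⊆ A, ∀ (y : Fin t → V), 𝔼 x : W → V, (cod w x S ^ t)⁻¹ * ∏ a ∈ A, p (x a) y =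
      ω y ^ (A.card - S.card) * 𝔼 x : W → V, (cod w x S ^ t)⁻¹ * ∏ a ∈ S, p (x a) y := by
    intro S hS y
    have h := ex_int (V := V) (A \ S) (fun _ _ u => p u y) (fun _ _ _ _ _ _ => rfl)
      (fun x => (cod w x S ^ t)⁻¹ * ∏ a ∈ S, p (x a) y) fun v hv x a => by
        have e : ∀ u ∈ S, Function.update x v a u = x u := fun u hu =>
          Function.update_of_ne (ne_of_mem_of_not_mem hu (mem_sdiff.1 hv).2) _ _
        rw [prod_congr rfl fun u hu => by rw [e u hu], cod,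
          expect_congr rfl fun _ _ => prod_congr rfl fun u hu => by rw [e u hu], ← cod]
    simp only [mul_assoc, mul_comm (∏ a ∈ S, p _ y), prod_sdiff hS] at h
    rw [h, mul_expect, prod_const, card_sdiff_of_subset hS, hω]
    exact expect_congr rfl fun x _ => by ring
  obtain ⟨q, hq⟩ : ∃ q : (W → V) × (Fin t → V) → ℝ, q = fun z =>
    ω z.2 ^ s / (mom w s t * ω z.2 ^ A.card) * ∏ a ∈ A, p (z.1 a) z.2 := ⟨_, rfl⟩
  have q0 : ∀ z, 0 ≤ q z := fun z => by
    rw [hq]
    exact mul_nonneg (div_pos (pow_pos (ω0 _) _) (mul_pos T0 (pow_pos (ω0 _) _))).le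
      (prod_pos fun _ _ => p0 _ _).le
  have q1 : 𝔼 z, q z = 1 := by
    rw [hq, ex_prod, expect_comm, ← div_self T0.ne']
    nth_rw 2 [hT]
    rw [expect_div]
    refine expect_congr rfl fun y _ => ?_
    have h := key ∅ (empty_subset _) y
    simp only [cod, prod_empty, Fintype.expect_const, one_pow, inv_one, one_mul, mul_one, card_empty,
      Nat.sub_zero] at h
    have := ω0 y
    simp only [← mul_expect, h]
    field_simp
  obtain ⟨Λ, hΛ⟩ : ∃ Λ, Λ = 𝔼 z, q z * Real.log (ω z.2) := ⟨_, rfl⟩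
  have s2 : ∀ S ⊆ A, Real.log (mom w s t) + (S.card - s) * Λ ≤
      t * 𝔼 z, q z * Real.log (cod w z.1 S) := by
    intro S hS
    have h := S_jens q0 q1 (φ := fun z => mom w s t * ω z.2 ^ S.card / (ω z.2 ^ s * cod w z.1 S ^ t))
      (fun z => div_pos (mul_pos T0 (pow_pos (ω0 _) _)) (mul_pos (pow_pos (ω0 _) _)
        (pow_pos (c0 _ _) _))) one_pos (by
        rw [hq, ex_prod, expect_comm, expect_congr rfl (g := fun y => 𝔼 x : W → V,
          (cod w x S ^ t)⁻¹ * ∏ a ∈ S, p (x a) y) fun y _ => ?_, expect_comm,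
          expect_congr rfl (g := fun _ => 1) fun x _ => by
            rw [← mul_expect, ← ce, inv_mul_cancel₀ (pow_pos (c0 _ _) _).ne'], Fintype.expect_const]
        have e := ω0 y
        rw [← mul_right_inj' (pow_pos e (A.card - S.card)).ne', ← key S hS, mul_expect]
        refine expect_congr rfl fun x _ => ?_
        have := c0 x S
        dsimp only
        rw [← pow_sub_mul_pow (ω y) (card_le_card hS)]
        field_simp)
    rw [Real.log_one, expect_congr rfl (g := fun z => Real.log (mom w s t) * q z + (S.card - s) *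
      (q z * Real.log (ω z.2)) - t * (q z * Real.log (cod w z.1 S))) fun z _ => by
        rw [Real.log_div (mul_pos T0 (pow_pos (ω0 _) _)).ne' (mul_pos (pow_pos (ω0 _) _)
          (pow_pos (c0 _ _) _)).ne', Real.log_mul T0.ne' (pow_pos (ω0 _) _).ne',
          Real.log_mul (pow_pos (ω0 _) _).ne' (pow_pos (c0 _ _) _).ne']
        simp only [Real.log_pow]
        ring, expect_sub_distrib, expect_add_distrib, ← mul_expect, ← mul_expect, ← mul_expect, q1,
      ← hΛ] at h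
    linarith
  have M0 : 0 < 𝔼 x : W → V, ∏ b ∈ B, cod w x (N b) := S_pos fun x => prod_pos fun _ _ => c0 _ _
  have s1 := S_jens q0 q1 (φ := fun z => mom w s t * ω z.2 ^ A.card / ω z.2 ^ s *
    ∏ b ∈ B \ C, cod w z.1 (N b)) (fun z => mul_pos (div_pos (mul_pos T0 (pow_pos (ω0 _) _))
      (pow_pos (ω0 _) _)) (prod_pos fun _ _ => c0 _ _)) M0 (by
      rw [hq, ex_prod]
      refine expect_congr rfl fun x _ => ?_
      rw [← prod_sdiff hC, prod_congr rfl fun b (hb : b ∈ C) => by rw [h1 b hb], prod_const, hc, ce,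
        mul_expect]
      refine expect_congr rfl fun y _ => ?_
      have := ω0 y
      field_simp)
  rw [expect_congr rfl (g := fun z => Real.log (mom w s t) * q z + (A.card - s) *
      (q z * Real.log (ω z.2)) + ∑ b ∈ B \ C, q z * Real.log (cod w z.1 (N b))) fun z _ => by
        rw [Real.log_mul (div_pos (mul_pos T0 (pow_pos (ω0 _) _)) (pow_pos (ω0 _) _)).ne'
          (prod_pos fun _ _ => c0 _ _).ne', Real.log_div (mul_pos T0 (pow_pos (ω0 _) _)).ne'
          (pow_pos (ω0 _) _).ne', Real.log_mul T0.ne' (pow_pos (ω0 _) _).ne',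
          Real.log_prod fun _ _ => (c0 _ _).ne', ← mul_sum]
        simp only [Real.log_pow]
        ring, expect_add_distrib, expect_add_distrib, ← mul_expect, ← mul_expect, q1, ← hΛ,
    expect_sum_comm] at s1
  have s3 := s2 ∅ (empty_subset _)
  simp only [cod, prod_empty, Fintype.expect_const, Real.log_one, mul_zero, card_empty,
    Nat.cast_zero] at s3
  have s4 := sum_le_sum fun b (hb : b ∈ B \ C) => s2 (N b) (h2 b (mem_sdiff.1 hb).1)
  rw [← mul_sum, sum_add_distrib, ← sum_mul, sum_sub_distrib, sum_const, sum_const, nsmul_eq_mul,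
    nsmul_eq_mul, ← Nat.cast_sum] at s4
  have e1 : ∑ b ∈ B, (N b).card = ∑ b ∈ B \ C, (N b).card + t * A.card := by
    rw [← sum_sdiff hC, sum_congr rfl fun b (hb : b ∈ C) => by rw [h1 b hb], sum_const, hc,
      smul_eq_mul]
  have e2 : B.card = (B \ C).card + t := by rw [← hc, card_sdiff_add_card_eq_card hC]
  have s0 : (0 : ℝ) < s := Nat.cast_pos.2 hs
  have t0 : (0 : ℝ) < t := Nat.cast_pos.2 ht
  rw [nr, ← Real.log_le_log_iff (pow_pos (Real.rpow_pos_of_pos T0 _) _) M0, Real.log_pow,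
    Real.log_rpow T0, ← mul_assoc, ← div_eq_mul_inv, div_mul_eq_mul_div, div_le_iff₀ (by positivity)]
  rw [e2, ← Nat.cast_le (α := ℝ)] at h3
  rw [e1] at h3 ⊢
  push_cast at h3 s4 ⊢
  have a1 := mul_le_mul_of_nonneg_left s1 (mul_pos s0 t0).le
  have a2 := mul_le_mul_of_nonneg_left s4 s0.le
  have a3 := mul_le_mul_of_nonneg_left s3 (sub_nonneg.2 h3)
  linarith

theorem bt_ge (hw : ∀ e, 0 ≤ w e) (hs : 0 < s) (ht : 0 < t) {A B C : Finset W} (N : W → Finset W)
    (hC : C ⊆ B) (hc : C.card = t) (h1 : ∀ b ∈ C, N b = A) (h2 : ∀ b ∈ B, N b ⊆ A)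
    (h3 : s * B.card ≤ ∑ b ∈ B, (N b).card) :
    nr w s t ^ ∑ b ∈ B, (N b).card ≤ 𝔼 x : W → V, ∏ b ∈ B, cod w x (N b) := by
  have hc2 : Continuous fun ε : ℝ => 𝔼 x : W → V, ∏ b ∈ B, cod (fun e => w e + ε) x (N b) := by
    simp only [cod, Fintype.expect_eq_sum_div_card]
    fun_prop
  have h := (hc2.tendsto 0).mono_left (nhdsWithin_le_nhds (s := Set.Ioi 0))
  simp only [add_zero] at h
  refine ge_of_tendsto h (eventually_nhdsWithin_of_forall fun ε (hε : 0 < ε) => le_trans ?_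
    (bt_pos (fun e => add_pos_of_nonneg_of_pos (hw e) hε) hs ht N hC hc h1 h2 h3))
  refine pow_le_pow_left₀ (nr_nonneg hw s t) (Real.rpow_le_rpow (mom_nonneg hw s t) (ex_mono
    fun y => pow_le_pow_left₀ (expect_nonneg fun _ _ => prod_nonneg fun _ _ => hw _) (ex_mono
      fun u => prod_le_prod (fun _ _ => hw _) fun _ _ => le_add_of_nonneg_right hε.le) _)
    (by positivity)) _

end finner

end Pool.Agent.Work.MP_d4a230_co.U
end

-- merged part: Pool.Agent.Work.MP_d4a230_co.S.Tree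
section
/-!
The Sidorenko inequality for graphs with a strong tree decomposition (Conlon, Kim, Lee, Lee), by
gluing branching random walks.
-/

namespace Pool.Agent.Work.MP_d4a230_co.U

open Finset Filter Topology Pool.Agent.Work.MP_07f1b5_pr
open scoped BigOperators

variable {V W : Type} [Fintype V] [Fintype W] [DecidableEq W] {A B S X Y Z : Finset W}
  {f g : (W → V) → ℝ} {H : SimpleGraph W} [DecidableRel H.Adj] {μ : V → ℝ} {w : Sym2 V → ℝ}

/-- Dependence on the coordinates in `A` only. -/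
def Dep (A : Finset W) (f : (W → V) → ℝ) : Prop := ∀ x y, (∀ u ∈ A, x u = y u) → f x = f y

omit [Fintype V] [Fintype W] [DecidableEq W] in
lemma Dep.mono (h : Dep A f) (hA : A ⊆ B) : Dep B f := fun x y e => h x y fun u hu => e u (hA hu)

omit [Fintype V] [Fintype W] [DecidableEq W] in
lemma Dep.op (h : Dep A f) (h2 : Dep A g) (F : ℝ → ℝ → ℝ) : Dep A fun x => F (f x) (g x) :=
  fun x y e => congrArg₂ F (h x y e) (h2 x y e)

/-- Conditional expectation. -/
noncomputable def cnd (S : Finset W) (g : (W → V) → ℝ) (x : W → V) : ℝ :=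
  𝔼 y, g (S.piecewise x y)

lemma cnd_dep : Dep S (cnd S g) := fun _ _ e =>
  expect_congr rfl fun _ _ => congrArg g (piecewise_congr _ e fun _ _ => rfl)

lemma cnd_ci (hf : Dep A f) (hg : Dep B g) (h1 : A ∩ B ⊆ S) (h2 : S ⊆ A) :
    𝔼 x, f x * g x = 𝔼 x, f x * cnd S g x := by
  rw [ex_resample A]
  refine expect_congr rfl fun x _ => ?_
  rw [cnd, mul_expect]
  refine expect_congr rfl fun y _ => ?_
  rw [hf _ x fun u hu => piecewise_eq_of_mem _ _ _ hu, hg _ (S.piecewise x y) fun u hu => ?_]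
  by_cases c : u ∈ A
  · rw [piecewise_eq_of_mem _ _ _ c, piecewise_eq_of_mem _ _ _ (h1 (mem_inter.2 ⟨c, hu⟩))]
  · rw [piecewise_eq_of_notMem _ _ _ c, piecewise_eq_of_notMem _ _ _ fun e => c (h2 e)]

variable (H) in
/-- Edges inside a vertex set. -/
def EY (Y : Finset W) : Finset (Sym2 W) := H.edgeFinset.filter fun e => e.toFinset ⊆ Y

lemma mem_EY {u v : W} : s(u, v) ∈ EY H Y ↔ H.Adj u v ∧ u ∈ Y ∧ v ∈ Y := by
  simp [EY, subset_iff]

lemma EY_ins {u v : W} (hu : u ∈ Y) (hv : v ∉ Y) (h : H.Adj u v) :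
    s(u, v) ∉ EY H Y ∧ insert s(u, v) (EY H Y) ⊆ EY H (insert v Y) :=
  ⟨fun e => hv (mem_EY.1 e).2.2, insert_subset
    (mem_EY.2 ⟨h, mem_insert_of_mem hu, mem_insert_self _ _⟩)
    (monotone_filter_right _ fun _ _ e => e.trans (subset_insert _ _))⟩

variable (H) in
/-- Connectedness of an induced subgraph. -/
def Con (X : Finset W) : Prop := ∀ Y ⊆ X, Y.Nonempty → Y ≠ X → ∃ u ∈ Y, ∃ v ∈ X, v ∉ Y ∧ H.Adj u v

omit [Fintype W] [DecidableRel H.Adj] in
lemma Con.ind (h : Con H X) {P : Finset W → Prop} (h0 : P X) (step : ∀ Y ⊆ X, ∀ u ∈ Y, ∀ v ∈ X,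
    v ∉ Y → H.Adj u v → P (insert v Y) → P Y) : ∀ Y ⊆ X, Y.Nonempty → P Y := by
  intro Y
  induction hn : X.card - Y.card using Nat.strong_induction_on generalizing Y with
  | _ n ih =>
    intro h1 h2
    by_cases c : Y = X
    · exact c ▸ h0
    obtain ⟨u, hu, v, hv, hv', e⟩ := h Y h1 h2 c
    have := card_le_card (insert_subset hv h1)
    have := card_insert_of_notMem hv'
    exact step Y h1 u hu v hv hv' e (ih _ (by omega) _ rfl (insert_subset hv h1) (insert_nonempty _ _))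

lemma Con.le (h : Con H X) : ∀ Y ⊆ X, Y.Nonempty →
    (EY H Y).card + X.card ≤ (EY H X).card + Y.card :=
  h.ind le_rfl fun Y _ u hu v _ hv e ih => by
    have := card_le_card (EY_ins hu hv e).2
    rw [card_insert_of_notMem (EY_ins hu hv e).1] at this
    rw [card_insert_of_notMem hv] at ih
    omega

variable (μ w) in
/-- Weighted degree. -/
noncomputable def dg (a : V) : ℝ := 𝔼 b, μ b * w s(a, b)

variable (H μ w) in
/-- Density of the branching random walk on `Y`. -/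
noncomputable def qt (Y : Finset W) (x : W → V) : ℝ :=
  (𝔼 a, μ a * dg μ w a)⁻¹ * ((∏ u ∈ Y, μ (x u) * dg μ w (x u)) *
    ∏ e ∈ EY H Y, w (e.map x) / ((e.map x).map (dg μ w)).mul)

omit [Fintype V] in
lemma EY_dep (F : Sym2 V → ℝ) : Dep Y fun x => ∏ e ∈ EY H Y, F (e.map x) := fun _ _ h =>
  prod_congr rfl fun _ he => congrArg F (Sym2.map_congr fun u hu =>
    h u ((mem_filter.1 he).2 (Sym2.mem_toFinset.2 hu)))

omit [Fintype V] [Fintype W] [DecidableEq W] in
lemma vx_dep (F : V → ℝ) : Dep Y fun x => ∏ u ∈ Y, F (x u) := fun _ _ h =>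
  prod_congr rfl fun u hu => by rw [h u hu]

lemma qt_dep : Dep Y (qt H μ w Y) :=
  (vx_dep fun a => μ a * dg μ w a).op (EY_dep fun p => w p / (p.map (dg μ w)).mul) fun a b =>
    _ * (a * b)

lemma qt_iso (σ : Equiv.Perm W) (h1 : ∀ u, u ∈ Y ↔ σ u ∈ Z)
    (h2 : ∀ u ∈ Y, ∀ v ∈ Y, H.Adj (σ u) (σ v) ↔ H.Adj u v) (h3 : ∀ u ∈ S, σ u = u) (hf : Dep S f) :
    𝔼 x, qt H μ w Y x * f x = 𝔼 x, qt H μ w Z x * f x := by
  refine (Fintype.expect_equiv (σ.symm.arrowCongr (Equiv.refl V)) _ _ fun x => ?_).symm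
  rw [hf x (σ.symm.arrowCongr (Equiv.refl V) x) fun u hu => by simp [h3 u hu], qt, qt,
    ← prod_equiv σ h1 fun _ _ => rfl, ← prod_bij (s := EY H Y) (fun e _ => e.map σ)
      (fun e he => ?_) (fun _ _ _ _ e => Sym2.map.injective σ.injective e) (fun e he => ?_)
      fun _ _ => rfl]
  · simp only [Sym2.map_map]
    rfl
  · induction e using Sym2.ind with
    | h u v =>
      obtain ⟨a, b, c⟩ := mem_EY.1 he
      exact mem_EY.2 ⟨(h2 u b v c).2 a, (h1 u).1 b, (h1 v).1 c⟩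
  · induction e using Sym2.ind with
    | h u v =>
      obtain ⟨u, rfl⟩ := σ.surjective u
      obtain ⟨v, rfl⟩ := σ.surjective v
      obtain ⟨a, b, c⟩ := mem_EY.1 he
      exact ⟨s(u, v), mem_EY.2 ⟨(h2 u ((h1 u).2 b) v ((h1 v).2 c)).1 a, (h1 u).2 b, (h1 v).2 c⟩, rfl⟩

variable [Nonempty V] (hμ : ∀ a, 0 < μ a) (hw : ∀ e, 0 < w e)
include hμ hw

lemma dg_pos (a : V) : 0 < dg μ w a := S_pos fun _ => mul_pos (hμ _) (hw _)

lemma rho_pos : 0 < 𝔼 a, μ a * dg μ w a := S_pos fun _ => mul_pos (hμ _) (dg_pos hμ hw _)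

lemma dd_pos (p : Sym2 V) : 0 < (p.map (dg μ w)).mul := by
  induction p using Sym2.ind with
  | h a b => exact mul_pos (dg_pos hμ hw a) (dg_pos hμ hw b)

lemma qt_pos (x : W → V) : 0 < qt H μ w Y x :=
  mul_pos (inv_pos.2 (rho_pos hμ hw)) (mul_pos (prod_pos fun _ _ => mul_pos (hμ _) (dg_pos hμ hw _))
    (prod_pos fun _ _ => div_pos (hw _) (dd_pos hμ hw _)))

lemma qt_marg (h : Con H X) (hX : (EY H X).card < X.card) : ∀ Y ⊆ X, Y.Nonempty →
    Y.card ≤ (EY H Y).card + 1 → Dep Y f → 𝔼 x, qt H μ w X x * f x = 𝔼 x, qt H μ w Y x * f x :=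
  h.ind (fun _ _ => rfl) fun Y h1 u hu v hv' hv e ih h2 hf => by
    obtain ⟨e1, e2⟩ := EY_ins hu hv e
    have e3 := h.le _ (insert_subset hv' h1) (insert_nonempty _ _)
    have e4 := card_insert_of_notMem e1
    have e5 := card_insert_of_notMem hv
    have e6 := eq_of_subset_of_card_le e2 (by omega)
    rw [ih (by rw [← e6]; omega) (hf.mono (subset_insert _ _)), ex_update v]
    refine expect_congr rfl fun x _ => ?_
    have d0 := dg_pos hμ hw (x u)
    have k : ∀ a, ∀ t ∈ Y, Function.update x v a t = x t := fun a t ht =>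
      Function.update_of_ne (ne_of_mem_of_not_mem ht hv) _ _
    rw [expect_congr rfl (g := fun a => qt H μ w Y x * f x / dg μ w (x u) * (μ a * w s(x u, a)))
      fun a _ => ?_, ← mul_expect, ← dg, div_mul_cancel₀ _ d0.ne']
    rw [hf _ x (k a), ← qt_dep _ x (k a), qt, qt, ← e6, prod_insert hv, prod_insert e1]
    simp only [Sym2.map_mk, Sym2.mul_mk, Function.update_self, k a u hu]
    have := dg_pos hμ hw a
    field_simp

omit hμ hw in
lemma qt_one (u : W) (F : V → ℝ) : 𝔼 x, qt H μ w {u} x * F (x u) =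
    𝔼 a, (𝔼 a, μ a * dg μ w a)⁻¹ * (μ a * dg μ w a) * F a := by
  have e : EY H {u} = ∅ := eq_empty_of_forall_notMem fun e he => by
    induction e using Sym2.ind with
    | h a b =>
      obtain ⟨h1, h2, h3⟩ := mem_EY.1 he
      exact h1.ne ((mem_singleton.1 h2).trans (mem_singleton.1 h3).symm)
  rw [ex_update u]
  simp only [qt, e, prod_singleton, prod_empty, mul_one, Function.update_self, Fintype.expect_const]

lemma qt_ent (h1 : 𝔼 a, μ a = 1) (h : Con H X) (hX : (EY H X).card < X.card) (h2 : 1 < X.card) :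
    𝔼 x, qt H μ w X x = 1 ∧ (EY H X).card * Real.log (𝔼 a, μ a * dg μ w a) ≤ 𝔼 x, qt H μ w X x *
      Real.log (((∏ u ∈ X, μ (x u)) * ∏ e ∈ EY H X, w (e.map x)) / qt H μ w X x) := by
  have r0 := rho_pos hμ hw
  have d0 := dg_pos hμ hw
  have m : ∀ u ∈ X, ∀ F : V → ℝ, 𝔼 x, qt H μ w X x * F (x u) =
      𝔼 a, (𝔼 a, μ a * dg μ w a)⁻¹ * (μ a * dg μ w a) * F a := fun u hu F => by
    rw [qt_marg hμ hw h hX {u} (singleton_subset_iff.2 hu) (singleton_nonempty u) (by simp)
      fun x y e => by rw [e u (mem_singleton_self u)], qt_one]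
  obtain ⟨u, hu⟩ := card_pos.1 (one_pos.trans h2)
  have t : 𝔼 a, (𝔼 a, μ a * dg μ w a)⁻¹ * (μ a * dg μ w a) = 1 := by
    rw [← mul_expect, inv_mul_cancel₀ r0.ne']
  have m1 : 𝔼 x, qt H μ w X x = 1 := by simpa only [mul_one, t] using m u hu fun _ => 1
  have j := S_jens (fun a => (mul_pos (inv_pos.2 r0) (mul_pos (hμ a) (d0 a))).le) t
    (φ := fun a => (dg μ w a)⁻¹) (fun a => inv_pos.2 (d0 a)) (inv_pos.2 r0) (by
      rw [expect_congr rfl fun a _ => by rw [mul_assoc, mul_inv_cancel_right₀ (d0 a).ne'],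
        ← mul_expect, h1, mul_one])
  simp only [Real.log_inv, mul_neg, expect_neg_distrib, neg_le_neg_iff] at j
  have e1 := h.le {u} (singleton_subset_iff.2 hu) (singleton_nonempty u)
  rw [card_singleton] at e1
  refine ⟨m1, le_of_le_of_eq ?_ (expect_congr rfl (f := fun x => Real.log (𝔼 a, μ a * dg μ w a) *
    qt H μ w X x - ∑ u ∈ X, qt H μ w X x * Real.log (dg μ w (x u)) + ∑ e ∈ EY H X,
      qt H μ w X x * Real.log ((e.map x).map (dg μ w)).mul) fun x _ => ?_)⟩
  · rw [expect_add_distrib, expect_sub_distrib, ← mul_expect, m1, expect_sum_comm, expect_sum_comm,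
      sum_congr rfl fun u hu => m u hu fun a => Real.log (dg μ w a), sum_congr rfl (s₁ := EY H X)
        (g := fun _ => 2 * 𝔼 a, (𝔼 a, μ a * dg μ w a)⁻¹ * (μ a * dg μ w a) * Real.log (dg μ w a))
        fun e he => ?_, sum_const, sum_const, nsmul_eq_mul, nsmul_eq_mul,
      show X.card = (EY H X).card + 1 by omega]
    · have : (1 : ℝ) ≤ (EY H X).card := Nat.one_le_cast.2 (by omega)
      push_cast
      linarith [mul_le_mul_of_nonneg_left j (sub_nonneg.2 this)]
    · induction e using Sym2.ind with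
      | h a b =>
        simp only [Sym2.map_mk, Sym2.mul_mk, Real.log_mul (d0 _).ne' (d0 _).ne', mul_add]
        rw [expect_add_distrib, m a (mem_EY.1 he).2.1 fun a => Real.log (dg μ w a),
          m b (mem_EY.1 he).2.2 fun a => Real.log (dg μ w a), two_mul]
  · have p1 : 0 < ∏ u ∈ X, μ (x u) := prod_pos fun _ _ => hμ _
    have p2 : 0 < ∏ u ∈ X, dg μ w (x u) := prod_pos fun _ _ => d0 _
    have p3 : 0 < ∏ e ∈ EY H X, w (e.map x) := prod_pos fun _ _ => hw _
    have p4 : 0 < ∏ e ∈ EY H X, ((e.map x).map (dg μ w)).mul := prod_pos fun _ _ => dd_pos hμ hw _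
    rw [← mul_sum, ← mul_sum, ← Real.log_prod fun _ _ => (d0 _).ne',
      ← Real.log_prod fun _ _ => (dd_pos hμ hw _).ne', show ((∏ u ∈ X, μ (x u)) *
        ∏ e ∈ EY H X, w (e.map x)) / qt H μ w X x = (𝔼 a, μ a * dg μ w a) / (∏ u ∈ X, dg μ w (x u)) *
        ∏ e ∈ EY H X, ((e.map x).map (dg μ w)).mul by
          rw [qt, prod_mul_distrib, prod_div_distrib]; field_simp,
      Real.log_mul (div_pos r0 p2).ne' p4.ne', Real.log_div r0.ne' p2.ne']
    ring

omit hw in
lemma glue (h1 : 𝔼 a, μ a = 1) {p q : (W → V) → ℝ} (p0 : ∀ x, 0 < p x) (q0 : ∀ x, 0 < q x)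
    (hp : Dep A p) (hq : Dep B q) (q1 : 𝔼 x, q x = 1)
    (h : ∀ f, Dep (A ∩ B) f → 𝔼 x, p x * f x = 𝔼 x, q x * f x) : ∃ r : (W → V) → ℝ, (∀ x, 0 < r x) ∧
      Dep (A ∪ B) r ∧ (∀ f, Dep A f → 𝔼 x, r x * f x = 𝔼 x, p x * f x) ∧
      (∀ f, Dep B f → 𝔼 x, r x * f x = 𝔼 x, q x * f x) ∧ ∀ f g, Dep A f → Dep B g → (∀ x, 0 < f x) →
        (∀ x, 0 < g x) → 𝔼 x, p x * Real.log ((∏ u ∈ A, μ (x u)) * f x / p x) +
          𝔼 x, q x * Real.log ((∏ u ∈ B, μ (x u)) * g x / q x) ≤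
          𝔼 x, r x * Real.log ((∏ u ∈ A ∪ B, μ (x u)) * (f x * g x) / r x) := by
  have m0 : ∀ x, 0 < cnd (A ∩ B) q x := fun x => S_pos fun _ => q0 _
  have dm : Dep (A ∩ B) (cnd (A ∩ B) q) := cnd_dep
  have k : ∀ f, Dep (A ∩ B) f → 𝔼 x, q x * f x = 𝔼 x, f x * cnd (A ∩ B) q x := fun f hf => by
    rw [← cnd_ci hf hq inter_subset_left subset_rfl]
    exact expect_congr rfl fun _ _ => mul_comm _ _
  have r1 : ∀ f, Dep A f → 𝔼 x, p x * q x / cnd (A ∩ B) q x * f x = 𝔼 x, p x * f x := fun f hf => by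
    rw [expect_congr rfl (g := fun x => p x * f x / cnd (A ∩ B) q x * q x) fun x _ => by ring,
      cnd_ci ((hp.op hf (· * ·)).op (dm.mono inter_subset_left) (· / ·)) hq subset_rfl
        inter_subset_left]
    exact expect_congr rfl fun x _ => div_mul_cancel₀ _ (m0 x).ne'
  have r2 : ∀ f, Dep B f → 𝔼 x, p x * q x / cnd (A ∩ B) q x * f x = 𝔼 x, q x * f x := fun f hf => by
    have d := (hq.op hf (· * ·)).op (dm.mono inter_subset_right) (· / ·)
    rw [expect_congr rfl (g := fun x => p x * (q x * f x / cnd (A ∩ B) q x)) fun x _ => by ring,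
      cnd_ci hp d subset_rfl inter_subset_left, h _ cnd_dep, k _ cnd_dep,
      expect_congr rfl fun _ _ => mul_comm _ _, ← cnd_ci dm d inter_subset_left subset_rfl]
    exact expect_congr rfl fun x _ => mul_div_cancel₀ _ (m0 x).ne'
  refine ⟨fun x => p x * q x / cnd (A ∩ B) q x, fun x => div_pos (mul_pos (p0 x) (q0 x)) (m0 x),
    ((hp.mono subset_union_left).op (hq.mono subset_union_right) (· * ·)).op
      (dm.mono inter_subset_union) (· / ·), r1, r2, fun f g hf hg f0 g0 => ?_⟩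
  have v0 : ∀ (C : Finset W) (x : W → V), 0 < ∏ u ∈ C, μ (x u) := fun _ _ => prod_pos fun _ _ => hμ _
  have d := (vx_dep (Y := A ∩ B) μ).op dm (· / ·)
  have j := S_jens (fun x => (q0 x).le) q1 (fun x => div_pos (v0 (A ∩ B) x) (m0 x)) one_pos (by
    have e := ex_int (V := V) (A ∩ B) (fun _ _ a => μ a) (fun _ _ _ _ _ _ => rfl) (fun _ => 1)
      fun _ _ _ _ => rfl
    simp only [one_mul, h1, prod_const_one, Fintype.expect_const] at e
    rw [k _ d, ← e]
    exact expect_congr rfl fun x _ => div_mul_cancel₀ _ (m0 x).ne')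
  rw [Real.log_one, ← r2 _ ((d.mono inter_subset_right).op hq fun a _ => Real.log a)] at j
  rw [← r1 _ (((vx_dep μ).op hf (· * ·)).op hp fun a b => Real.log (a / b)),
    ← r2 _ (((vx_dep μ).op hg (· * ·)).op hq fun a b => Real.log (a / b)), ← expect_add_distrib]
  refine le_trans (ex_mono fun x => le_of_eq ?_) ((expect_add_distrib _ _ _).trans_le
    (add_le_of_nonpos_right j))
  have := v0 (A ∩ B) x
  have := v0 (A ∪ B) x
  have := v0 A x
  have := v0 B x
  have := m0 x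
  have := p0 x
  have := q0 x
  have := f0 x
  have := g0 x
  rw [← mul_add, ← mul_add, ← Real.log_mul (by positivity) (by positivity),
    ← Real.log_mul (by positivity) (by positivity), div_mul_div_comm, mul_mul_mul_comm,
    ← prod_union_inter]
  refine congrArg _ (congrArg _ ?_)
  field_simp

omit hμ hw

lemma con_of {s : Set W} [DecidablePred (· ∈ s)] (h : (H.induce s).Connected) :
    Con H (univ.filter (· ∈ s)) ∧ (univ.filter (· ∈ s)).Nonempty ∧
      (univ.filter (· ∈ s)).card ≤ (EY H (univ.filter (· ∈ s))).card + 1 := by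
  have c : Con H (univ.filter (· ∈ s)) := fun Y h1 ⟨u, hu⟩ h2 => by
    obtain ⟨v, hv, hv'⟩ := exists_of_ssubset (lt_of_le_of_ne h1 h2)
    obtain ⟨p⟩ := h ⟨u, (mem_filter.1 (h1 hu)).2⟩ ⟨v, (mem_filter.1 hv).2⟩
    obtain ⟨d, -, d1, d2⟩ := p.exists_boundary_dart {z | z.1 ∈ Y} hu hv'
    exact ⟨_, d1, _, mem_filter.2 ⟨mem_univ _, d.snd.2⟩, d2, d.adj⟩
  obtain ⟨u, hu⟩ := h.nonempty
  have m : u ∈ univ.filter (· ∈ s) := mem_filter.2 ⟨mem_univ _, hu⟩
  have := c.le {u} (singleton_subset_iff.2 m) (singleton_nonempty u)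
  rw [card_singleton] at this
  exact ⟨c, ⟨u, m⟩, by omega⟩

lemma tree_of {s : Set W} [DecidablePred (· ∈ s)] (h : (H.induce s).IsTree) :
    (EY H (univ.filter (· ∈ s))).card < (univ.filter (· ∈ s)).card := by
  rw [← Fintype.card_subtype]
  refine lt_of_lt_of_eq (Nat.lt_succ_of_le (card_le_card_of_surjOn (Sym2.map Subtype.val)
    fun e he => ?_)) h.card_edgeFinset
  induction e using Sym2.ind with
  | h u v =>
    obtain ⟨a, b, c⟩ := mem_EY.1 he
    exact ⟨s(⟨u, (mem_filter.1 b).2⟩, ⟨v, (mem_filter.1 c).2⟩), by simpa using a, rfl⟩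

variable (H) in
/-- The Sidorenko inequality with vertex weights. -/
def PSid : Prop := ∀ (V : Type) [Fintype V] [Nonempty V] (μ : V → ℝ) (w : Sym2 V → ℝ),
  (∀ a, 0 < μ a) → (∀ e, 0 < w e) → 𝔼 a, μ a = 1 → (𝔼 a, μ a * dg μ w a) ^ H.edgeFinset.card ≤
    𝔼 x : W → V, (∏ u, μ (x u)) * ∏ e ∈ H.edgeFinset, w (e.map x)

theorem psid_tree (h : TreeGlued H) : PSid H := by
  classical
  intro V _ _ μ w hμ hw h1
  obtain ⟨m, X, hT, hU, hE, hG⟩ := h
  obtain ⟨B, hB⟩ : ∃ B : ℕ → Finset W, B = fun i => univ.filter (· ∈ X i) := ⟨_, rfl⟩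
  have mB : ∀ i u, u ∈ B i ↔ u ∈ X i := fun i u => by simp [hB]
  have c1 : ∀ i ≤ m, Con H (B i) := fun i hi => hB ▸ (con_of (hT i hi).2.connected).1
  have c2 : ∀ i ≤ m, (EY H (B i)).card < (B i).card := fun i hi => hB ▸ tree_of (hT i hi).2
  have c3 := fun i hi => qt_ent hμ hw h1 (c1 i hi) (c2 i hi) (by
    obtain ⟨u, hu, v, hv, e⟩ := (hT i hi).1
    exact one_lt_card.2 ⟨u, (mB i u).2 hu, v, (mB i v).2 hv, e⟩)
  have key : ∀ i ≤ m, ∃ r : (W → V) → ℝ, (∀ x, 0 < r x) ∧ Dep ((range (i + 1)).biUnion B) r ∧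
      (∀ l ≤ i, ∀ f, Dep (B l) f → 𝔼 x, r x * f x = 𝔼 x, qt H μ w (B l) x * f x) ∧
      (∑ l ∈ range (i + 1), (EY H (B l)).card : ℕ) * Real.log (𝔼 a, μ a * dg μ w a) ≤ 𝔼 x, r x *
        Real.log ((∏ u ∈ (range (i + 1)).biUnion B, μ (x u)) *
          (∏ l ∈ range (i + 1), ∏ e ∈ EY H (B l), w (e.map x)) / r x) := by
    intro i
    induction i with
    | zero =>
      intro hi
      simp only [zero_add, range_one, singleton_biUnion, sum_singleton, prod_singleton, Nat.le_zero]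
      exact ⟨_, qt_pos hμ hw, qt_dep, fun l hl f _ => by rw [hl], (c3 0 hi).2⟩
    | succ i ih =>
      intro hi
      obtain ⟨p, p0, p1, p2, p3⟩ := ih (by omega)
      obtain ⟨j, hj, g1, Y, Z, φ, g2, g3, g4, g5⟩ := hG _ hi i.succ_pos
      have sb : ∀ l ≤ i, B l ⊆ (range (i + 1)).biUnion B := fun l hl =>
        subset_biUnion_of_mem B (mem_range.2 (by omega))
      obtain ⟨r, r0, r1, r2, r3, r4⟩ := glue hμ h1 p0 (qt_pos hμ hw) p1 qt_dep (c3 _ hi).1
        fun f hf => by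
          have s1 : ∀ u ∈ (range (i + 1)).biUnion B ∩ B (i + 1), u ∈ X (i + 1) ∩ X j := fun u hu => by
            obtain ⟨l, hl, e⟩ := mem_biUnion.1 (mem_inter.1 hu).1
            have := (mB _ _).1 (mem_inter.1 hu).2
            exact ⟨this, g1 l (mem_range.1 hl) ⟨(mB _ _).1 e, this⟩⟩
          have y := con_of g4
          have z := con_of (φ.connected_iff.1 g4)
          rw [p2 j (by omega) f (hf.mono fun u hu => (mB _ _).2 (s1 u hu).2),
            qt_marg hμ hw (c1 j (by omega)) (c2 j (by omega)) _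
              (fun u hu => (mB _ _).2 (g3 (mem_filter.1 hu).2)) z.2.1 z.2.2 (hf.mono fun u hu =>
                mem_filter.2 ⟨mem_univ _, (g5 u (s1 u hu)).choose_spec ▸ (φ _).2⟩),
            qt_marg hμ hw (c1 _ hi) (c2 _ hi) _ (fun u hu => (mB _ _).2 (g2 (mem_filter.1 hu).2))
              y.2.1 y.2.2 (hf.mono fun u hu => mem_filter.2 ⟨mem_univ _, (g5 u (s1 u hu)).choose⟩)]
          refine (qt_iso φ.toEquiv.extendSubtype (fun u => ?_) (fun u hu v hv => ?_)
            (fun u hu => ?_) hf).symm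
          · simp only [mem_filter, mem_univ, true_and]
            exact ⟨φ.toEquiv.extendSubtype_mem u, not_imp_not.1 (φ.toEquiv.extendSubtype_not_mem u)⟩
          · rw [Equiv.extendSubtype_apply_of_mem _ _ (mem_filter.1 hu).2,
              Equiv.extendSubtype_apply_of_mem _ _ (mem_filter.1 hv).2]
            exact φ.map_adj_iff
          · rw [Equiv.extendSubtype_apply_of_mem _ _ (g5 u (s1 u hu)).choose]
            exact (g5 u (s1 u hu)).choose_spec
      have e : (range (i + 1 + 1)).biUnion B = (range (i + 1)).biUnion B ∪ B (i + 1) := by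
        rw [range_add_one, biUnion_insert, union_comm]
      simp only [e, sum_range_succ _ (i + 1), prod_range_succ _ (i + 1)]
      refine ⟨r, r0, r1, fun l hl f hf => ?_, le_trans ?_ (r4 _ _ (fun x y e => prod_congr rfl
        fun l hl => EY_dep w x y fun u hu => e u (subset_biUnion_of_mem B hl hu)) (EY_dep w)
        (fun _ => prod_pos fun _ _ => prod_pos fun _ _ => hw _) fun _ => prod_pos fun _ _ => hw _)⟩
      · rcases hl.eq_or_lt with rfl | hl
        · exact r3 f hf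
        · rw [r2 f (hf.mono (sb l (by omega))), p2 l (by omega) f hf]
      · rw [Nat.cast_add, add_mul]
        exact add_le_add p3 (c3 _ hi).2
  obtain ⟨r, r0, -, r2, r3⟩ := key m le_rfl
  have e1 : (range (m + 1)).biUnion B = univ := eq_univ_of_forall fun v => by
    obtain ⟨i, hi, e⟩ := hU v
    exact mem_biUnion.2 ⟨i, mem_range.2 (by omega), (mB _ _).2 e⟩
  have e2 : (range (m + 1)).biUnion (fun l => EY H (B l)) = H.edgeFinset := by
    refine (biUnion_subset.2 fun _ _ => filter_subset _ _).antisymm fun e he => ?_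
    induction e using Sym2.ind with
    | h u v =>
      have a : H.Adj u v := by simpa using he
      obtain ⟨i, ⟨a1, a2, a3⟩, -⟩ := hE u v a
      exact mem_biUnion.2 ⟨i, mem_range.2 (by omega), mem_EY.2 ⟨a, (mB _ _).2 a2, (mB _ _).2 a3⟩⟩
  have e3 : (range (m + 1) : Set ℕ).PairwiseDisjoint fun l => EY H (B l) := fun i hi j hj e =>
    disjoint_left.2 fun f h2 h3 => by
      induction f using Sym2.ind with
      | h u v =>
        obtain ⟨a1, a2, a3⟩ := mem_EY.1 h2
        obtain ⟨-, a4, a5⟩ := mem_EY.1 h3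
        exact e ((hE u v a1).unique ⟨mem_range_succ_iff.1 hi, (mB _ _).1 a2, (mB _ _).1 a3⟩
          ⟨mem_range_succ_iff.1 hj, (mB _ _).1 a4, (mB _ _).1 a5⟩)
  simp only [e1, ← card_biUnion e3, ← prod_biUnion e3, e2] at r3
  have p0 : ∀ x : W → V, 0 < (∏ u, μ (x u)) * ∏ e ∈ H.edgeFinset, w (e.map x) := fun x =>
    mul_pos (prod_pos fun _ _ => hμ _) (prod_pos fun _ _ => hw _)
  rw [← Real.log_le_log_iff (pow_pos (rho_pos hμ hw) _) (S_pos p0), Real.log_pow]
  refine r3.trans (S_jens (fun x => (r0 x).le) ?_ (fun x => div_pos (p0 x) (r0 x)) (S_pos p0)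
    (expect_congr rfl fun x _ => mul_div_cancel₀ _ (r0 x).ne'))
  simpa only [mul_one, (c3 0 m.zero_le).1] using r2 0 m.zero_le (fun _ => 1) fun _ _ _ => rfl

end Pool.Agent.Work.MP_d4a230_co.U
end
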